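import Mathlib

open Finset

namespace Pool.Agent.Helper604.UMD

noncomputable section

variable {ι : Type*} [Fintype ι] [DecidableEq ι] {Y : Type*} [NormedAddCommGroup Y] [NormedSpace ℂ Y]

/-- real sign attached to a boolean -/
def sg (b : Bool) : ℝ := if b then 1 else -1

lemma sg_not (b : Bool) : sg (!b) = - sg b := by cases b <;> simp [sg]

/-- quadratic average over all choices of signs (a finite sum) -/
def rad (y : ι → Y) : ℝ := ∑ ω : ι → Bool, ‖∑ k, (sg (ω k) : ℂ) • y k‖ ^ 2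

lemma rad_nonneg (y : ι → Y) : 0 ≤ rad y := Finset.sum_nonneg fun _ _ => by positivity

/-- flipping one sign -/
def flip (k : ι) (ω : ι → Bool) : ι → Bool := Function.update ω k (!(ω k))

omit [Fintype ι] in
lemma flip_flip (k : ι) (ω : ι → Bool) : flip k (flip k ω) = ω := by
  unfold flip
  funext j
  by_cases h : j = k
  · subst h; simp
  · simp [h]

/-- replacing one vector by a real multiple of modulus at most one does not increase the average -/
lemma rad_update (y : ι → Y) (k : ι) {a : ℝ} (ha : |a| ≤ 1) :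
    rad (Function.update y k ((a : ℂ) • y k)) ≤ rad y := by
  have hsplit : ∀ (ω : ι → Bool) (z : Y), ∑ j, (sg (ω j) : ℂ) • (Function.update y k z) j
      = (∑ j ∈ univ.erase k, (sg (ω j) : ℂ) • y j) + (sg (ω k) : ℂ) • z := by
    intro ω z
    rw [← Finset.sum_erase_add _ _ (Finset.mem_univ k)]
    congr 1
    · refine Finset.sum_congr rfl fun j hj => ?_
      rw [Function.update_of_ne (Finset.ne_of_mem_erase hj)]
    · simp
  set W : (ι → Bool) → Y := fun ω => ∑ j ∈ univ.erase k, (sg (ω j) : ℂ) • y j with hW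
  have hWflip : ∀ ω, W (flip k ω) = W ω := by
    intro ω
    simp only [hW]
    refine Finset.sum_congr rfl fun j hj => ?_
    rw [flip, Function.update_of_ne (Finset.ne_of_mem_erase hj)]
  have h1 : rad y = ∑ ω : ι → Bool, ‖W ω + (sg (ω k) : ℂ) • y k‖ ^ 2 := by
    unfold rad
    refine Finset.sum_congr rfl fun ω _ => ?_
    have := hsplit ω (y k)
    rw [Function.update_eq_self] at this
    rw [this]
  have h2 : rad y = ∑ ω : ι → Bool, ‖W ω - (sg (ω k) : ℂ) • y k‖ ^ 2 := by
    rw [h1]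
    refine Finset.sum_nbij' (flip k) (flip k) (by simp) (by simp) (fun ω _ => flip_flip k ω)
      (fun ω _ => flip_flip k ω) ?_
    intro ω _
    rw [hWflip]
    congr 2
    rw [flip, Function.update_self, sg_not]
    push_cast
    rw [neg_smul, sub_neg_eq_add]
  have h3 : rad (Function.update y k ((a : ℂ) • y k)) = ∑ ω : ι → Bool, ‖W ω + (sg (ω k) : ℂ) • ((a : ℂ) • y k)‖ ^ 2 := by
    unfold rad
    refine Finset.sum_congr rfl fun ω _ => ?_
    rw [hsplit]
  have ha' := abs_le.1 ha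
  have hp : ∀ ω : ι → Bool, ‖W ω + (sg (ω k) : ℂ) • ((a : ℂ) • y k)‖ ^ 2 ≤
      (1 + a) / 2 * ‖W ω + (sg (ω k) : ℂ) • y k‖ ^ 2 + (1 - a) / 2 * ‖W ω - (sg (ω k) : ℂ) • y k‖ ^ 2 := by
    intro ω
    set z := (sg (ω k) : ℂ) • y k with hz
    have e : W ω + (sg (ω k) : ℂ) • ((a : ℂ) • y k) = (((1 + a) / 2 : ℝ) : ℂ) • (W ω + z) + (((1 - a) / 2 : ℝ) : ℂ) • (W ω - z) := by
      rw [smul_comm, ← hz]
      module
    rw [e]
    have n1 : ‖(((1 + a) / 2 : ℝ) : ℂ) • (W ω + z) + (((1 - a) / 2 : ℝ) : ℂ) • (W ω - z)‖ ≤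
        (1 + a) / 2 * ‖W ω + z‖ + (1 - a) / 2 * ‖W ω - z‖ := by
      refine (norm_add_le _ _).trans ?_
      rw [norm_smul, norm_smul, Complex.norm_real, Complex.norm_real, Real.norm_of_nonneg (by linarith),
        Real.norm_of_nonneg (by linarith)]
    have n2 : (1 + a) / 2 * ‖W ω + z‖ + (1 - a) / 2 * ‖W ω - z‖ ≥ 0 := by
      have : 0 ≤ 1 + a := by linarith
      have : 0 ≤ 1 - a := by linarith
      positivity
    calc _ ≤ ((1 + a) / 2 * ‖W ω + z‖ + (1 - a) / 2 * ‖W ω - z‖) ^ 2 := by gcongr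
      _ ≤ _ := by
        nlinarith [mul_nonneg (mul_nonneg (show 0 ≤ (1 + a) / 2 by linarith) (show 0 ≤ (1 - a) / 2 by linarith))
          (sq_nonneg (‖W ω + z‖ - ‖W ω - z‖))]
  rw [h3]
  calc _ ≤ ∑ ω : ι → Bool, ((1 + a) / 2 * ‖W ω + (sg (ω k) : ℂ) • y k‖ ^ 2 + (1 - a) / 2 * ‖W ω - (sg (ω k) : ℂ) • y k‖ ^ 2) :=
        Finset.sum_le_sum fun ω _ => hp ω
    _ = (1 + a) / 2 * rad y + (1 - a) / 2 * rad y := by
        rw [Finset.sum_add_distrib, ← Finset.mul_sum, ← Finset.mul_sum, ← h1, ← h2]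
    _ = rad y := by ring

lemma rad_real (y : ι → Y) {a : ι → ℝ} (ha : ∀ k, |a k| ≤ 1) :
    rad (fun k => (a k : ℂ) • y k) ≤ rad y := by
  have key : ∀ s : Finset ι, rad (fun k => if k ∈ s then (a k : ℂ) • y k else y k) ≤ rad y := by
    intro s
    induction s using Finset.induction_on with
    | empty => simp
    | insert k s hk ih =>
      have e : (fun j => if j ∈ insert k s then (a j : ℂ) • y j else y j) =
          Function.update (fun j => if j ∈ s then (a j : ℂ) • y j else y j) k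
            ((a k : ℂ) • (fun j => if j ∈ s then (a j : ℂ) • y j else y j) k) := by
        funext j
        by_cases hj : j = k
        · subst hj
          simp [hk]
        · simp [hj, Finset.mem_insert]
      rw [e]
      exact (rad_update _ k (ha k)).trans ih
  have := key Finset.univ
  simpa using this

/-- contraction principle for complex coefficients of modulus at most one -/
lemma rad_complex (y : ι → Y) {c : ι → ℂ} (hc : ∀ k, ‖c k‖ ≤ 1) :
    rad (fun k => c k • y k) ≤ 4 * rad y := by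
  have h1 := rad_real y (a := fun k => (c k).re) fun k => (Complex.abs_re_le_norm _).trans (hc k)
  have h2 := rad_real y (a := fun k => (c k).im) fun k => (Complex.abs_im_le_norm _).trans (hc k)
  have h3 : rad (fun k => c k • y k) ≤ 2 * rad (fun k => ((c k).re : ℂ) • y k) + 2 * rad (fun k => ((c k).im : ℂ) • y k) := by
    unfold rad
    rw [Finset.mul_sum, Finset.mul_sum, ← Finset.sum_add_distrib]
    refine Finset.sum_le_sum fun ω _ => ?_
    have e : ∑ k, (sg (ω k) : ℂ) • c k • y k = (∑ k, (sg (ω k) : ℂ) • ((c k).re : ℂ) • y k) +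
        Complex.I • (∑ k, (sg (ω k) : ℂ) • ((c k).im : ℂ) • y k) := by
      rw [Finset.smul_sum, ← Finset.sum_add_distrib]
      refine Finset.sum_congr rfl fun k _ => ?_
      nth_rw 1 [← Complex.re_add_im (c k)]
      module
    rw [e]
    have := norm_add_le (∑ k, (sg (ω k) : ℂ) • ((c k).re : ℂ) • y k) (Complex.I • (∑ k, (sg (ω k) : ℂ) • ((c k).im : ℂ) • y k))
    rw [norm_smul, Complex.norm_I, one_mul] at this
    nlinarith [norm_nonneg ((∑ k, (sg (ω k) : ℂ) • ((c k).re : ℂ) • y k) + Complex.I • (∑ k, (sg (ω k) : ℂ) • ((c k).im : ℂ) • y k)),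
      norm_nonneg (∑ k, (sg (ω k) : ℂ) • ((c k).re : ℂ) • y k), norm_nonneg (∑ k, (sg (ω k) : ℂ) • ((c k).im : ℂ) • y k),
      sq_nonneg (‖∑ k, (sg (ω k) : ℂ) • ((c k).re : ℂ) • y k‖ - ‖∑ k, (sg (ω k) : ℂ) • ((c k).im : ℂ) • y k‖)]
  linarith

end

end Pool.Agent.Helper604.UMD
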