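import Mathlib

open Set Filter Topology

namespace Pool.Agent.Helper604.UMD

noncomputable section

/-- family of monotone seminorms on `ι → ℝ`, each one depending continuously on coordinates -/
structure KData (ι κ : Type) where
  p : κ → (ι → ℝ) → ℝ
  nonneg : ∀ k x, 0 ≤ p k x
  add_le : ∀ k x y, p k (x + y) ≤ p k x + p k y
  smul : ∀ k (c : ℝ) x, 0 ≤ c → p k (c • x) = c * p k x
  mono : ∀ k x y, 0 ≤ x → x ≤ y → p k x ≤ p k y
  cont : ∀ k, Continuous (p k)
  ctrl : ∀ i, ∃ k, ∀ x, 0 ≤ x → x i ≤ p k x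

variable {ι κ : Type} (D : KData ι κ) (𝕜 : Type) [RCLike 𝕜]

variable {𝕜} in
/-- absolute values of coordinates -/
def absf (x : ι → 𝕜) : ι → ℝ := fun i => ‖x i‖

variable {𝕜} in
lemma absf_nonneg (x : ι → 𝕜) : 0 ≤ absf x := fun i => norm_nonneg _

variable {𝕜} in
lemma absf_add (x y : ι → 𝕜) : absf (x + y) ≤ absf x + absf y := fun i => norm_add_le _ _

variable {𝕜} in
lemma absf_smul (c : 𝕜) (x : ι → 𝕜) : absf (c • x) = ‖c‖ • absf x := by
  funext i
  simp [absf]

variable {𝕜} in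
lemma absf_zero : absf (0 : ι → 𝕜) = 0 := by
  funext i
  simp [absf]

variable {𝕜} in
lemma absf_continuous : Continuous (absf : (ι → 𝕜) → (ι → ℝ)) := by
  unfold absf
  fun_prop

lemma KData.zero (k : κ) : D.p k 0 = 0 := by
  have := D.smul k 0 0 le_rfl
  simpa using this

/-- the submodule of families with bounded seminorms -/
def KSub : Submodule 𝕜 (ι → 𝕜) where
  carrier := {x | BddAbove (range fun k => D.p k (absf x))}
  add_mem' := by
    rintro x y ⟨a, ha⟩ ⟨b, hb⟩
    refine ⟨a + b, ?_⟩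
    rintro _ ⟨k, rfl⟩
    calc D.p k (absf (x + y)) ≤ D.p k (absf x + absf y) := D.mono k _ _ (absf_nonneg _) (absf_add _ _)
      _ ≤ D.p k (absf x) + D.p k (absf y) := D.add_le k _ _
      _ ≤ a + b := add_le_add (ha ⟨k, rfl⟩) (hb ⟨k, rfl⟩)
  zero_mem' := by
    refine ⟨0, ?_⟩
    rintro _ ⟨k, rfl⟩
    simp only [absf_zero]
    rw [D.zero]
  smul_mem' := by
    rintro c x ⟨a, ha⟩
    refine ⟨‖c‖ * a, ?_⟩
    rintro _ ⟨k, rfl⟩
    simp only [absf_smul]
    rw [D.smul k _ _ (norm_nonneg _)]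
    exact mul_le_mul_of_nonneg_left (ha ⟨k, rfl⟩) (norm_nonneg _)

/-- the sequence space defined by the seminorms -/
def KSpace : Type := KSub D 𝕜

instance : AddCommGroup (KSpace D 𝕜) := inferInstanceAs (AddCommGroup (KSub D 𝕜))
instance : Module 𝕜 (KSpace D 𝕜) := inferInstanceAs (Module 𝕜 (KSub D 𝕜))

variable {D 𝕜}

/-- underlying coordinates -/
def KSpace.co (x : KSpace D 𝕜) : ι → 𝕜 := x.1

/-- build an element -/
def KSpace.mk (x : ι → 𝕜) (h : BddAbove (range fun k => D.p k (absf x))) : KSpace D 𝕜 := ⟨x, h⟩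

@[simp] lemma co_mk (x : ι → 𝕜) (h : BddAbove (range fun k => D.p k (absf x))) : (KSpace.mk (D := D) x h).co = x := rfl
@[simp] lemma co_add (x y : KSpace D 𝕜) : (x + y).co = x.co + y.co := rfl
@[simp] lemma co_sub (x y : KSpace D 𝕜) : (x - y).co = x.co - y.co := rfl
@[simp] lemma co_neg (x : KSpace D 𝕜) : (-x).co = -x.co := rfl
@[simp] lemma co_zero : (0 : KSpace D 𝕜).co = 0 := rfl
@[simp] lemma co_smul (c : 𝕜) (x : KSpace D 𝕜) : (c • x).co = c • x.co := rfl

@[ext] lemma KSpace.ext {x y : KSpace D 𝕜} (h : ∀ i, x.co i = y.co i) : x = y := Subtype.ext (funext h)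

lemma KSpace.bdd (x : KSpace D 𝕜) : BddAbove (range fun k => D.p k (absf x.co)) := x.2

instance : Norm (KSpace D 𝕜) := ⟨fun x => ⨆ k, D.p k (absf x.co)⟩

lemma norm_def (x : KSpace D 𝕜) : ‖x‖ = ⨆ k, D.p k (absf x.co) := rfl

lemma p_le_norm (x : KSpace D 𝕜) (k : κ) : D.p k (absf x.co) ≤ ‖x‖ := le_ciSup x.bdd k

lemma norm_nonneg' (x : KSpace D 𝕜) : 0 ≤ ‖x‖ := Real.iSup_nonneg fun k => D.nonneg k _

lemma norm_le_of {x : KSpace D 𝕜} {a : ℝ} (ha : 0 ≤ a) (h : ∀ k, D.p k (absf x.co) ≤ a) : ‖x‖ ≤ a :=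
  Real.iSup_le h ha

lemma co_le_norm (x : KSpace D 𝕜) (i : ι) : ‖x.co i‖ ≤ ‖x‖ := by
  obtain ⟨k, hk⟩ := D.ctrl i
  exact (hk (absf x.co) (absf_nonneg _)).trans (p_le_norm x k)

variable (D 𝕜) in
lemma core : NormedSpace.Core 𝕜 (KSpace D 𝕜) where
  norm_nonneg := norm_nonneg'
  norm_smul c x := by
    rw [norm_def, norm_def, Real.mul_iSup_of_nonneg (norm_nonneg _)]
    congr 1
    funext k
    rw [co_smul, absf_smul, D.smul k _ _ (norm_nonneg _)]
  norm_triangle x y := by
    refine norm_le_of (add_nonneg (norm_nonneg' _) (norm_nonneg' _)) fun k => ?_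
    calc D.p k (absf (x + y).co) ≤ D.p k (absf x.co + absf y.co) := D.mono k _ _ (absf_nonneg _) (absf_add _ _)
      _ ≤ D.p k (absf x.co) + D.p k (absf y.co) := D.add_le k _ _
      _ ≤ _ := add_le_add (p_le_norm _ _) (p_le_norm _ _)
  norm_eq_zero_iff x := by
    constructor
    · intro h
      ext i
      have := co_le_norm x i
      rw [h] at this
      simpa using this
    · rintro rfl
      refine le_antisymm (norm_le_of le_rfl fun k => ?_) (norm_nonneg' _)
      rw [co_zero, absf_zero, D.zero]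

instance : NormedAddCommGroup (KSpace D 𝕜) := NormedAddCommGroup.ofCore (core D 𝕜)
instance : NormedSpace 𝕜 (KSpace D 𝕜) := NormedSpace.ofCore (core D 𝕜)

instance : CompleteSpace (KSpace D 𝕜) := by
  refine Metric.complete_of_cauchySeq_tendsto fun u hu => ?_
  have hco : ∀ i, CauchySeq fun m => (u m).co i := by
    intro i
    rw [Metric.cauchySeq_iff] at hu ⊢
    intro ε hε
    obtain ⟨N, hN⟩ := hu ε hε
    refine ⟨N, fun m hm n hn => ?_⟩
    refine lt_of_le_of_lt ?_ (hN m hm n hn)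
    rw [dist_eq_norm, dist_eq_norm]
    exact co_le_norm (u m - u n) i
  choose y hy using fun i => cauchySeq_tendsto_of_complete (hco i)
  have hyt : Tendsto (fun m => (u m).co) atTop (𝓝 y) := tendsto_pi_nhds.2 hy
  obtain ⟨B, hB⟩ : ∃ B, ∀ m, ‖u m‖ ≤ B := by
    obtain ⟨B, hB⟩ := hu.isBounded_range.exists_norm_le
    exact ⟨B, fun m => hB _ ⟨m, rfl⟩⟩
  have hmem : BddAbove (range fun k => D.p k (absf y)) := by
    refine ⟨B, ?_⟩
    rintro _ ⟨k, rfl⟩
    have h1 : Tendsto (fun m => D.p k (absf (u m).co)) atTop (𝓝 (D.p k (absf y))) :=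
      (((D.cont k).comp absf_continuous).tendsto _).comp hyt
    exact le_of_tendsto h1 (Eventually.of_forall fun m => (p_le_norm _ _).trans (hB m))
  refine ⟨KSpace.mk y hmem, ?_⟩
  rw [Metric.tendsto_atTop]
  intro ε hε
  rw [Metric.cauchySeq_iff] at hu
  obtain ⟨N, hN⟩ := hu (ε / 2) (half_pos hε)
  refine ⟨N, fun m hm => ?_⟩
  rw [dist_eq_norm]
  refine lt_of_le_of_lt (norm_le_of (half_pos hε).le fun k => ?_) (half_lt_self hε)
  have h1 : Tendsto (fun n => D.p k (absf ((u m).co - (u n).co))) atTop (𝓝 (D.p k (absf ((u m).co - y)))) :=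
    (((D.cont k).comp absf_continuous).tendsto _).comp (tendsto_const_nhds.sub hyt)
  refine le_of_tendsto h1 (eventually_atTop.2 ⟨N, fun n hn => ?_⟩)
  have h2 := hN m hm n hn
  rw [dist_eq_norm] at h2
  exact (p_le_norm (u m - u n) k).trans h2.le

/-! ### order structure of the real space -/

lemma absf_real_sup (x y : ι → ℝ) : absf (x ⊔ y) ≤ absf x + absf y := by
  intro i
  simp only [absf, Pi.sup_apply, Pi.add_apply, Real.norm_eq_abs]
  rcases le_total (x i) (y i) with h | h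
  · rw [sup_eq_right.2 h]
    linarith [abs_nonneg (x i)]
  · rw [sup_eq_left.2 h]
    linarith [abs_nonneg (y i)]

lemma absf_real_inf (x y : ι → ℝ) : absf (x ⊓ y) ≤ absf x + absf y := by
  intro i
  simp only [absf, Pi.inf_apply, Pi.add_apply, Real.norm_eq_abs]
  rcases le_total (x i) (y i) with h | h
  · rw [inf_eq_left.2 h]
    linarith [abs_nonneg (y i)]
  · rw [inf_eq_right.2 h]
    linarith [abs_nonneg (x i)]

lemma bdd_of_le {𝕜' : Type} [RCLike 𝕜'] {x : ι → 𝕜'} {z w : ι → ℝ} (hz : BddAbove (range fun k => D.p k z)) (hw : BddAbove (range fun k => D.p k w))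
    (h : absf x ≤ z + w) : BddAbove (range fun k => D.p k (absf x)) := by
  obtain ⟨a, ha⟩ := hz
  obtain ⟨b, hb⟩ := hw
  refine ⟨a + b, ?_⟩
  rintro _ ⟨k, rfl⟩
  calc D.p k (absf x) ≤ D.p k (z + w) := D.mono k _ _ (absf_nonneg _) h
    _ ≤ D.p k z + D.p k w := D.add_le k _ _
    _ ≤ a + b := add_le_add (ha ⟨k, rfl⟩) (hb ⟨k, rfl⟩)

instance : Lattice (KSpace D ℝ) :=
  Subtype.lattice (P := fun x => x ∈ KSub D ℝ) (fun {x y} hx hy => bdd_of_le hx hy (absf_real_sup x y))
    (fun {x y} hx hy => bdd_of_le hx hy (absf_real_inf x y))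

lemma kle_iff {x y : KSpace D ℝ} : x ≤ y ↔ ∀ i, x.co i ≤ y.co i := Iff.rfl
@[simp] lemma co_sup (x y : KSpace D ℝ) : (x ⊔ y).co = x.co ⊔ y.co := rfl
@[simp] lemma co_inf (x y : KSpace D ℝ) : (x ⊓ y).co = x.co ⊓ y.co := rfl

instance : IsOrderedAddMonoid (KSpace D ℝ) where
  add_le_add_left x y h z := by
    rw [kle_iff] at h ⊢
    intro i
    have := h i
    simp only [co_add, Pi.add_apply]
    linarith

instance : IsOrderedModule ℝ (KSpace D ℝ) where
  smul_le_smul_of_nonneg_left a ha x y h := by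
    rw [kle_iff] at h ⊢
    intro i
    exact mul_le_mul_of_nonneg_left (h i) ha
  smul_le_smul_of_nonneg_right x hx a b h := by
    rw [kle_iff] at hx ⊢
    intro i
    exact mul_le_mul_of_nonneg_right h (hx i)

lemma co_abs (x : KSpace D ℝ) : |x|.co = absf x.co := by
  funext i
  change (x ⊔ -x).co i = _
  simp [absf, Real.norm_eq_abs, abs]

instance : HasSolidNorm (KSpace D ℝ) where
  solid x y h := by
    have h' : absf x.co ≤ absf y.co := by
      rw [← co_abs, ← co_abs]
      exact h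
    refine norm_le_of (norm_nonneg' _) fun k => ?_
    exact (D.mono k _ _ (absf_nonneg _) h').trans (p_le_norm y k)

/-! ### complexification -/

/-- embedding of the real space into the complex one -/
def incl : KSpace D ℝ →ₗ[ℝ] KSpace D ℂ where
  toFun x := KSpace.mk (fun i => (x.co i : ℂ)) (by
    have : absf (fun i => (x.co i : ℂ)) = absf x.co := by
      funext i
      simp [absf]
    rw [this]
    exact x.bdd)
  map_add' x y := by
    ext i
    simp
  map_smul' c x := by
    ext i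
    rw [RingHom.id_apply, ← Complex.coe_smul]
    simp only [co_mk, co_smul, Pi.smul_apply, smul_eq_mul, Complex.ofReal_mul]

@[simp] lemma incl_co (x : KSpace D ℝ) (i : ι) : (incl x).co i = (x.co i : ℂ) := rfl

/-- real part -/
def kre (z : KSpace D ℂ) : KSpace D ℝ := KSpace.mk (fun i => (z.co i).re) (by
  refine bdd_of_le z.bdd z.bdd fun i => ?_
  have := Complex.abs_re_le_norm (z.co i)
  simp only [absf, Real.norm_eq_abs, Pi.add_apply]
  linarith [norm_nonneg (z.co i)])

/-- imaginary part -/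
def kim (z : KSpace D ℂ) : KSpace D ℝ := KSpace.mk (fun i => (z.co i).im) (by
  refine bdd_of_le z.bdd z.bdd fun i => ?_
  have := Complex.abs_im_le_norm (z.co i)
  simp only [absf, Real.norm_eq_abs, Pi.add_apply]
  linarith [norm_nonneg (z.co i)])

lemma decomp (z : KSpace D ℂ) : ∃! p : KSpace D ℝ × KSpace D ℝ, z = incl p.1 + Complex.I • incl p.2 := by
  refine ⟨(kre z, kim z), ?_, ?_⟩
  · ext i
    simp only [co_add, co_smul, Pi.add_apply, Pi.smul_apply, smul_eq_mul, incl_co, kre, kim, co_mk]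
    rw [mul_comm, Complex.re_add_im]
  · rintro ⟨a, b⟩ h
    have hi : ∀ i, z.co i = a.co i + b.co i * Complex.I := by
      intro i
      rw [h]
      simp [mul_comm]
    refine Prod.ext ?_ ?_
    · ext i
      change a.co i = (z.co i).re
      rw [hi]
      simp
    · ext i
      change b.co i = (z.co i).im
      rw [hi]
      simp

lemma modulus (a b : KSpace D ℝ) :
    ∃ m : KSpace D ℝ, IsLUB (range fun θ : ℝ => Real.cos θ • a + Real.sin θ • b) m ∧
      ‖incl a + Complex.I • incl b‖ = ‖m‖ := by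
  set z : KSpace D ℂ := incl a + Complex.I • incl b with hz
  have hzi : ∀ i, z.co i = ⟨a.co i, b.co i⟩ := by
    intro i
    rw [hz]
    apply Complex.ext <;> simp
  have habs : absf (absf z.co) = absf z.co := by
    funext i
    simp [absf]
  refine ⟨KSpace.mk (absf z.co) (by rw [habs]; exact z.bdd), ⟨?_, ?_⟩, ?_⟩
  · rintro _ ⟨θ, rfl⟩
    rw [kle_iff]
    intro i
    simp only [co_add, co_smul, Pi.add_apply, Pi.smul_apply, smul_eq_mul, co_mk, absf]
    rw [hzi i]
    have h1 : ‖(⟨a.co i, b.co i⟩ : ℂ)‖ ^ 2 = a.co i ^ 2 + b.co i ^ 2 := by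
      rw [← Complex.normSq_eq_norm_sq, Complex.normSq_apply]
      ring
    refine le_of_sq_le_sq ?_ (norm_nonneg _) |> le_trans (le_abs_self _) |>.trans le_rfl
    rw [h1, sq_abs]
    nlinarith [Real.sin_sq_add_cos_sq θ, sq_nonneg (Real.sin θ * a.co i - Real.cos θ * b.co i)]
  · intro c hc
    rw [kle_iff]
    intro i
    have h1 := hc ⟨Complex.arg (z.co i), rfl⟩
    rw [kle_iff] at h1
    have h2 := h1 i
    simp only [co_add, co_smul, Pi.add_apply, Pi.smul_apply, smul_eq_mul] at h2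
    refine le_trans (le_of_eq ?_) h2
    simp only [co_mk, absf]
    have hre : ‖z.co i‖ * Real.cos (Complex.arg (z.co i)) = a.co i := by
      rw [Complex.norm_mul_cos_arg, hzi]
    have him : ‖z.co i‖ * Real.sin (Complex.arg (z.co i)) = b.co i := by
      rw [Complex.norm_mul_sin_arg, hzi]
    rw [← hre, ← him]
    have := Real.sin_sq_add_cos_sq (Complex.arg (z.co i))
    linear_combination (-‖z.co i‖) * this
  · rw [norm_def, norm_def, co_mk, habs]

end

end Pool.Agent.Helper604.UMD
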