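import Mathlib
import Pool.Agent.Helper604.UMD.Kothe

open Set Filter Topology
open scoped NNReal

namespace Pool.Agent.Helper604.UMD

noncomputable section

/-- finite `ℓ_r` norm of the first `n` coordinates -/
def ln (r : ℝ) (n : ℕ) (x : ℕ → ℝ) : ℝ := (∑ j ∈ Finset.range n, |x j| ^ r) ^ (1 / r)

lemma ln_nonneg (r : ℝ) (n : ℕ) (x : ℕ → ℝ) : 0 ≤ ln r n x := by unfold ln; positivity

lemma ln_mono {r : ℝ} (hr : 0 < r) (n : ℕ) {x y : ℕ → ℝ} (h : ∀ j, |x j| ≤ |y j|) : ln r n x ≤ ln r n y := by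
  unfold ln
  exact Real.rpow_le_rpow (by positivity)
    (Finset.sum_le_sum fun j _ => Real.rpow_le_rpow (abs_nonneg _) (h j) hr.le) (by positivity)

lemma ln_add {r : ℝ} (hr : 1 ≤ r) (n : ℕ) (x y : ℕ → ℝ) : ln r n (fun j => x j + y j) ≤ ln r n x + ln r n y := by
  unfold ln
  exact Real.Lp_add_le _ _ _ hr

lemma ln_smul {r : ℝ} (hr : 0 < r) (n : ℕ) {c : ℝ} (hc : 0 ≤ c) (x : ℕ → ℝ) : ln r n (fun j => c * x j) = c * ln r n x := by
  unfold ln
  simp_rw [abs_mul, abs_of_nonneg hc, Real.mul_rpow hc (abs_nonneg _)]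
  rw [← Finset.mul_sum, Real.mul_rpow (by positivity) (by positivity), ← Real.rpow_mul hc, mul_one_div_cancel hr.ne',
    Real.rpow_one]

lemma ln_cont {r : ℝ} (hr : 0 < r) (n : ℕ) : Continuous (ln r n) := by
  unfold ln
  refine Continuous.rpow_const ?_ fun x => Or.inr (by positivity)
  refine continuous_finsetSum _ fun j _ => ?_
  exact Continuous.rpow_const (by fun_prop) fun x => Or.inr hr.le

lemma le_ln {r : ℝ} (hr : 0 < r) {n j : ℕ} (hj : j < n) (x : ℕ → ℝ) : |x j| ≤ ln r n x := by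
  unfold ln
  have h1 : |x j| ^ r ≤ ∑ j ∈ Finset.range n, |x j| ^ r :=
    Finset.single_le_sum (f := fun j => |x j| ^ r) (fun _ _ => by positivity) (Finset.mem_range.2 hj)
  calc |x j| = (|x j| ^ r) ^ (1 / r) := by
        rw [← Real.rpow_mul (abs_nonneg _), mul_one_div_cancel hr.ne', Real.rpow_one]
    _ ≤ _ := by gcongr

lemma ln_weight (n : ℕ) {w : ℕ → ℝ} {W : ℝ} (hW : 0 ≤ W) (hw : ∑ j ∈ Finset.range n, w j ^ 2 ≤ W ^ 2) (b : ℕ → ℝ) :
    ln 2 n (fun j => w j * b j) ≤ W * ln (8 / 3) n b := by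
  have hm := ln_nonneg (8 / 3) n b
  have h1 : ∑ j ∈ Finset.range n, |w j * b j| ^ (2 : ℝ) ≤ (W * ln (8 / 3) n b) ^ (2 : ℝ) := by
    calc ∑ j ∈ Finset.range n, |w j * b j| ^ (2 : ℝ) ≤ ∑ j ∈ Finset.range n, w j ^ 2 * (ln (8 / 3) n b) ^ 2 := by
          refine Finset.sum_le_sum fun j hj => ?_
          have := le_ln (r := 8 / 3) (by norm_num) (Finset.mem_range.1 hj) b
          have hb2 : b j ^ 2 ≤ (ln (8 / 3) n b) ^ 2 := by
            rw [← sq_abs]
            exact pow_le_pow_left₀ (abs_nonneg _) this 2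
          rw [Real.rpow_two, sq_abs, mul_pow]
          exact mul_le_mul_of_nonneg_left hb2 (sq_nonneg _)
      _ = (∑ j ∈ Finset.range n, w j ^ 2) * (ln (8 / 3) n b) ^ 2 := by rw [Finset.sum_mul]
      _ ≤ W ^ 2 * (ln (8 / 3) n b) ^ 2 := by gcongr
      _ = _ := by rw [Real.rpow_two, mul_pow]
  unfold ln at h1 ⊢
  calc _ ≤ ((W * (∑ j ∈ Finset.range n, |b j| ^ (8 / 3 : ℝ)) ^ (1 / (8 / 3 : ℝ))) ^ (2 : ℝ)) ^ (1 / (2 : ℝ)) := by gcongr
    _ = _ := by
      rw [← Real.rpow_mul (by positivity)]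
      norm_num

/-- the exponents -/
def ce (j : ℕ) : ℝ := (1 / 4) ^ j

/-- the exponentials -/
def ue (j : ℕ) (t : ℝ) : ℝ := Real.exp (-(ce j * t))

/-- consecutive differences of the exponentials -/
def de (j : ℕ) (t : ℝ) : ℝ := ue (j + 1) t - ue j t

lemma ce_pos (j : ℕ) : 0 < ce j := by unfold ce; positivity
lemma ce_succ (j : ℕ) : ce (j + 1) = ce j / 4 := by unfold ce; ring
lemma ce_le_one (j : ℕ) : ce j ≤ 1 := by unfold ce; exact pow_le_one₀ (by norm_num) (by norm_num)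
lemma ue_nonneg (j : ℕ) (t : ℝ) : 0 ≤ ue j t := (Real.exp_pos _).le
lemma ue_le_one (j : ℕ) {t : ℝ} (ht : 0 ≤ t) : ue j t ≤ 1 := by
  unfold ue
  rw [Real.exp_le_one_iff]
  have := ce_pos j
  nlinarith [mul_nonneg this.le ht]
lemma de_nonneg (j : ℕ) {t : ℝ} (ht : 0 ≤ t) : 0 ≤ de j t := by
  unfold de ue
  rw [sub_nonneg, Real.exp_le_exp, ce_succ]
  nlinarith [mul_nonneg (ce_pos j).le ht]
lemma de_le_one (j : ℕ) {t : ℝ} (ht : 0 ≤ t) : de j t ≤ 1 := by
  unfold de
  linarith [ue_le_one (j + 1) ht, ue_nonneg j t]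
lemma ue_zero (j : ℕ) : ue j 0 = 1 := by simp [ue]
lemma de_zero (j : ℕ) : de j 0 = 0 := by simp [de, ue_zero]
lemma ue_add (j : ℕ) (s t : ℝ) : ue j (s + t) = ue j s * ue j t := by
  unfold ue
  rw [← Real.exp_add]
  congr 1
  ring

lemma sum_de (n : ℕ) {t : ℝ} (ht : 0 ≤ t) : ∑ j ∈ Finset.range n, de j t ^ 2 ≤ 1 ^ 2 := by
  calc ∑ j ∈ Finset.range n, de j t ^ 2 ≤ ∑ j ∈ Finset.range n, de j t := by
        refine Finset.sum_le_sum fun j _ => ?_
        have h1 := de_nonneg j ht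
        have h2 := de_le_one j ht
        nlinarith
    _ = ue n t - ue 0 t := by
        unfold de
        rw [Finset.sum_range_sub (fun j => ue j t)]
    _ ≤ 1 ^ 2 := by
        have := ue_le_one n ht
        have := ue_nonneg 0 t
        linarith

/-- exponentials are Lipschitz -/
lemma ue_lip (j : ℕ) {s t : ℝ} (hs : 0 ≤ s) (ht : 0 ≤ t) : |ue j t - ue j s| ≤ ce j * |t - s| := by
  have key : ∀ {s t : ℝ}, 0 ≤ s → s ≤ t → |ue j t - ue j s| ≤ ce j * |t - s| := by
    intro s t hs hst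
    have hc := ce_pos j
    have h1 : ue j t ≤ ue j s := by
      unfold ue
      rw [Real.exp_le_exp]
      nlinarith
    rw [abs_of_nonpos (by linarith), abs_of_nonneg (by linarith)]
    have h2 : ue j t = ue j s * ue j (t - s) := by
      rw [← ue_add]
      congr 1
      ring
    have h3 : 1 - ce j * (t - s) ≤ ue j (t - s) := by
      unfold ue
      have := Real.add_one_le_exp (-(ce j * (t - s)))
      linarith
    have h4 := ue_le_one j hs
    have h5 := ue_nonneg j s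
    have h6 : 0 ≤ ce j * (t - s) := mul_nonneg hc.le (by linarith)
    rw [h2]
    nlinarith
  rcases le_total s t with h | h
  · exact key hs h
  · rw [abs_sub_comm, abs_sub_comm t s]
    exact key ht h

lemma de_lip (j : ℕ) {s t : ℝ} (hs : 0 ≤ s) (ht : 0 ≤ t) : |de j t - de j s| ≤ 2 * ce j * |t - s| := by
  unfold de
  have h1 := ue_lip (j + 1) hs ht
  have h2 := ue_lip j hs ht
  rw [ce_succ] at h1
  have e : ue (j + 1) t - ue j t - (ue (j + 1) s - ue j s) = (ue (j + 1) t - ue (j + 1) s) - (ue j t - ue j s) := by ring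
  rw [e]
  refine (abs_sub _ _).trans ?_
  have h3 : 0 ≤ ce j * |t - s| := mul_nonneg (ce_pos j).le (abs_nonneg _)
  linarith

lemma sum_ce (n : ℕ) : ∑ j ∈ Finset.range n, ce j ^ 2 ≤ 2 ^ 2 := by
  have h1 : ∀ j, ce j ^ 2 ≤ (1 / 4 : ℝ) ^ j := by
    intro j
    have := ce_le_one j
    have h2 := ce_pos j
    have h3 : ce j = (1 / 4 : ℝ) ^ j := rfl
    rw [← h3]
    nlinarith
  calc ∑ j ∈ Finset.range n, ce j ^ 2 ≤ ∑ j ∈ Finset.range n, (1 / 4 : ℝ) ^ j := Finset.sum_le_sum fun j _ => h1 j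
    _ ≤ ∑' j : ℕ, (1 / 4 : ℝ) ^ j := Summable.sum_le_tsum _ (fun _ _ => by positivity) (summable_geometric_of_lt_one (by norm_num) (by norm_num))
    _ = (1 - 1 / 4)⁻¹ := tsum_geometric_of_lt_one (by norm_num) (by norm_num)
    _ ≤ 2 ^ 2 := by norm_num

section act

variable {V : Type} [AddCommGroup V] [Module ℝ V]

/-- the semigroup on coordinates -/
def act (t : ℝ) (x : ℕ ⊕ ℕ → V) : ℕ ⊕ ℕ → V :=
  Sum.elim (fun j => ue (j + 1) t • x (Sum.inl j) + de j t • x (Sum.inr j)) (fun j => ue j t • x (Sum.inr j))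

@[simp] lemma act_inl (t : ℝ) (x : ℕ ⊕ ℕ → V) (j : ℕ) : act t x (Sum.inl j) = ue (j + 1) t • x (Sum.inl j) + de j t • x (Sum.inr j) := rfl
@[simp] lemma act_inr (t : ℝ) (x : ℕ ⊕ ℕ → V) (j : ℕ) : act t x (Sum.inr j) = ue j t • x (Sum.inr j) := rfl

lemma act_zero (x : ℕ ⊕ ℕ → V) : act 0 x = x := by
  funext i
  rcases i with j | j <;> simp [ue_zero, de_zero]

lemma act_add_time (s t : ℝ) (x : ℕ ⊕ ℕ → V) : act (s + t) x = act s (act t x) := by
  funext i
  rcases i with j | j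
  · simp only [act_inl, act_inr, de, ue_add]
    module
  · simp only [act_inr, ue_add]
    module

lemma act_add (t : ℝ) (x y : ℕ ⊕ ℕ → V) : act t (x + y) = act t x + act t y := by
  funext i
  rcases i with j | j
  · simp only [act_inl, Pi.add_apply]
    module
  · simp only [act_inr, Pi.add_apply]
    module

end act

lemma act_smul_real (t : ℝ) (c : ℝ) (x : ℕ ⊕ ℕ → ℝ) : act t (c • x) = c • act t x := by
  funext i
  rcases i with j | j
  · simp only [act_inl, Pi.smul_apply, smul_eq_mul]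
    ring
  · simp only [act_inr, Pi.smul_apply, smul_eq_mul]
    ring

lemma act_smul_complex (t : ℝ) (c : ℂ) (x : ℕ ⊕ ℕ → ℂ) : act t (c • x) = c • act t x := by
  funext i
  rcases i with j | j
  · simp only [act_inl, Pi.smul_apply, smul_eq_mul, Complex.real_smul]
    ring
  · simp only [act_inr, Pi.smul_apply, smul_eq_mul, Complex.real_smul]
    ring

lemma act_mono {t : ℝ} (ht : 0 ≤ t) {x y : ℕ ⊕ ℕ → ℝ} (h : x ≤ y) : act t x ≤ act t y := by
  intro i
  rcases i with j | j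
  · simp only [act_inl, smul_eq_mul]
    have h1 := mul_le_mul_of_nonneg_left (h (Sum.inl j)) (ue_nonneg (j + 1) t)
    have h2 := mul_le_mul_of_nonneg_left (h (Sum.inr j)) (de_nonneg j ht)
    linarith
  · simp only [act_inr, smul_eq_mul]
    exact mul_le_mul_of_nonneg_left (h (Sum.inr j)) (ue_nonneg j t)

lemma act_nonneg {t : ℝ} (ht : 0 ≤ t) {x : ℕ ⊕ ℕ → ℝ} (h : 0 ≤ x) : 0 ≤ act t x := by
  have h0 : act t (0 : ℕ ⊕ ℕ → ℝ) = 0 := by
    funext i
    rcases i with j | j <;> simp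
  rw [← h0]
  exact act_mono ht h

lemma absf_act {𝕜 : Type} [RCLike 𝕜] {t : ℝ} (ht : 0 ≤ t) (x : ℕ ⊕ ℕ → 𝕜) : absf (act t x) ≤ act t (absf x) := by
  intro i
  rcases i with j | j
  · simp only [act_inl, absf, smul_eq_mul]
    refine (norm_add_le _ _).trans ?_
    rw [norm_smul, norm_smul, Real.norm_of_nonneg (ue_nonneg _ _), Real.norm_of_nonneg (de_nonneg _ ht)]
  · simp only [act_inr, absf, smul_eq_mul]
    rw [norm_smul, Real.norm_of_nonneg (ue_nonneg _ _)]

lemma act_cont (t : ℝ) : Continuous (act (V := ℝ) t) := by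
  refine continuous_pi fun i => ?_
  rcases i with j | j
  · simp only [act_inl, smul_eq_mul]
    fun_prop
  · simp only [act_inr, smul_eq_mul]
    fun_prop

/-- the basic norm of the first `n` pairs of coordinates -/
def PN (n : ℕ) (x : ℕ ⊕ ℕ → ℝ) : ℝ := ln 2 n (fun j => x (Sum.inl j)) + ln (8 / 3) n (fun j => x (Sum.inr j))

lemma PN_nonneg (n : ℕ) (x : ℕ ⊕ ℕ → ℝ) : 0 ≤ PN n x := add_nonneg (ln_nonneg _ _ _) (ln_nonneg _ _ _)

lemma PN_mono (n : ℕ) {x y : ℕ ⊕ ℕ → ℝ} (h0 : 0 ≤ x) (h : x ≤ y) : PN n x ≤ PN n y := by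
  unfold PN
  have h1 : ∀ i, |x i| ≤ |y i| := by
    intro i
    have h2 : 0 ≤ x i := h0 i
    have h3 : x i ≤ y i := h i
    rw [abs_of_nonneg h2, abs_of_nonneg (h2.trans h3)]
    exact h3
  gcongr
  · exact ln_mono (by norm_num) n fun j => h1 _
  · exact ln_mono (by norm_num) n fun j => h1 _

lemma PN_add (n : ℕ) (x y : ℕ ⊕ ℕ → ℝ) : PN n (x + y) ≤ PN n x + PN n y := by
  unfold PN
  have h1 := ln_add (r := 2) (by norm_num) n (fun j => x (Sum.inl j)) (fun j => y (Sum.inl j))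
  have h2 := ln_add (r := 8 / 3) (by norm_num) n (fun j => x (Sum.inr j)) (fun j => y (Sum.inr j))
  simp only [Pi.add_apply]
  linarith

lemma PN_smul (n : ℕ) {c : ℝ} (hc : 0 ≤ c) (x : ℕ ⊕ ℕ → ℝ) : PN n (c • x) = c * PN n x := by
  unfold PN
  simp only [Pi.smul_apply, smul_eq_mul]
  rw [ln_smul (by norm_num) n hc, ln_smul (by norm_num) n hc]
  ring

lemma PN_cont (n : ℕ) : Continuous (PN n) := by
  unfold PN
  refine Continuous.add ?_ ?_
  · exact (ln_cont (by norm_num) n).comp (by fun_prop)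
  · exact (ln_cont (by norm_num) n).comp (by fun_prop)

lemma le_PN {n : ℕ} {x : ℕ ⊕ ℕ → ℝ} : (∀ j < n, |x (Sum.inl j)| ≤ PN n x) ∧ (∀ j < n, |x (Sum.inr j)| ≤ PN n x) := by
  refine ⟨fun j hj => ?_, fun j hj => ?_⟩
  · have h1 := le_ln (r := 2) (by norm_num) hj (fun j => x (Sum.inl j))
    have h2 := ln_nonneg (8 / 3) n (fun j => x (Sum.inr j))
    unfold PN
    linarith
  · have h1 := le_ln (r := 8 / 3) (by norm_num) hj (fun j => x (Sum.inr j))
    have h2 := ln_nonneg 2 n (fun j => x (Sum.inl j))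
    unfold PN
    linarith

lemma PN_act {t : ℝ} (ht : 0 ≤ t) (n : ℕ) {x : ℕ ⊕ ℕ → ℝ} : PN n (act t x) ≤ 2 * PN n x := by
  unfold PN
  simp only [act_inl, act_inr, smul_eq_mul]
  have h1 := ln_add (r := 2) (by norm_num) n (fun j => ue (j + 1) t * x (Sum.inl j)) (fun j => de j t * x (Sum.inr j))
  have h2 : ln 2 n (fun j => ue (j + 1) t * x (Sum.inl j)) ≤ ln 2 n (fun j => x (Sum.inl j)) := by
    refine ln_mono (by norm_num) n fun j => ?_
    rw [abs_mul, abs_of_nonneg (ue_nonneg _ _)]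
    have := ue_le_one (j + 1) ht
    nlinarith [abs_nonneg (x (Sum.inl j))]
  have h3 := ln_weight n (W := 1) (by norm_num) (sum_de n ht) (fun j => x (Sum.inr j))
  have h4 : ln (8 / 3) n (fun j => ue j t * x (Sum.inr j)) ≤ ln (8 / 3) n (fun j => x (Sum.inr j)) := by
    refine ln_mono (by norm_num) n fun j => ?_
    rw [abs_mul, abs_of_nonneg (ue_nonneg _ _)]
    have := ue_le_one j ht
    nlinarith [abs_nonneg (x (Sum.inr j))]
  have h5 := ln_nonneg 2 n (fun j => x (Sum.inl j))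
  linarith

/-- the seminorms defining the counterexample -/
def DD : KData (ℕ ⊕ ℕ) (ℝ≥0 × ℕ) where
  p k x := PN k.2 (act k.1 x)
  nonneg k x := PN_nonneg _ _
  add_le k x y := by
    rw [act_add]
    exact PN_add _ _ _
  smul k c x hc := by
    rw [act_smul_real, PN_smul _ hc]
  mono k x y h0 h := PN_mono _ (act_nonneg k.1.2 h0) (act_mono k.1.2 h)
  cont k := (PN_cont _).comp (act_cont _)
  ctrl i := by
    rcases i with j | j
    · refine ⟨(0, j + 1), fun x hx => ?_⟩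
      have h := (le_PN (n := j + 1) (x := x)).1 j (Nat.lt_succ_self j)
      simp only [NNReal.coe_zero, act_zero]
      exact (le_abs_self _).trans h
    · refine ⟨(0, j + 1), fun x hx => ?_⟩
      have h := (le_PN (n := j + 1) (x := x)).2 j (Nat.lt_succ_self j)
      simp only [NNReal.coe_zero, act_zero]
      exact (le_abs_self _).trans h

/-- the real Banach lattice -/
abbrev ER : Type := KSpace DD ℝ
/-- the complex Banach lattice -/
abbrev XC : Type := KSpace DD ℂ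

lemma PN_le_norm {𝕜 : Type} [RCLike 𝕜] (x : KSpace DD 𝕜) (n : ℕ) : PN n (absf x.co) ≤ ‖x‖ := by
  have := p_le_norm x ((0 : ℝ≥0), n)
  simpa [DD, act_zero] using this

lemma norm_le_PN {𝕜 : Type} [RCLike 𝕜] {x : KSpace DD 𝕜} {a : ℝ} (ha : 0 ≤ a) (h : ∀ n, PN n (absf x.co) ≤ a) : ‖x‖ ≤ 2 * a := by
  refine norm_le_of (by positivity) fun k => ?_
  have := PN_act (t := k.1) k.1.2 k.2 (x := absf x.co)
  change PN k.2 (act k.1 (absf x.co)) ≤ _
  linarith [h k.2]

lemma p_act {𝕜 : Type} [RCLike 𝕜] (t : ℝ≥0) (x : KSpace DD 𝕜) (k : ℝ≥0 × ℕ) : DD.p k (absf (act (t : ℝ) x.co)) ≤ ‖x‖ := by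
  have h1 := DD.mono k _ _ (absf_nonneg _) (absf_act t.2 x.co)
  refine h1.trans ?_
  have h2 := p_le_norm x (k.1 + t, k.2)
  refine le_trans (le_of_eq ?_) h2
  change PN k.2 (act k.1 (act t (absf x.co))) = PN k.2 (act ((k.1 + t : ℝ≥0) : ℝ) (absf x.co))
  rw [NNReal.coe_add, act_add_time]

/-- the semigroup on the space with scalars `𝕜`, as a plain map -/
def Tf {𝕜 : Type} [RCLike 𝕜] (t : ℝ≥0) (x : KSpace DD 𝕜) : KSpace DD 𝕜 :=
  KSpace.mk (act (t : ℝ) x.co) ⟨‖x‖, by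
    rintro _ ⟨k, rfl⟩
    exact p_act t x k⟩

lemma Tf_norm {𝕜 : Type} [RCLike 𝕜] (t : ℝ≥0) (x : KSpace DD 𝕜) : ‖Tf t x‖ ≤ ‖x‖ :=
  norm_le_of (norm_nonneg _) fun k => p_act t x k

/-- the semigroup -/
def TC (t : ℝ≥0) : XC →L[ℂ] XC :=
  LinearMap.mkContinuous
    { toFun := Tf t
      map_add' := fun x y => by
        ext i
        simp only [Tf, co_mk, co_add, act_add]
      map_smul' := fun c x => by
        ext i
        simp only [Tf, co_mk, co_smul, act_smul_complex, RingHom.id_apply] } 1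
    (fun x => by rw [one_mul]; exact Tf_norm t x)

lemma TC_co (t : ℝ≥0) (x : XC) : (TC t x).co = act (t : ℝ) x.co := rfl

lemma TC_norm (t : ℝ≥0) : ‖TC t‖ ≤ 1 := LinearMap.mkContinuous_norm_le _ zero_le_one _

lemma TC_zero : TC 0 = 1 := by
  ext x i
  rw [TC_co]
  simp [act_zero]

lemma TC_add (s t : ℝ≥0) : TC (s + t) = TC s ∘L TC t := by
  ext x i
  rw [TC_co, ContinuousLinearMap.comp_apply, TC_co, TC_co, NNReal.coe_add, act_add_time]

lemma TC_pos (t : ℝ≥0) (x : ER) (hx : 0 ≤ x) : ∃ y : ER, 0 ≤ y ∧ TC t (incl x) = incl y := by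
  refine ⟨Tf t x, ?_, ?_⟩
  · rw [kle_iff]
    exact act_nonneg t.2 hx
  · ext i
    rw [TC_co]
    rcases i with j | j
    · simp [Tf, Complex.real_smul]
    · simp [Tf, Complex.real_smul]

lemma TC_lip (x : XC) (s t : ℝ≥0) : ‖TC t x - TC s x‖ ≤ 10 * ‖x‖ * |(t : ℝ) - s| := by
  have h : ∀ n, PN n (absf (TC t x - TC s x).co) ≤ 5 * (|(t : ℝ) - s| * ‖x‖) := by
    intro n
    set δ := |(t : ℝ) - s| with hδ
    have hδ0 : 0 ≤ δ := abs_nonneg _
    set a : ℕ → ℝ := fun j => ‖x.co (Sum.inl j)‖ with ha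
    set b : ℕ → ℝ := fun j => ‖x.co (Sum.inr j)‖ with hb
    have hP : ln 2 n a + ln (8 / 3) n b ≤ ‖x‖ := PN_le_norm x n
    have h1 : ∀ j, |absf (TC t x - TC s x).co (Sum.inl j)| ≤ |δ * a j + (2 * δ) * (ce j * b j)| := by
      intro j
      rw [abs_of_nonneg (absf_nonneg _ _), abs_of_nonneg (by
        have := ce_pos j
        positivity)]
      simp only [absf, co_sub, TC_co, Pi.sub_apply, act_inl]
      have e : ue (j + 1) (t : ℝ) • x.co (Sum.inl j) + de j (t : ℝ) • x.co (Sum.inr j) -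
          (ue (j + 1) (s : ℝ) • x.co (Sum.inl j) + de j (s : ℝ) • x.co (Sum.inr j)) =
          (ue (j + 1) (t : ℝ) - ue (j + 1) (s : ℝ)) • x.co (Sum.inl j) + (de j (t : ℝ) - de j (s : ℝ)) • x.co (Sum.inr j) := by
        module
      rw [e]
      refine (norm_add_le _ _).trans ?_
      rw [norm_smul, norm_smul, Real.norm_eq_abs, Real.norm_eq_abs]
      have h2 : |ue (j + 1) (t : ℝ) - ue (j + 1) (s : ℝ)| ≤ ce (j + 1) * δ := ue_lip (j + 1) s.coe_nonneg t.coe_nonneg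
      have h3 : |de j (t : ℝ) - de j (s : ℝ)| ≤ 2 * ce j * δ := de_lip j s.coe_nonneg t.coe_nonneg
      have h4 := ce_le_one (j + 1)
      have ha0 : 0 ≤ a j := norm_nonneg _
      have hb0 : 0 ≤ b j := norm_nonneg _
      have h5 : |ue (j + 1) (t : ℝ) - ue (j + 1) (s : ℝ)| ≤ δ := h2.trans (by nlinarith)
      calc _ ≤ δ * a j + (2 * ce j * δ) * b j := by gcongr
        _ = _ := by ring
    have h2 : ∀ j, |absf (TC t x - TC s x).co (Sum.inr j)| ≤ |δ * b j| := by
      intro j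
      have hb0 : 0 ≤ b j := norm_nonneg _
      rw [abs_of_nonneg (absf_nonneg _ _), abs_of_nonneg (by positivity)]
      simp only [absf, co_sub, TC_co, Pi.sub_apply, act_inr]
      rw [← sub_smul, norm_smul, Real.norm_eq_abs]
      have h2 : |ue j (t : ℝ) - ue j (s : ℝ)| ≤ ce j * δ := ue_lip j s.coe_nonneg t.coe_nonneg
      have h4 := ce_le_one j
      have h5 : |ue j (t : ℝ) - ue j (s : ℝ)| ≤ δ := h2.trans (by nlinarith)
      gcongr
    unfold PN
    have h3 := ln_mono (r := 2) (by norm_num) n h1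
    have h4 := ln_mono (r := 8 / 3) (by norm_num) n h2
    have h5 := ln_add (r := 2) (by norm_num) n (fun j => δ * a j) (fun j => (2 * δ) * (ce j * b j))
    rw [ln_smul (by norm_num) n hδ0, ln_smul (by norm_num) n (by positivity)] at h5
    rw [ln_smul (by norm_num) n hδ0] at h4
    have h6 := ln_weight n (W := 2) (by norm_num) (sum_ce n) b
    have h7 := ln_nonneg 2 n a
    have h8 := ln_nonneg (8 / 3) n b
    have h9 : (2 * δ) * ln 2 n (fun j => ce j * b j) ≤ (2 * δ) * (2 * ln (8 / 3) n b) := by gcongr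
    have h10 : δ * (ln 2 n a + ln (8 / 3) n b) ≤ δ * ‖x‖ := by gcongr
    have h11 : 0 ≤ δ * ln 2 n a := by positivity
    nlinarith
  have := norm_le_PN (x := TC t x - TC s x) (by positivity) h
  linarith

lemma TC_cont (x : XC) : Continuous fun t => TC t x := by
  have h : LipschitzWith (Real.toNNReal (10 * ‖x‖)) fun t : ℝ≥0 => TC t x := by
    refine LipschitzWith.of_dist_le_mul fun t s => ?_
    rw [dist_eq_norm, Real.coe_toNNReal _ (by positivity), NNReal.dist_eq]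
    exact TC_lip x s t
  exact h.continuous

end

end Pool.Agent.Helper604.UMD
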