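import Mathlib

open MeasureTheory FourierTransform SchwartzMap Complex
open scoped ENNReal NNReal

namespace Pool.Agent.Helper604.UMD

noncomputable section

/-- The symbol of the Hilbert transform. -/
def sym (ξ : ℝ) : ℂ := -I * ((SignType.sign ξ : ℝ) : ℂ)

/-- Hilbert transform of a Schwartz function with values in `X`
(Fourier multiplier with symbol `-i sgn`). -/
def hilbertT {X : Type*} [NormedAddCommGroup X] [NormedSpace ℂ X] (f : 𝓢(ℝ, X)) : ℝ → X :=
  𝓕⁻ (fun ξ : ℝ => sym ξ • 𝓕 (f : ℝ → X) ξ)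

/-- A complex Banach space `X` is UMD when the Hilbert transform is bounded on `L_2(ℝ; X)`. -/
def IsUMD (X : Type*) [NormedAddCommGroup X] [NormedSpace ℂ X] : Prop :=
  ∃ C : ℝ≥0, ∀ f : 𝓢(ℝ, X), eLpNorm (hilbertT f) 2 volume ≤ C * eLpNorm (f : ℝ → X) 2 volume

lemma sym_pos {ξ : ℝ} (h : 0 < ξ) : sym ξ = -I := by simp [sym, h]
lemma sym_neg {ξ : ℝ} (h : ξ < 0) : sym ξ = I := by simp [sym, h]
lemma sym_zero : sym 0 = 0 := by simp [sym]

lemma sym_measurable : Measurable sym := by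
  have : sym = fun ξ : ℝ => if 0 < ξ then -I else if ξ < 0 then I else 0 := by
    funext ξ
    rcases lt_trichotomy ξ 0 with h | h | h
    · rw [sym_neg h, if_neg (not_lt.2 h.le), if_pos h]
    · simp [h, sym_zero]
    · rw [sym_pos h, if_pos h]
  rw [this]
  refine Measurable.ite measurableSet_Ioi measurable_const ?_
  exact Measurable.ite measurableSet_Iio measurable_const measurable_const

lemma norm_sym_le (ξ : ℝ) : ‖sym ξ‖ ≤ 1 := by
  rcases lt_trichotomy ξ 0 with h | h | h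
  · simp [sym_neg h]
  · simp [h, sym_zero]
  · simp [sym_pos h]

lemma norm_sym_of_ne {ξ : ℝ} (h : ξ ≠ 0) : ‖sym ξ‖ = 1 := by
  rcases lt_or_gt_of_ne h with h | h
  · simp [sym_neg h]
  · simp [sym_pos h]

lemma sym_flip (ξ : ℝ) : sym (-ξ) = - sym ξ := by
  rcases lt_trichotomy ξ 0 with h | h | h
  · rw [sym_neg h, sym_pos (by linarith)]
  · simp [h, sym_zero]
  · rw [sym_pos h, sym_neg (by linarith), neg_neg]

lemma sym_memLp : MemLp sym ∞ (volume : Measure ℝ) :=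
  memLp_top_of_bound sym_measurable.aestronglyMeasurable 1 (Filter.Eventually.of_forall norm_sym_le)

/-- Fubini for the inverse Fourier transform. -/
lemma integral_fourierInv_mul {f g : ℝ → ℂ} (hf : Integrable f) (hg : Integrable g) :
    ∫ x, (𝓕⁻ f) x * g x = ∫ x, f x * (𝓕⁻ g) x := by
  have := VectorFourier.integral_fourierIntegral_smul_eq_flip (𝕜 := ℝ) (e := Real.fourierChar)
    (μ := (volume : Measure ℝ)) (ν := (volume : Measure ℝ)) (L := -innerₗ ℝ)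
    (f := f) (g := g) Real.continuous_fourierChar (by
      simp only [LinearMap.neg_apply, innerₗ_apply_apply]
      fun_prop) hf hg
  have e1 : ∀ (h : ℝ → ℂ) (x : ℝ), 𝓕⁻ h x
      = VectorFourier.fourierIntegral Real.fourierChar volume (-innerₗ ℝ) h x := by
    intro h x
    rw [Real.fourierInv_eq, VectorFourier.fourierIntegral]
    simp
  have e2 : (-innerₗ ℝ).flip = -innerₗ ℝ := by
    ext
    simp
  rw [e2] at this
  simp only [smul_eq_mul] at this
  simp_rw [e1]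
  exact this

/-- On `L_1 ∩ L_2` the inverse Fourier integral agrees with the `L_2` inverse Fourier transform. -/
lemma fourierInv_toLp {g : ℝ → ℂ} (h1 : Integrable g) (h2 : MemLp g 2 (volume : Measure ℝ)) :
    ((𝓕⁻ (h2.toLp g) : Lp ℂ 2 (volume : Measure ℝ)) : ℝ → ℂ) =ᵐ[volume] 𝓕⁻ g := by
  have hc : Continuous (𝓕⁻ g) := by
    have : (𝓕⁻ g) = fun x => 𝓕 g (-x) := by
      funext x
      rw [Real.fourierInv_eq_fourier_neg]
    rw [this]
    exact (VectorFourier.fourierIntegral_continuous Real.continuous_fourierChar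
      (by exact continuous_inner) h1).comp continuous_neg
  refine ae_eq_of_integral_contDiff_smul_eq ?_ hc.locallyIntegrable ?_
  · exact (Lp.memLp _).locallyIntegrable (by norm_num)
  · intro φ hφ hs
    have hg₁ : HasCompactSupport (Complex.ofRealCLM ∘ φ) := hs.comp_left rfl
    have hg₂ : ContDiff ℝ ((⊤ : ℕ∞) : WithTop ℕ∞) (Complex.ofRealCLM ∘ φ) :=
      Complex.ofRealCLM.contDiff.comp hφ
    set Φ : 𝓢(ℝ, ℂ) := hg₁.toSchwartzMap hg₂ with hΦ
    have hΦx : ∀ x, Φ x = (φ x : ℂ) := fun x => rfl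
    have e0 : ∫ x, φ x • ((𝓕⁻ (h2.toLp g) : Lp ℂ 2 (volume : Measure ℝ)) : ℝ → ℂ) x
      = ∫ x, Φ x • ((𝓕⁻ (h2.toLp g) : Lp ℂ 2 (volume : Measure ℝ)) : ℝ → ℂ) x := by
      congr 1
    have e1 : ∫ x, Φ x • ((𝓕⁻ (h2.toLp g) : Lp ℂ 2 (volume : Measure ℝ)) : ℝ → ℂ) x
        = (𝓕⁻ ((h2.toLp g : Lp ℂ 2 (volume : Measure ℝ)) : 𝓢'(ℝ, ℂ))) Φ := by
      rw [Lp.fourierInv_toTemperedDistribution_eq, Lp.toTemperedDistribution_apply]
    rw [e0, e1, TemperedDistribution.fourierInv_apply, Lp.toTemperedDistribution_apply]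
    have e2 : ∫ x, (𝓕⁻ Φ) x • (h2.toLp g) x = ∫ x, (𝓕⁻ Φ) x • g x := by
      apply integral_congr_ae
      filter_upwards [h2.coeFn_toLp] with x hx
      rw [hx]
    rw [e2]
    have e3 : ∫ x, φ x • (𝓕⁻ g) x = ∫ x, Φ x * (𝓕⁻ g) x := by
      congr 1
    rw [e3, ← integral_fourierInv_mul Φ.integrable h1]
    simp only [smul_eq_mul, SchwartzMap.fourierInv_coe]

lemma fourier_continuous {g : ℝ → ℂ} (h1 : Integrable g) : Continuous (𝓕 g) :=
  VectorFourier.fourierIntegral_continuous Real.continuous_fourierChar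
      (by exact continuous_inner) h1

lemma integral_fourier_mul {f g : ℝ → ℂ} (hf : Integrable f) (hg : Integrable g) :
    ∫ x, (𝓕 f) x * g x = ∫ x, f x * (𝓕 g) x := by
  have := integral_fourierInv_mul hf hg.comp_neg
  have e1 : ∀ x, (𝓕⁻ fun t => g (-t)) x = 𝓕 g x := by
    intro x
    rw [Real.fourierInv_eq, Real.fourier_eq]
    rw [← integral_neg_eq_self]
    simp
  have e2 : ∫ x, (𝓕⁻ f) x * g (-x) = ∫ x, (𝓕 f) x * g x := by
    have := integral_neg_eq_self (fun x => (𝓕⁻ f) x * g (-x)) (volume : Measure ℝ)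
    rw [← this]
    simp [Real.fourierInv_eq_fourier_neg]
  rw [e2] at this
  rw [this]
  simp_rw [e1]

/-- On `L_1 ∩ L_2` the Fourier integral agrees with the `L_2` Fourier transform. -/
lemma fourier_toLp {g : ℝ → ℂ} (h1 : Integrable g) (h2 : MemLp g 2 (volume : Measure ℝ)) :
    ((𝓕 (h2.toLp g) : Lp ℂ 2 (volume : Measure ℝ)) : ℝ → ℂ) =ᵐ[volume] 𝓕 g := by
  have hc : Continuous (𝓕 g) := fourier_continuous h1
  refine ae_eq_of_integral_contDiff_smul_eq ?_ hc.locallyIntegrable ?_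
  · exact (Lp.memLp _).locallyIntegrable (by norm_num)
  · intro φ hφ hs
    have hg₁ : HasCompactSupport (Complex.ofRealCLM ∘ φ) := hs.comp_left rfl
    have hg₂ : ContDiff ℝ ((⊤ : ℕ∞) : WithTop ℕ∞) (Complex.ofRealCLM ∘ φ) :=
      Complex.ofRealCLM.contDiff.comp hφ
    set Φ : 𝓢(ℝ, ℂ) := hg₁.toSchwartzMap hg₂ with hΦ
    have hΦx : ∀ x, Φ x = (φ x : ℂ) := fun x => rfl
    have e0 : ∫ x, φ x • ((𝓕 (h2.toLp g) : Lp ℂ 2 (volume : Measure ℝ)) : ℝ → ℂ) x
      = ∫ x, Φ x • ((𝓕 (h2.toLp g) : Lp ℂ 2 (volume : Measure ℝ)) : ℝ → ℂ) x := by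
      congr 1
    have e1 : ∫ x, Φ x • ((𝓕 (h2.toLp g) : Lp ℂ 2 (volume : Measure ℝ)) : ℝ → ℂ) x
        = (𝓕 ((h2.toLp g : Lp ℂ 2 (volume : Measure ℝ)) : 𝓢'(ℝ, ℂ))) Φ := by
      rw [Lp.fourier_toTemperedDistribution_eq, Lp.toTemperedDistribution_apply]
    rw [e0, e1, TemperedDistribution.fourier_apply, Lp.toTemperedDistribution_apply]
    have e2 : ∫ x, (𝓕 Φ) x • (h2.toLp g) x = ∫ x, (𝓕 Φ) x • g x := by
      apply integral_congr_ae
      filter_upwards [h2.coeFn_toLp] with x hx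
      rw [hx]
    rw [e2]
    have e3 : ∫ x, φ x • (𝓕 g) x = ∫ x, Φ x * (𝓕 g) x := by
      congr 1
    rw [e3, ← integral_fourier_mul Φ.integrable h1]
    simp only [smul_eq_mul, SchwartzMap.fourier_coe]

abbrev L2 := Lp ℂ 2 (volume : Measure ℝ)

/-- multiplication by the symbol -/
def symMul : L2 →L[ℂ] L2 :=
  ContinuousLinearMap.holderL volume ∞ 2 2 (ContinuousLinearMap.mul ℂ ℂ) (sym_memLp.toLp sym)

lemma symMul_coe (f : L2) : (symMul f : ℝ → ℂ) =ᵐ[volume] fun ξ => sym ξ * f ξ := by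
  have := ContinuousLinearMap.coeFn_holder (r := 2) (ContinuousLinearMap.mul ℂ ℂ) (sym_memLp.toLp sym) f
  refine this.trans ?_
  filter_upwards [sym_memLp.coeFn_toLp] with x hx
  simp [hx]

lemma symMul_norm (f : L2) : ‖symMul f‖ ≤ ‖f‖ := by
  apply Lp.norm_le_norm_of_ae_le
  filter_upwards [symMul_coe f] with x hx
  rw [hx, norm_mul]
  calc _ ≤ 1 * ‖f x‖ := by gcongr; exact norm_sym_le x
    _ = _ := one_mul _

/-- The Hilbert transform on `L_2`. -/
def HL : L2 →L[ℂ] L2 :=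
  ((Lp.fourierTransformₗᵢ ℝ ℂ).symm.toContinuousLinearEquiv : L2 →L[ℂ] L2) ∘L symMul ∘L
    ((Lp.fourierTransformₗᵢ ℝ ℂ).toContinuousLinearEquiv : L2 →L[ℂ] L2)

lemma HL_apply (f : L2) : HL f = 𝓕⁻ (symMul (𝓕 f)) := rfl

lemma HL_norm (f : L2) : ‖HL f‖ ≤ ‖f‖ := by
  rw [HL_apply]
  have h1 : ‖(𝓕⁻ (symMul (𝓕 f)) : L2)‖ = ‖symMul (𝓕 f)‖ :=
    (Lp.fourierTransformₗᵢ ℝ ℂ).symm.norm_map _
  rw [h1]
  exact (symMul_norm _).trans (Lp.norm_fourier_eq f).le

/-- If `p ∈ L_1 ∩ L_2` has integrable Fourier transform, its Hilbert transform is given by the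
explicit integral. -/
lemma HL_of_integrable {p : ℝ → ℂ} (h1 : Integrable p) (h2 : MemLp p 2 (volume : Measure ℝ))
    (h3 : Integrable (𝓕 p)) :
    (HL (h2.toLp p) : ℝ → ℂ) =ᵐ[volume] 𝓕⁻ (fun ξ => sym ξ * 𝓕 p ξ) := by
  have e1 := fourier_toLp h1 h2
  have hm : MemLp (𝓕 p) 2 (volume : Measure ℝ) := (memLp_congr_ae e1).1 (Lp.memLp _)
  have hm2 : MemLp (fun ξ => sym ξ * 𝓕 p ξ) 2 (volume : Measure ℝ) := by
    refine hm.of_le ?_ ?_
    · exact sym_measurable.aestronglyMeasurable.mul hm.1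
    · refine Filter.Eventually.of_forall fun ξ => ?_
      rw [norm_mul]
      calc _ ≤ 1 * ‖𝓕 p ξ‖ := by gcongr; exact norm_sym_le ξ
        _ = _ := one_mul _
  have hi2 : Integrable (fun ξ => sym ξ * 𝓕 p ξ) := by
    refine h3.mono ?_ ?_
    · exact sym_measurable.aestronglyMeasurable.mul hm.1
    · refine Filter.Eventually.of_forall fun ξ => ?_
      rw [norm_mul]
      calc _ ≤ 1 * ‖𝓕 p ξ‖ := by gcongr; exact norm_sym_le ξ
        _ = _ := one_mul _
  have e2 : symMul (𝓕 (h2.toLp p)) = hm2.toLp _ := by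
    apply Lp.ext
    filter_upwards [symMul_coe (𝓕 (h2.toLp p)), e1, hm2.coeFn_toLp] with x h1 h2 h3
    rw [h1, h3, h2]
  rw [HL_apply, e2]
  exact fourierInv_toLp hi2 hm2

lemma HL_schwartz (f : 𝓢(ℝ, ℂ)) :
    (HL (f.toLp 2) : ℝ → ℂ) =ᵐ[volume] hilbertT f := by
  have h3 : Integrable (𝓕 (f : ℝ → ℂ)) := by
    rw [← SchwartzMap.fourier_coe]
    exact (𝓕 f).integrable
  exact HL_of_integrable f.integrable (f.memLp 2) h3

end

end Pool.Agent.Helper604.UMD
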