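import Mathlib
import Pool.Agent.Helper604.UMD.Hil

open MeasureTheory FourierTransform SchwartzMap Complex
open scoped ENNReal NNReal Convolution

namespace Pool.Agent.Helper604.UMD

noncomputable section

lemma sym_identity {ξ t : ℝ} (h1 : t ≠ 0) (h2 : ξ - t ≠ 0) :
    sym t * sym (ξ - t) - 1 = sym ξ * (sym (ξ - t) + sym t) := by
  rcases lt_or_gt_of_ne h1 with a | a <;> rcases lt_or_gt_of_ne h2 with b | b
  · rw [sym_neg a, sym_neg b, sym_neg (by linarith)]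
    ring_nf; rw [I_sq]; ring
  · rw [sym_neg a, sym_pos b]
    ring_nf; rw [I_sq]; ring
  · rw [sym_pos a, sym_neg b]
    ring_nf; rw [I_sq]; ring
  · rw [sym_pos a, sym_pos b, sym_pos (by linarith)]
    ring_nf; rw [I_sq]; ring

lemma fourierInv_conv {a b : ℝ → ℂ} (ha : Integrable a) (hb : Integrable b) (x : ℝ) :
    𝓕⁻ (a ⋆[ContinuousLinearMap.mul ℂ ℂ] b) x = 𝓕⁻ a x * 𝓕⁻ b x := by
  rw [Real.fourierInv_eq_fourier_neg, Real.fourier_mul_convolution_eq ha hb,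
    ← Real.fourierInv_eq_fourier_neg, ← Real.fourierInv_eq_fourier_neg]

lemma fourierInv_add {a b : ℝ → ℂ} (ha : Integrable a) (hb : Integrable b) (x : ℝ) :
    𝓕⁻ (fun t => a t + b t) x = 𝓕⁻ a x + 𝓕⁻ b x := by
  simp only [Real.fourierInv_eq]
  rw [← integral_add]
  · simp_rw [smul_add]
  · simpa using (Real.fourierIntegral_convergent_iff (-x)).2 ha
  · simpa using (Real.fourierIntegral_convergent_iff (-x)).2 hb

lemma fourierInv_sub {a b : ℝ → ℂ} (ha : Integrable a) (hb : Integrable b) (x : ℝ) :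
    𝓕⁻ (fun t => a t - b t) x = 𝓕⁻ a x - 𝓕⁻ b x := by
  simp only [Real.fourierInv_eq]
  rw [← integral_sub]
  · simp_rw [smul_sub]
  · simpa using (Real.fourierIntegral_convergent_iff (-x)).2 ha
  · simpa using (Real.fourierIntegral_convergent_iff (-x)).2 hb

lemma fourierInv_continuous {g : ℝ → ℂ} (h1 : Integrable g) : Continuous (𝓕⁻ g) := by
  have : (𝓕⁻ g) = fun x => 𝓕 g (-x) := by
    funext x
    rw [Real.fourierInv_eq_fourier_neg]
  rw [this]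
  exact (fourier_continuous h1).comp continuous_neg

lemma fourierInv_bound {g : ℝ → ℂ} (x : ℝ) : ‖𝓕⁻ g x‖ ≤ ∫ t, ‖g t‖ := by
  rw [Real.fourierInv_eq]
  refine (norm_integral_le_integral_norm _).trans (le_of_eq ?_)
  simp

variable (f₁ f₂ : 𝓢(ℝ, ℂ))

lemma fhat_integrable (f : 𝓢(ℝ, ℂ)) : Integrable (𝓕 (f : ℝ → ℂ)) := by
  rw [← SchwartzMap.fourier_coe]
  exact (𝓕 f).integrable

lemma sfhat_integrable (f : 𝓢(ℝ, ℂ)) : Integrable (fun ξ => sym ξ * 𝓕 (f : ℝ → ℂ) ξ) := by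
  refine (fhat_integrable f).mono (sym_measurable.aestronglyMeasurable.mul (fhat_integrable f).1)
    (Filter.Eventually.of_forall fun ξ => ?_)
  rw [norm_mul]
  calc _ ≤ 1 * ‖𝓕 (f : ℝ → ℂ) ξ‖ := by gcongr; exact norm_sym_le ξ
    _ = _ := one_mul _

lemma hilbertT_continuous (f : 𝓢(ℝ, ℂ)) : Continuous (hilbertT f) :=
  fourierInv_continuous (sfhat_integrable f)

lemma hilbertT_bound (f : 𝓢(ℝ, ℂ)) : ∃ B, ∀ x, ‖hilbertT f x‖ ≤ B :=
  ⟨_, fun x => fourierInv_bound x⟩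

lemma hilbertT_memLp (f : 𝓢(ℝ, ℂ)) : MemLp (hilbertT f) 2 (volume : Measure ℝ) :=
  (memLp_congr_ae (HL_schwartz f)).1 (Lp.memLp _)

lemma conv_bdd {a b : ℝ → ℂ} (ha : Integrable a) (hb : Continuous b) {B : ℝ}
    (hB : ∀ x, ‖b x‖ ≤ B) (c : ℝ → ℂ) (hc : Measurable c) (hc1 : ∀ x, ‖c x‖ ≤ 1) (ξ : ℝ) :
    Integrable (fun t => c t * (a t * b (ξ - t))) := by
  have h1 : Integrable (fun t => a t * b (ξ - t)) := by
    refine ha.mul_bdd (c := B) ?_ ?_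
    · exact (hb.comp (by fun_prop)).aestronglyMeasurable
    · exact Filter.Eventually.of_forall fun t => hB _
  exact h1.bdd_mul hc.aestronglyMeasurable (Filter.Eventually.of_forall hc1)

lemma schw_bound (f : 𝓢(ℝ, ℂ)) : ∃ B, ∀ x, ‖f x‖ ≤ B :=
  ⟨_, fun x => SchwartzMap.norm_le_seminorm ℝ f x⟩

lemma fourierInv_fhat (f : 𝓢(ℝ, ℂ)) : 𝓕⁻ (𝓕 (f : ℝ → ℂ)) = f :=
  f.continuous.fourierInv_fourier_eq f.integrable (fhat_integrable f)

/-- The product appearing in Cotlar's identity. -/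
def prodP (f₁ f₂ : 𝓢(ℝ, ℂ)) (x : ℝ) : ℂ := f₁ x * hilbertT f₂ x + hilbertT f₁ x * f₂ x

lemma mulH_integrable (f g : 𝓢(ℝ, ℂ)) : Integrable (fun x => f x * hilbertT g x) := by
  obtain ⟨B, hB⟩ := hilbertT_bound g
  exact f.integrable.mul_bdd (c := B) (hilbertT_continuous g).aestronglyMeasurable
    (Filter.Eventually.of_forall hB)

lemma mulH_memLp (f g : 𝓢(ℝ, ℂ)) : MemLp (fun x => f x * hilbertT g x) 2 (volume : Measure ℝ) := by
  obtain ⟨B, hB⟩ := hilbertT_bound g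
  refine ((f.memLp 2).const_mul (B : ℂ)).of_le
    (f.continuous.mul (hilbertT_continuous g)).aestronglyMeasurable
    (Filter.Eventually.of_forall fun x => ?_)
  change ‖f x * hilbertT g x‖ ≤ ‖(B : ℂ) * f x‖
  rw [norm_mul, norm_mul]
  have : ‖(B : ℂ)‖ = B := by
    rw [Complex.norm_real, Real.norm_of_nonneg]
    exact (norm_nonneg _).trans (hB 0)
  rw [this, mul_comm]
  gcongr
  exact hB x

lemma prodP_integrable : Integrable (prodP f₁ f₂) := by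
  refine (mulH_integrable f₁ f₂).add ?_
  have := mulH_integrable f₂ f₁
  simpa [mul_comm] using this

lemma prodP_memLp : MemLp (prodP f₁ f₂) 2 (volume : Measure ℝ) := by
  refine (mulH_memLp f₁ f₂).add ?_
  have := mulH_memLp f₂ f₁
  simpa [mul_comm] using this

/-- Cotlar's identity for Schwartz functions. -/
lemma cotlar :
    Integrable (𝓕 (prodP f₁ f₂)) ∧
    (𝓕⁻ (fun ξ => sym ξ * 𝓕 (prodP f₁ f₂) ξ) =
      fun x => hilbertT f₁ x * hilbertT f₂ x - f₁ x * f₂ x) := by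
  set u₁ := 𝓕 (f₁ : ℝ → ℂ) with hu₁
  set u₂ := 𝓕 (f₂ : ℝ → ℂ) with hu₂
  have iu₁ : Integrable u₁ := fhat_integrable f₁
  have iu₂ : Integrable u₂ := fhat_integrable f₂
  have cu₁ : Continuous u₁ := by rw [hu₁, ← SchwartzMap.fourier_coe]; exact (𝓕 f₁).continuous
  have cu₂ : Continuous u₂ := by rw [hu₂, ← SchwartzMap.fourier_coe]; exact (𝓕 f₂).continuous
  obtain ⟨B₁, hB₁⟩ : ∃ B, ∀ x, ‖u₁ x‖ ≤ B := by
    rw [hu₁, ← SchwartzMap.fourier_coe]; exact schw_bound _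
  obtain ⟨B₂, hB₂⟩ : ∃ B, ∀ x, ‖u₂ x‖ ≤ B := by
    rw [hu₂, ← SchwartzMap.fourier_coe]; exact schw_bound _
  set v₁ := fun ξ => sym ξ * u₁ ξ with hv₁
  set v₂ := fun ξ => sym ξ * u₂ ξ with hv₂
  have iv₁ : Integrable v₁ := sfhat_integrable f₁
  have iv₂ : Integrable v₂ := sfhat_integrable f₂
  have hh₁ : hilbertT f₁ = 𝓕⁻ v₁ := rfl
  have hh₂ : hilbertT f₂ = 𝓕⁻ v₂ := rfl
  have hf₁ : (f₁ : ℝ → ℂ) = 𝓕⁻ u₁ := (fourierInv_fhat f₁).symm
  have hf₂ : (f₂ : ℝ → ℂ) = 𝓕⁻ u₂ := (fourierInv_fhat f₂).symm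
  set w := fun ξ => (u₁ ⋆[ContinuousLinearMap.mul ℂ ℂ] v₂) ξ + (v₁ ⋆[ContinuousLinearMap.mul ℂ ℂ] u₂) ξ with hw
  have ic1 : Integrable (u₁ ⋆[ContinuousLinearMap.mul ℂ ℂ] v₂) := iu₁.integrable_convolution _ iv₂
  have ic2 : Integrable (v₁ ⋆[ContinuousLinearMap.mul ℂ ℂ] u₂) := iv₁.integrable_convolution _ iu₂
  have iw : Integrable w := ic1.add ic2
  have cw : Continuous w := by
    refine Continuous.add ?_ ?_
    · refine BddAbove.continuous_convolution_left_of_integrable _ ?_ cu₁ iv₂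
      exact ⟨B₁, by rintro _ ⟨x, rfl⟩; exact hB₁ x⟩
    · refine BddAbove.continuous_convolution_right_of_integrable _ ?_ iv₁ cu₂
      exact ⟨B₂, by rintro _ ⟨x, rfl⟩; exact hB₂ x⟩
  have hp : 𝓕⁻ w = prodP f₁ f₂ := by
    funext x
    rw [hw, fourierInv_add ic1 ic2, fourierInv_conv iu₁ iv₂, fourierInv_conv iv₁ iu₂, ← hf₁, ← hf₂,
      ← hh₁, ← hh₂]
    rfl
  have hw2 : 𝓕 (prodP f₁ f₂) = w := by
    have hiw : Integrable (𝓕 w) := by
      have e : 𝓕 w = fun x => prodP f₁ f₂ (-x) := by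
        funext x
        rw [← hp, Real.fourierInv_eq_fourier_neg, neg_neg]
      rw [e]
      exact (prodP_integrable f₁ f₂).comp_neg
    rw [← hp]
    exact cw.fourier_fourierInv_eq iw hiw
  refine ⟨by rw [hw2]; exact iw, ?_⟩
  have ic3 : Integrable (v₁ ⋆[ContinuousLinearMap.mul ℂ ℂ] v₂) := iv₁.integrable_convolution _ iv₂
  have ic4 : Integrable (u₁ ⋆[ContinuousLinearMap.mul ℂ ℂ] u₂) := iu₁.integrable_convolution _ iu₂
  have key : (fun ξ => sym ξ * 𝓕 (prodP f₁ f₂) ξ) =ᵐ[volume]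
      fun ξ => (v₁ ⋆[ContinuousLinearMap.mul ℂ ℂ] v₂) ξ - (u₁ ⋆[ContinuousLinearMap.mul ℂ ℂ] u₂) ξ := by
    have hne : ∀ᵐ ξ : ℝ, ξ ≠ 0 := by
      rw [ae_iff]; simp
    filter_upwards [hne] with ξ hξ
    rw [hw2, hw]
    simp only [convolution_def, ContinuousLinearMap.mul_apply']
    have j1 := conv_bdd iu₁ cu₂ hB₂ (fun t => sym (ξ - t)) (sym_measurable.comp (by fun_prop))
      (fun t => norm_sym_le _) ξ
    have j2 := conv_bdd iu₁ cu₂ hB₂ (fun t => sym t) sym_measurable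
      (fun t => norm_sym_le _) ξ
    have j3 := conv_bdd iu₁ cu₂ hB₂ (fun t => sym t * sym (ξ - t))
      (sym_measurable.mul (sym_measurable.comp (by fun_prop)))
      (fun t => by
        rw [norm_mul]
        exact mul_le_one₀ (norm_sym_le _) (norm_nonneg _) (norm_sym_le _)) ξ
    have j4 := conv_bdd iu₁ cu₂ hB₂ (fun t => 1) measurable_const (fun t => by simp) ξ
    have k1 : (fun t => u₁ t * v₂ (ξ - t)) = fun t => sym (ξ - t) * (u₁ t * u₂ (ξ - t)) := by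
      funext t; simp only [hv₂]; ring
    have k2 : (fun t => v₁ t * u₂ (ξ - t)) = fun t => sym t * (u₁ t * u₂ (ξ - t)) := by
      funext t; simp only [hv₁]; ring
    have k3 : (fun t => v₁ t * v₂ (ξ - t)) = fun t => sym t * sym (ξ - t) * (u₁ t * u₂ (ξ - t)) := by
      funext t; simp only [hv₁, hv₂]; ring
    have k4 : (fun t => u₁ t * u₂ (ξ - t)) = fun t => 1 * (u₁ t * u₂ (ξ - t)) := by
      funext t; ring
    rw [k1, k2, k3]
    conv_rhs => rw [k4]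
    rw [← integral_add j1 j2, ← integral_sub j3 j4, ← integral_const_mul]
    apply integral_congr_ae
    have hne2 : ∀ᵐ t : ℝ, t ≠ 0 := by
      rw [ae_iff]; simp
    have hne3 : ∀ᵐ t : ℝ, t ≠ ξ := by
      rw [ae_iff]; simp
    filter_upwards [hne2, hne3] with t ht ht2
    have := sym_identity (ξ := ξ) ht (sub_ne_zero.2 (Ne.symm ht2))
    linear_combination (-(u₁ t * u₂ (ξ - t))) * this
  have key2 : 𝓕⁻ (fun ξ => sym ξ * 𝓕 (prodP f₁ f₂) ξ) = 𝓕⁻ (fun ξ => (v₁ ⋆[ContinuousLinearMap.mul ℂ ℂ] v₂) ξ - (u₁ ⋆[ContinuousLinearMap.mul ℂ ℂ] u₂) ξ) := by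
    funext x
    rw [Real.fourierInv_eq, Real.fourierInv_eq]
    apply integral_congr_ae
    filter_upwards [key] with t ht
    rw [ht]
  rw [key2]
  funext x
  rw [fourierInv_sub ic3 ic4, fourierInv_conv iv₁ iv₂, fourierInv_conv iu₁ iu₂, ← hf₁, ← hf₂,
      ← hh₁, ← hh₂]

lemma cotlar_HL :
    (HL ((prodP_memLp f₁ f₂).toLp _) : ℝ → ℂ) =ᵐ[volume]
      fun x => hilbertT f₁ x * hilbertT f₂ x - f₁ x * f₂ x := by
  have h := cotlar f₁ f₂
  rw [← h.2]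
  exact HL_of_integrable (prodP_integrable f₁ f₂) (prodP_memLp f₁ f₂) h.1

end

end Pool.Agent.Helper604.UMD
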