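import Mathlib
import Pool.Agent.Helper604.UMD.Cot

open MeasureTheory FourierTransform SchwartzMap Complex
open scoped ENNReal NNReal Convolution ComplexConjugate

namespace Pool.Agent.Helper604.UMD

noncomputable section

/-- complex conjugate of a Schwartz function -/
def cj (f : 𝓢(ℝ, ℂ)) : 𝓢(ℝ, ℂ) := f.postcompCLM (Complex.conjCLE : ℂ →L[ℝ] ℂ)

lemma cj_apply (f : 𝓢(ℝ, ℂ)) (x : ℝ) : cj f x = conj (f x) := rfl

lemma sym_conj (ξ : ℝ) : conj (sym ξ) = sym (-ξ) := by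
  rw [sym_flip]
  simp [sym]

lemma e_conj (a : ℝ) : conj ((Real.fourierChar a : Circle) : ℂ) = ((Real.fourierChar (-a) : Circle) : ℂ) := by
  rw [AddChar.map_neg_eq_inv, Circle.coe_inv_eq_conj]

lemma hilbertT_cj (f : 𝓢(ℝ, ℂ)) (x : ℝ) : hilbertT (cj f) x = conj (hilbertT f x) := by
  have h1 : ∀ ξ, 𝓕 (cj f : ℝ → ℂ) ξ = conj (𝓕 (f : ℝ → ℂ) (-ξ)) := by
    intro ξ
    rw [Real.fourier_eq, Real.fourier_eq, ← integral_conj]
    congr 1
    funext v
    rw [cj_apply, Circle.smul_def, Circle.smul_def, smul_eq_mul, smul_eq_mul, map_mul, e_conj]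
    simp
  unfold hilbertT
  rw [Real.fourierInv_eq, Real.fourierInv_eq, ← integral_conj]
  have := integral_neg_eq_self (fun v : ℝ => conj (Real.fourierChar (inner ℝ v x) • sym v • 𝓕 (f : ℝ → ℂ) v))
    (volume : Measure ℝ)
  rw [← this]
  congr 1
  funext v
  rw [h1]
  simp only [Circle.smul_def, smul_eq_mul, map_mul, e_conj, sym_conj, neg_neg, inner_neg_left]

lemma prodP_cj_bound (f : 𝓢(ℝ, ℂ)) (x : ℝ) : ‖prodP f (cj f) x‖ ≤ 2 * (‖f x‖ * ‖hilbertT f x‖) := by
  unfold prodP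
  refine (norm_add_le _ _).trans ?_
  rw [norm_mul, norm_mul, hilbertT_cj, cj_apply, RCLike.norm_conj, RCLike.norm_conj]
  linarith [mul_comm ‖hilbertT f x‖ ‖f x‖]

variable {ι : Type*} [Fintype ι]

/-- square function of `f` -/
def sqf (f : ι → ℝ → ℂ) (x : ℝ) : ℝ := ∑ j, ‖f j x‖ ^ 2

lemma sqf_nonneg (f : ι → ℝ → ℂ) (x : ℝ) : 0 ≤ sqf f x := Finset.sum_nonneg fun _ _ => by positivity

lemma memLp_sq_of_bdd {g : ℝ → ℂ} (hg : MemLp g 2 (volume : Measure ℝ)) (hc : Continuous g) {B : ℝ}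
    (hB : ∀ x, ‖g x‖ ≤ B) : MemLp (fun x => ((‖g x‖ ^ 2 : ℝ) : ℂ)) 2 (volume : Measure ℝ) := by
  refine (hg.const_mul (B : ℂ)).of_le (by fun_prop) (Filter.Eventually.of_forall fun x => ?_)
  have hB0 : 0 ≤ B := (norm_nonneg _).trans (hB 0)
  rw [norm_mul, Complex.norm_real, Complex.norm_real, Real.norm_of_nonneg hB0,
    Real.norm_of_nonneg (by positivity), sq]
  gcongr
  exact hB x

lemma memLp_sqf {g : ι → ℝ → ℂ} (hg : ∀ j, MemLp (g j) 2 (volume : Measure ℝ))
    (hc : ∀ j, Continuous (g j)) (hB : ∀ j, ∃ B, ∀ x, ‖g j x‖ ≤ B) :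
    MemLp (fun x => ((sqf g x : ℝ) : ℂ)) 2 (volume : Measure ℝ) := by
  have : (fun x => ((sqf g x : ℝ) : ℂ)) = ∑ j, fun x => ((‖g j x‖ ^ 2 : ℝ) : ℂ) := by
    funext x
    simp [sqf]
  rw [this]
  refine memLp_finsetSum' _ fun j _ => ?_
  obtain ⟨B, hB⟩ := hB j
  exact memLp_sq_of_bdd (hg j) (hc j) hB

/-- norm square of an `L_2` element -/
lemma normsq_L2 {g : ℝ → ℝ} (hg : MemLp (fun x => ((g x : ℝ) : ℂ)) 2 (volume : Measure ℝ)) :
    ‖hg.toLp _‖ ^ 2 = ∫ x, g x ^ 2 := by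
  rw [Lp.norm_toLp]
  have := hg.eLpNorm_eq_integral_rpow_norm (by norm_num) (by norm_num)
  rw [this, ENNReal.toReal_ofReal (by positivity)]
  norm_num
  rw [← Real.sqrt_eq_rpow, Real.sq_sqrt (integral_nonneg fun x => by positivity)]

lemma normsq_L2' (u : L2) : ‖u‖ ^ 2 = ∫ x, ‖u x‖ ^ 2 := by
  rw [Lp.norm_def]
  have := (Lp.memLp u).eLpNorm_eq_integral_rpow_norm (by norm_num) (by norm_num)
  rw [this, ENNReal.toReal_ofReal (by positivity)]
  norm_num
  rw [← Real.sqrt_eq_rpow, Real.sq_sqrt (integral_nonneg fun x => by positivity)]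

lemma integrable_normsq (u : L2) : Integrable (fun x => ‖u x‖ ^ 2) := by
  have := (Lp.memLp u).integrable_norm_rpow (by norm_num) (by norm_num)
  simpa using this

theorem four_schwartz (f : ι → 𝓢(ℝ, ℂ)) :
    ∫ x, (sqf (fun j => hilbertT (f j)) x) ^ 2 ≤ 36 * ∫ x, (sqf (fun j => (f j : ℝ → ℂ)) x) ^ 2 := by
  set a := sqf (fun j => (f j : ℝ → ℂ)) with ha
  set b := sqf (fun j => hilbertT (f j)) with hb
  have hA : MemLp (fun x => ((a x : ℝ) : ℂ)) 2 (volume : Measure ℝ) :=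
    memLp_sqf (fun j => (f j).memLp 2) (fun j => (f j).continuous) (fun j => schw_bound _)
  have hB : MemLp (fun x => ((b x : ℝ) : ℂ)) 2 (volume : Measure ℝ) :=
    memLp_sqf (fun j => hilbertT_memLp _) (fun j => hilbertT_continuous _) (fun j => hilbertT_bound _)
  set A : L2 := hA.toLp _ with hAdef
  set Bb : L2 := hB.toLp _ with hBdef
  set P : L2 := ∑ j, (prodP_memLp (f j) (cj (f j))).toLp _ with hP
  have e1 : Bb - A = HL P := by
    rw [hP, map_sum]
    apply Lp.ext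
    have h1 : (⇑(∑ j, HL ((prodP_memLp (f j) (cj (f j))).toLp _)) : ℝ → ℂ) =ᵐ[volume]
        fun x => ∑ j, (HL ((prodP_memLp (f j) (cj (f j))).toLp _) : ℝ → ℂ) x := by
      refine (Lp.coeFn_finsetSum _ _).trans ?_
      exact Filter.Eventually.of_forall fun x => by simp
    have h2 : ∀ᵐ x, ∀ j, (HL ((prodP_memLp (f j) (cj (f j))).toLp _) : ℝ → ℂ) x
        = hilbertT (f j) x * hilbertT (cj (f j)) x - f j x * cj (f j) x :=
      ae_all_iff.2 fun j => cotlar_HL _ _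
    filter_upwards [Lp.coeFn_sub Bb A, hA.coeFn_toLp, hB.coeFn_toLp, h1, h2] with x k1 k2 k3 k4 k5
    rw [k1, k4, Pi.sub_apply, k2, k3, ha, hb]
    simp only [k5, sqf, hilbertT_cj, cj_apply]
    push_cast
    rw [← Finset.sum_sub_distrib]
    refine Finset.sum_congr rfl fun j _ => ?_
    rw [Complex.mul_conj, Complex.mul_conj, Complex.normSq_eq_norm_sq, Complex.normSq_eq_norm_sq]
    push_cast
    ring
  have hX : ‖Bb‖ ≤ ‖A‖ + ‖P‖ := by
    have : Bb = A + HL P := by rw [← e1]; abel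
    rw [this]
    exact (norm_add_le _ _).trans (by gcongr; exact HL_norm P)
  have iA : Integrable (fun x => a x ^ 2) := by
    refine (integrable_normsq A).congr ?_
    filter_upwards [hA.coeFn_toLp] with x hx
    rw [hAdef, hx, Complex.norm_real, Real.norm_eq_abs, sq_abs]
  have iB : Integrable (fun x => b x ^ 2) := by
    refine (integrable_normsq Bb).congr ?_
    filter_upwards [hB.coeFn_toLp] with x hx
    rw [hBdef, hx, Complex.norm_real, Real.norm_eq_abs, sq_abs]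
  have ma : AEStronglyMeasurable a (volume : Measure ℝ) :=
    (Continuous.aestronglyMeasurable (by
      rw [ha]; unfold sqf
      exact continuous_finset_sum _ fun j _ => ((f j).continuous.norm.pow 2)))
  have mb : AEStronglyMeasurable b (volume : Measure ℝ) :=
    (Continuous.aestronglyMeasurable (by
      rw [hb]; unfold sqf
      exact continuous_finset_sum _ fun j _ => ((hilbertT_continuous (f j)).norm.pow 2)))
  have ha0 : ∀ x, 0 ≤ a x := fun x => sqf_nonneg _ _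
  have hb0 : ∀ x, 0 ≤ b x := fun x => sqf_nonneg _ _
  have iab : Integrable (fun x => a x * b x) := by
    refine ((iA.add iB).div_const 2).mono (ma.mul mb) (Filter.Eventually.of_forall fun x => ?_)
    simp only [Pi.add_apply]
    rw [Real.norm_of_nonneg (mul_nonneg (ha0 x) (hb0 x)), Real.norm_of_nonneg (by positivity)]
    nlinarith [sq_nonneg (a x - b x)]
  have hCS : ∫ x, a x * b x ≤ ‖A‖ * ‖Bb‖ := by
    have h1 : ∀ s : ℝ, 0 < s → ∫ x, a x * b x ≤ (s * ‖A‖ ^ 2 + s⁻¹ * ‖Bb‖ ^ 2) / 2 := by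
      intro s hs
      rw [hAdef, hBdef, normsq_L2 hA, normsq_L2 hB, ← integral_const_mul, ← integral_const_mul,
        ← integral_add (iA.const_mul _) (iB.const_mul _), ← integral_div]
      refine integral_mono iab (((iA.const_mul _).add (iB.const_mul _)).div_const 2) fun x => ?_
      simp only
      have : 0 ≤ (s * a x - b x) ^ 2 / s := by positivity
      have e : (s * a x - b x) ^ 2 / s = s * a x ^ 2 + s⁻¹ * b x ^ 2 - 2 * (a x * b x) := by
        field_simp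
        ring
      rw [e] at this
      linarith
    rcases eq_or_lt_of_le (norm_nonneg A) with hA0 | hA0
    · rw [← hA0, zero_mul]
      by_contra hcon
      push Not at hcon
      have := h1 ((‖Bb‖ ^ 2 + 1) / (∫ x, a x * b x)) (by positivity)
      rw [← hA0] at this
      have h3 : ((‖Bb‖ ^ 2 + 1) / (∫ x, a x * b x))⁻¹ * ‖Bb‖ ^ 2 ≤ ∫ x, a x * b x := by
        rw [inv_div, div_mul_eq_mul_div, div_le_iff₀ (by positivity)]
        nlinarith
      nlinarith
    rcases eq_or_lt_of_le (norm_nonneg Bb) with hB0 | hB0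
    · rw [← hB0, mul_zero]
      by_contra hcon
      push Not at hcon
      have := h1 ((∫ x, a x * b x) / (‖A‖ ^ 2)) (by positivity)
      rw [← hB0] at this
      have h3 : (∫ x, a x * b x) / (‖A‖ ^ 2) * ‖A‖ ^ 2 = ∫ x, a x * b x := by
        field_simp
      nlinarith
    have := h1 (‖Bb‖ / ‖A‖) (by positivity)
    refine this.trans (le_of_eq ?_)
    field_simp
    ring
  have hPsq : ‖P‖ ^ 2 ≤ 4 * ∫ x, a x * b x := by
    rw [normsq_L2', ← integral_const_mul]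
    refine integral_mono_ae (integrable_normsq P) (iab.const_mul 4) ?_
    have h1 : (⇑(∑ j, ((prodP_memLp (f j) (cj (f j))).toLp _ : L2)) : ℝ → ℂ) =ᵐ[volume]
        fun x => ∑ j, (((prodP_memLp (f j) (cj (f j))).toLp _ : L2) : ℝ → ℂ) x := by
      refine (Lp.coeFn_finsetSum _ _).trans ?_
      exact Filter.Eventually.of_forall fun x => by simp
    have h2 : ∀ᵐ x, ∀ j, (((prodP_memLp (f j) (cj (f j))).toLp _ : L2) : ℝ → ℂ) x
        = prodP (f j) (cj (f j)) x :=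
      ae_all_iff.2 fun j => (prodP_memLp _ _).coeFn_toLp
    filter_upwards [h1, h2] with x k1 k2
    rw [hP, k1]
    simp only [k2]
    have h3 : ‖∑ j, prodP (f j) (cj (f j)) x‖ ≤ 2 * ∑ j, ‖f j x‖ * ‖hilbertT (f j) x‖ := by
      refine (norm_sum_le _ _).trans ?_
      rw [Finset.mul_sum]
      exact Finset.sum_le_sum fun j _ => prodP_cj_bound _ _
    have h4 : (∑ j, ‖f j x‖ * ‖hilbertT (f j) x‖) ^ 2 ≤ a x * b x :=
      Finset.sum_mul_sq_le_sq_mul_sq _ _ _
    have h5 : 0 ≤ ∑ j, ‖f j x‖ * ‖hilbertT (f j) x‖ :=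
      Finset.sum_nonneg fun j _ => by positivity
    calc _ ≤ (2 * ∑ j, ‖f j x‖ * ‖hilbertT (f j) x‖) ^ 2 := by gcongr
      _ = 4 * (∑ j, ‖f j x‖ * ‖hilbertT (f j) x‖) ^ 2 := by ring
      _ ≤ _ := by gcongr
  have h1 := normsq_L2 hB
  have h2 := normsq_L2 hA
  rw [← h1, ← h2, ← hAdef, ← hBdef]
  have hA0 := norm_nonneg A
  have hB0 := norm_nonneg Bb
  have hP0 := norm_nonneg P
  have h6 : ‖P‖ ^ 2 ≤ 4 * (‖A‖ * ‖Bb‖) := hPsq.trans (by linarith)
  have h7 : ‖Bb‖ ≤ 6 * ‖A‖ := by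
    by_contra hcon
    push Not at hcon
    have h8 : (‖Bb‖ - ‖A‖) ^ 2 ≤ 4 * (‖A‖ * ‖Bb‖) := by
      refine le_trans ?_ h6
      have : 0 ≤ ‖Bb‖ - ‖A‖ := by linarith
      gcongr
      linarith
    nlinarith
  calc ‖Bb‖ ^ 2 ≤ (6 * ‖A‖) ^ 2 := by gcongr
    _ = _ := by ring

end

end Pool.Agent.Helper604.UMD
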