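import Mathlib
import Pool.Agent.Helper604.UMD.Four

open MeasureTheory FourierTransform SchwartzMap Complex Filter Topology
open scoped ENNReal NNReal Convolution ComplexConjugate

namespace Pool.Agent.Helper604.UMD

noncomputable section

variable {ι : Type*} [Fintype ι]

/-- fourth power of the `L_4(ℓ_2)` norm -/
def Q (u : ι → ℝ → ℂ) : ℝ≥0∞ := ∫⁻ x, ENNReal.ofReal ((sqf u x) ^ 2)

lemma Q_congr {u v : ι → ℝ → ℂ} (h : ∀ j, u j =ᵐ[volume] v j) : Q u = Q v := by
  unfold Q
  apply lintegral_congr_ae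
  filter_upwards [ae_all_iff.2 h] with x hx
  simp [sqf, hx]

lemma continuous_pt : Continuous (fun z : ι → ℂ => ENNReal.ofReal ((∑ j, ‖z j‖ ^ 2) ^ 2)) := by
  refine ENNReal.continuous_ofReal.comp ?_
  fun_prop

lemma tendsto_vec {w : ℕ → ι → L2} {w' : ι → L2} (h : ∀ j, Tendsto (fun m => w m j) atTop (𝓝 (w' j))) :
    ∃ ns : ℕ → ℕ, StrictMono ns ∧ ∀ᵐ x : ℝ, Tendsto (fun i => fun j => w (ns i) j x) atTop (𝓝 (fun j => w' j x)) := by
  have hm : ∀ m, AEStronglyMeasurable (fun x : ℝ => fun j => w m j x) volume := by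
    intro m
    refine AEMeasurable.aestronglyMeasurable ?_
    rw [aemeasurable_pi_iff]
    intro j
    exact (Lp.memLp (w m j)).1.aemeasurable
  have hm' : AEStronglyMeasurable (fun x : ℝ => fun j => w' j x) volume := by
    refine AEMeasurable.aestronglyMeasurable ?_
    rw [aemeasurable_pi_iff]
    intro j
    exact (Lp.memLp (w' j)).1.aemeasurable
  have key : TendstoInMeasure volume (fun m => fun x : ℝ => fun j => w m j x) atTop
      (fun x : ℝ => fun j => w' j x) := by
    refine tendstoInMeasure_of_tendsto_eLpNorm (p := 2) (by norm_num) hm hm' ?_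
    have h1 : ∀ m, eLpNorm ((fun x : ℝ => fun j => w m j x) - (fun x : ℝ => fun j => w' j x)) 2 volume
        ≤ ∑ j, eLpNorm ((w m j : ℝ → ℂ) - (w' j : ℝ → ℂ)) 2 volume := by
      intro m
      have h2 : eLpNorm ((fun x : ℝ => fun j => w m j x) - (fun x : ℝ => fun j => w' j x)) 2 volume
          ≤ eLpNorm (∑ j, fun x : ℝ => ‖w m j x - w' j x‖) 2 volume := by
        refine eLpNorm_mono fun x => ?_
        rw [pi_norm_le_iff_of_nonneg (norm_nonneg _)]
        intro j
        simp only [Pi.sub_apply, Finset.sum_apply]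
        rw [Real.norm_of_nonneg (Finset.sum_nonneg fun _ _ => norm_nonneg _)]
        exact Finset.single_le_sum (f := fun j => ‖w m j x - w' j x‖) (fun _ _ => norm_nonneg _)
          (Finset.mem_univ j)
      refine h2.trans ((eLpNorm_sum_le (fun j _ => ?_) (by norm_num)).trans ?_)
      · exact ((Lp.memLp (w m j)).1.sub (Lp.memLp (w' j)).1).norm
      · refine Finset.sum_le_sum fun j _ => ?_
        refine le_of_eq ?_
        exact eLpNorm_norm ((w m j : ℝ → ℂ) - (w' j : ℝ → ℂ))
    have h3 : Tendsto (fun m => ∑ j, eLpNorm ((w m j : ℝ → ℂ) - (w' j : ℝ → ℂ)) 2 volume) atTop (𝓝 0) := by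
      have : (0 : ℝ≥0∞) = ∑ j : ι, 0 := by simp
      rw [this]
      refine tendsto_finsetSum _ fun j _ => ?_
      exact (Lp.tendsto_Lp_iff_tendsto_eLpNorm' _ _).1 (h j)
    exact tendsto_of_tendsto_of_tendsto_of_le_of_le tendsto_const_nhds h3 (fun _ => zero_le) h1
  exact key.exists_seq_tendsto_ae

lemma lscQ {w : ℕ → ι → L2} {w' : ι → L2} (h : ∀ j, Tendsto (fun m => w m j) atTop (𝓝 (w' j)))
    {K : ℝ≥0∞} (hK : ∀ᶠ m in atTop, Q (fun j => (w m j : ℝ → ℂ)) ≤ K) :
    Q (fun j => (w' j : ℝ → ℂ)) ≤ K := by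
  obtain ⟨ns, hns, hae⟩ := tendsto_vec h
  have h1 : Q (fun j => (w' j : ℝ → ℂ)) = ∫⁻ x, liminf (fun i => ENNReal.ofReal ((sqf (fun j => (w (ns i) j : ℝ → ℂ)) x) ^ 2)) atTop := by
    unfold Q
    apply lintegral_congr_ae
    filter_upwards [hae] with x hx
    exact ((continuous_pt.tendsto _).comp hx).liminf_eq.symm
  rw [h1]
  refine (lintegral_liminf_le' fun i => ?_).trans ?_
  · have : AEMeasurable (fun x : ℝ => fun j => (w (ns i) j : ℝ → ℂ) x) volume := by
      rw [aemeasurable_pi_iff]
      intro j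
      exact (Lp.memLp (w (ns i) j)).1.aemeasurable
    exact continuous_pt.measurable.comp_aemeasurable this
  · refine liminf_le_of_frequently_le' ?_
    exact (hns.tendsto_atTop.eventually hK).frequently

/-- bump functions shrinking to zero -/
def bmp (m : ℕ) : ContDiffBump (0 : ℝ) where
  rIn := 1 / (2 * (m + 1))
  rOut := 1 / (m + 1)
  rIn_pos := by positivity
  rIn_lt_rOut := by
    apply one_div_lt_one_div_of_lt
    · positivity
    · have : (0 : ℝ) ≤ m := Nat.cast_nonneg m
      linarith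

lemma moll {g : ℝ → ℂ} (hg : Measurable g) {B R : ℝ} (hB : ∀ x, ‖g x‖ ≤ B)
    (hR : ∀ x, R < |x| → g x = 0) :
    ∃ f : ℕ → 𝓢(ℝ, ℂ), (∀ m x, ‖f m x‖ ≤ B) ∧ (∀ m x, R + 1 < |x| → f m x = 0) ∧
      ∀ᵐ x : ℝ, Tendsto (fun m => f m x) atTop (𝓝 (g x)) := by
  have hB0 : 0 ≤ B := (norm_nonneg _).trans (hB 0)
  have hcs : HasCompactSupport g := by
    refine HasCompactSupport.of_support_subset_isCompact (isCompact_Icc (a := -|R|) (b := |R|)) ?_
    intro x hx
    rw [Function.mem_support] at hx
    have : ¬ (R < |x|) := fun h => hx (hR x h)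
    push Not at this
    have h2 : |x| ≤ |R| := this.trans (le_abs_self R)
    exact abs_le.1 h2
  have hint : Integrable g := by
    have h1 : Integrable ((Set.Icc (-|R|) |R|).indicator g) := by
      rw [integrable_indicator_iff measurableSet_Icc]
      refine Measure.integrableOn_of_bounded (M := B) ?_ hg.aestronglyMeasurable
        (Eventually.of_forall fun x => hB x)
      simp
    refine h1.congr (Eventually.of_forall fun x => ?_)
    by_cases hx : x ∈ Set.Icc (-|R|) |R|
    · simp [Set.indicator_of_mem hx]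
    · rw [Set.indicator_of_notMem hx]
      symm
      apply hR
      by_contra hcon
      push Not at hcon
      exact hx (abs_le.1 (hcon.trans (le_abs_self R)))
  have hloc : LocallyIntegrable g volume := hint.locallyIntegrable
  set c : ℕ → ℝ → ℂ := fun m => ((bmp m).normed volume ⋆[ContinuousLinearMap.lsmul ℝ ℝ, volume] g) with hc
  have hcd : ∀ m, ContDiff ℝ ((⊤ : ℕ∞) : WithTop ℕ∞) (c m) := fun m =>
    (bmp m).hasCompactSupport_normed.contDiff_convolution_left _ (bmp m).contDiff_normed hloc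
  have hcc : ∀ m, HasCompactSupport (c m) := fun m =>
    (bmp m).hasCompactSupport_normed.convolution _ hcs
  refine ⟨fun m => (hcc m).toSchwartzMap (hcd m), ?_, ?_, ?_⟩
  · intro m x
    change ‖c m x‖ ≤ B
    rw [hc]
    simp only [convolution_def, ContinuousLinearMap.lsmul_apply]
    have h1 : ‖∫ t, (bmp m).normed volume t • g (x - t)‖ ≤ ∫ t, (bmp m).normed volume t * B := by
      refine norm_integral_le_of_norm_le ((bmp m).integrable_normed.mul_const B) ?_
      refine Eventually.of_forall fun t => ?_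
      rw [norm_smul, Real.norm_of_nonneg ((bmp m).nonneg_normed t)]
      exact mul_le_mul_of_nonneg_left (hB _) ((bmp m).nonneg_normed t)
    refine h1.trans (le_of_eq ?_)
    rw [integral_mul_const, (bmp m).integral_normed, one_mul]
  · intro m x hx
    change c m x = 0
    rw [hc]
    simp only [convolution_def, ContinuousLinearMap.lsmul_apply]
    have : ∀ t, (bmp m).normed volume t • g (x - t) = 0 := by
      intro t
      by_cases ht : (bmp m).normed volume t = 0
      · rw [ht, zero_smul]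
      · have h2 : t ∈ Function.support ((bmp m).normed volume) := ht
        rw [(bmp m).support_normed_eq] at h2
        have h3 : |t| < 1 := by
          rw [Metric.mem_ball, dist_zero_right, Real.norm_eq_abs] at h2
          refine h2.trans_le ?_
          change (1 : ℝ) / (m + 1) ≤ 1
          rw [div_le_one (by positivity)]
          have : (0 : ℝ) ≤ m := Nat.cast_nonneg m
          linarith
        have h4 : R < |x - t| := by
          have := abs_sub_abs_le_abs_sub x t
          linarith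
        rw [hR _ h4, smul_zero]
    simp [this]
  · refine ContDiffBump.ae_convolution_tendsto_right_of_locallyIntegrable (K := 2) ?_ ?_ hloc
    · change Tendsto (fun m : ℕ => (1 : ℝ) / (m + 1)) atTop (𝓝 0)
      exact tendsto_one_div_add_atTop_nhds_zero_nat
    · refine Eventually.of_forall fun m => ?_
      change (1 : ℝ) / (m + 1) ≤ 2 * (1 / (2 * (m + 1)))
      apply le_of_eq
      field_simp

lemma tendsto_L2_dom {F : ℕ → ℝ → ℂ} {g : ℝ → ℂ} {b : ℝ → ℝ} (hb : MemLp b 2 (volume : Measure ℝ))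
    (hF : ∀ m, MemLp (F m) 2 (volume : Measure ℝ)) (hg : MemLp g 2 (volume : Measure ℝ))
    (hFb : ∀ m x, ‖F m x‖ ≤ b x) (h : ∀ᵐ x : ℝ, Tendsto (fun m => F m x) atTop (𝓝 (g x))) :
    Tendsto (fun m => ((hF m).toLp _ : L2)) atTop (𝓝 (hg.toLp _)) := by
  rw [Lp.tendsto_Lp_iff_tendsto_eLpNorm'']
  have e : ∀ m, eLpNorm (F m - g) 2 volume = (∫⁻ x, ‖F m x - g x‖ₑ ^ (2 : ℝ)) ^ ((1 : ℝ) / 2) := by
    intro m
    rw [eLpNorm_eq_lintegral_rpow_enorm_toReal (by norm_num) (by norm_num)]
    simp
  simp_rw [e]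
  have h0 : (0 : ℝ≥0∞) = (∫⁻ x : ℝ, (0 : ℝ≥0∞)) ^ ((1 : ℝ) / 2) := by simp
  rw [h0]
  refine (ENNReal.continuous_rpow_const.tendsto _).comp ?_
  refine tendsto_lintegral_of_dominated_convergence' (fun x => ‖2 * b x‖ₑ ^ (2 : ℝ)) ?_ ?_ ?_ ?_
  · intro m
    exact ((hF m).1.sub hg.1).enorm.pow_const _
  · intro m
    filter_upwards [h] with x hx
    gcongr
    rw [enorm_le_iff_norm_le]
    have h1 : ‖g x‖ ≤ b x := le_of_tendsto hx.norm (Eventually.of_forall fun m => hFb m x)
    have h2 := hFb m x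
    have h3 : 0 ≤ b x := (norm_nonneg _).trans h1
    rw [Real.norm_of_nonneg (by positivity)]
    exact (norm_sub_le _ _).trans (by linarith)
  · have := (hb.const_mul 2).eLpNorm_lt_top
    rw [eLpNorm_eq_lintegral_rpow_enorm_toReal (by norm_num) (by norm_num)] at this
    intro hcon
    simp only [ENNReal.toReal_ofNat] at this
    rw [hcon] at this
    simp at this
  · filter_upwards [h] with x hx
    have h1 : Tendsto (fun m => F m x - g x) atTop (𝓝 0) := by
      simpa using hx.sub_const (g x)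
    have h2 := (h1.enorm)
    have h3 := (ENNReal.continuous_rpow_const (y := (2 : ℝ))).tendsto ‖(0 : ℂ)‖ₑ
    have h4 := h3.comp h2
    simp only [Function.comp_def] at h4
    simpa using h4

lemma four_schwartz_Q (f : ι → 𝓢(ℝ, ℂ)) :
    Q (fun j => (HL ((f j).toLp 2) : ℝ → ℂ)) ≤ 36 * Q (fun j => (f j : ℝ → ℂ)) := by
  have h0 : Q (fun j => (HL ((f j).toLp 2) : ℝ → ℂ)) = Q (fun j => hilbertT (f j)) :=
    Q_congr fun j => HL_schwartz (f j)
  rw [h0]
  have i1 : Integrable (fun x => (sqf (fun j => hilbertT (f j)) x) ^ 2) := by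
    have hB : MemLp (fun x => ((sqf (fun j => hilbertT (f j)) x : ℝ) : ℂ)) 2 (volume : Measure ℝ) :=
      memLp_sqf (fun j => hilbertT_memLp _) (fun j => hilbertT_continuous _) (fun j => hilbertT_bound _)
    refine (integrable_normsq (hB.toLp _)).congr ?_
    filter_upwards [hB.coeFn_toLp] with x hx
    rw [hx, Complex.norm_real, Real.norm_eq_abs, sq_abs]
  have i2 : Integrable (fun x => (sqf (fun j => (f j : ℝ → ℂ)) x) ^ 2) := by
    have hA : MemLp (fun x => ((sqf (fun j => (f j : ℝ → ℂ)) x : ℝ) : ℂ)) 2 (volume : Measure ℝ) :=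
      memLp_sqf (fun j => (f j).memLp 2) (fun j => (f j).continuous) (fun j => schw_bound _)
    refine (integrable_normsq (hA.toLp _)).congr ?_
    filter_upwards [hA.coeFn_toLp] with x hx
    rw [hx, Complex.norm_real, Real.norm_eq_abs, sq_abs]
  unfold Q
  rw [← ofReal_integral_eq_lintegral_ofReal i1 (Eventually.of_forall fun x => by positivity),
    ← ofReal_integral_eq_lintegral_ofReal i2 (Eventually.of_forall fun x => by positivity)]
  have : (36 : ℝ≥0∞) = ENNReal.ofReal 36 := by norm_num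
  rw [this, ← ENNReal.ofReal_mul (by norm_num)]
  exact ENNReal.ofReal_le_ofReal (four_schwartz f)

lemma memLp_of_bdd_supp {g : ℝ → ℂ} (hg : Measurable g) {B R : ℝ} (hB : ∀ x, ‖g x‖ ≤ B)
    (hR : ∀ x, R < |x| → g x = 0) : MemLp g 2 (volume : Measure ℝ) := by
  have h1 : MemLp ((Set.Icc (-R) R).indicator fun _ : ℝ => B) 2 (volume : Measure ℝ) :=
    memLp_indicator_const 2 measurableSet_Icc B (Or.inr (by simp))
  refine h1.of_le hg.aestronglyMeasurable (Eventually.of_forall fun x => ?_)
  by_cases hx : x ∈ Set.Icc (-R) R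
  · rw [Set.indicator_of_mem hx]
    exact (hB x).trans (le_abs_self B)
  · rw [hR x, norm_zero]
    · positivity
    · by_contra hcon
      push Not at hcon
      exact hx (abs_le.1 hcon)

lemma four_bdd {g : ι → ℝ → ℂ} (hg : ∀ j, Measurable (g j)) {B R : ℝ} (hB : ∀ j x, ‖g j x‖ ≤ B)
    (hR : ∀ j x, R < |x| → g j x = 0) (hm : ∀ j, MemLp (g j) 2 (volume : Measure ℝ)) :
    Q (fun j => (HL ((hm j).toLp _) : ℝ → ℂ)) ≤ 36 * Q g := by
  choose f hf1 hf2 hf3 using fun j => moll (hg j) (hB j) (hR j)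
  have hb : MemLp ((Set.Icc (-(R + 1)) (R + 1)).indicator fun _ : ℝ => |B|) 2 (volume : Measure ℝ) :=
    memLp_indicator_const 2 measurableSet_Icc _ (Or.inr (by simp))
  have hbd : ∀ j m x, ‖f j m x‖ ≤ (Set.Icc (-(R + 1)) (R + 1)).indicator (fun _ : ℝ => |B|) x := by
    intro j m x
    by_cases hx : x ∈ Set.Icc (-(R + 1)) (R + 1)
    · rw [Set.indicator_of_mem hx]
      exact (hf1 j m x).trans (le_abs_self B)
    · rw [hf2 j m x, norm_zero, Set.indicator_of_notMem hx]
      by_contra hcon
      push Not at hcon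
      exact hx (abs_le.1 hcon)
  have hL2 : ∀ j, Tendsto (fun m => (((f j m).memLp 2 (μ := volume)).toLp _ : L2)) atTop (𝓝 ((hm j).toLp _)) :=
    fun j => tendsto_L2_dom hb _ _ (hbd j) (hf3 j)
  have hL2' : ∀ j, Tendsto (fun m => HL (((f j m).memLp 2 (μ := volume)).toLp _ : L2)) atTop (𝓝 (HL ((hm j).toLp _))) :=
    fun j => (HL.continuous.tendsto _).comp (hL2 j)
  have hQ : Tendsto (fun m => Q (fun j => (f j m : ℝ → ℂ))) atTop (𝓝 (Q g)) := by
    unfold Q
    refine tendsto_lintegral_of_dominated_convergence'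
      (fun x => ENNReal.ofReal ((∑ _j : ι, ((Set.Icc (-(R + 1)) (R + 1)).indicator (fun _ : ℝ => |B|) x) ^ 2) ^ 2)) ?_ ?_ ?_ ?_
    · intro m
      refine AEMeasurable.ennreal_ofReal ?_
      refine Continuous.aemeasurable ?_
      unfold sqf
      have : ∀ j, Continuous (f j m) := fun j => (f j m).continuous
      fun_prop
    · intro m
      refine Eventually.of_forall fun x => ENNReal.ofReal_le_ofReal ?_
      unfold sqf
      have h1 : ∀ j, ‖f j m x‖ ≤ _ := fun j => hbd j m x
      gcongr with j _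
      exact h1 j
    · have e : (fun x => ENNReal.ofReal ((∑ _j : ι, ((Set.Icc (-(R + 1)) (R + 1)).indicator (fun _ : ℝ => |B|) x) ^ 2) ^ 2))
          = (Set.Icc (-(R + 1)) (R + 1)).indicator (fun _ : ℝ => ENNReal.ofReal ((∑ _j : ι, |B| ^ 2) ^ 2)) := by
        funext x
        by_cases hx : x ∈ Set.Icc (-(R + 1)) (R + 1)
        · simp only [Set.indicator_of_mem hx]
        · simp only [Set.indicator_of_notMem hx]
          simp
      rw [e, lintegral_indicator measurableSet_Icc]
      simp [ENNReal.mul_eq_top]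
    · filter_upwards [ae_all_iff.2 hf3] with x hx
      have h1 : Tendsto (fun m => fun j => f j m x) atTop (𝓝 (fun j => g j x)) :=
        tendsto_pi_nhds.2 hx
      exact (continuous_pt.tendsto _).comp h1
  by_cases htop : Q g = ∞
  · rw [htop]
    simp
  refine le_of_forall_gt fun K hK => ?_
  have hK' : Q g < K / 36 := by
    rw [ENNReal.lt_div_iff_mul_lt (by norm_num) (by norm_num), mul_comm]
    exact hK
  obtain ⟨K', hK1, hK2⟩ := exists_between hK'
  have h36 : 36 * K' < K := by
    rw [ENNReal.lt_div_iff_mul_lt (by norm_num) (by norm_num), mul_comm] at hK2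
    exact hK2
  refine lt_of_le_of_lt ?_ h36
  refine lscQ hL2' ?_
  filter_upwards [hQ.eventually (gt_mem_nhds hK1)] with m hm
  refine (four_schwartz_Q fun j => f j m).trans ?_
  gcongr

lemma four_L2 (u : ι → L2) :
    Q (fun j => (HL (u j) : ℝ → ℂ)) ≤ 36 * Q (fun j => (u j : ℝ → ℂ)) := by
  classical
  have hum : ∀ j, Measurable (u j : ℝ → ℂ) := fun j => (Lp.stronglyMeasurable (u j)).measurable
  set g : ℕ → ι → ℝ → ℂ := fun m j x => if |x| ≤ m ∧ ‖u j x‖ ≤ m then u j x else 0 with hg
  have hgm : ∀ m j, Measurable (g m j) := by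
    intro m j
    refine Measurable.ite ?_ (hum j) measurable_const
    exact (measurableSet_le (continuous_abs.measurable (α := ℝ)) measurable_const).inter
      (measurableSet_le (hum j).norm measurable_const)
  have hgB : ∀ (m : ℕ) j x, ‖g m j x‖ ≤ (m : ℝ) := by
    intro m j x
    simp only [hg]
    split_ifs with h
    · exact h.2
    · simp
  have hgR : ∀ (m : ℕ) j x, (m : ℝ) < |x| → g m j x = 0 := by
    intro m j x hx
    simp only [hg]
    rw [if_neg]
    rintro ⟨h, _⟩
    exact absurd h (not_le.2 hx)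
  have hgu : ∀ m j x, ‖g m j x‖ ≤ ‖u j x‖ := by
    intro m j x
    simp only [hg]
    split_ifs with h
    · exact le_rfl
    · simp
  have hmem : ∀ m j, MemLp (g m j) 2 (volume : Measure ℝ) := fun m j =>
    memLp_of_bdd_supp (hgm m j) (hgB m j) (hgR m j)
  have hlim : ∀ j, Tendsto (fun m => ((hmem m j).toLp _ : L2)) atTop (𝓝 (u j)) := by
    intro j
    have h1 := tendsto_L2_dom (b := fun x => ‖u j x‖) (Lp.memLp (u j)).norm (fun m => hmem m j) (Lp.memLp (u j))
      (fun m x => hgu m j x) (Eventually.of_forall fun x => by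
        refine tendsto_const_nhds.congr' ?_
        obtain ⟨N, hN⟩ := exists_nat_ge (max |x| ‖u j x‖)
        filter_upwards [eventually_ge_atTop N] with m hm
        simp only [hg]
        have hmN : (N : ℝ) ≤ m := by exact_mod_cast hm
        rw [if_pos ⟨(le_max_left _ _).trans (hN.trans hmN), (le_max_right _ _).trans (hN.trans hmN)⟩])
    rwa [Lp.toLp_coeFn] at h1
  refine lscQ (fun j => (HL.continuous.tendsto _).comp (hlim j)) (Eventually.of_forall fun m => ?_)
  refine (four_bdd (hgm m) (hgB m) (hgR m) (hmem m)).trans ?_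
  gcongr
  unfold Q sqf
  refine lintegral_mono fun x => ENNReal.ofReal_le_ofReal ?_
  gcongr with j _
  exact hgu m j x

end

end Pool.Agent.Helper604.UMD
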