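import Mathlib
import Pool.Agent.Helper604.UMD.Hil
import Pool.Agent.Helper604.UMD.Contr

open MeasureTheory FourierTransform SchwartzMap Complex Filter Topology Set
open scoped ENNReal NNReal ComplexConjugate

namespace Pool.Agent.Helper604.UMD

noncomputable section

/-- the symbol of the averaged resolvent, its primitive form -/
def mm (η : ℝ) : ℂ := (1 + 2 * Real.pi * I * η)⁻¹

/-- derivative of `mm` -/
def mm' (η : ℝ) : ℂ := -(2 * Real.pi * I) * ((1 + 2 * Real.pi * I * η) ^ 2)⁻¹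

lemma one_add_ne (η : ℝ) : (1 + 2 * Real.pi * I * η : ℂ) ≠ 0 := by
  intro h
  have := congrArg Complex.re h
  simp at this

lemma mm_hasDeriv (η : ℝ) : HasDerivAt mm (mm' η) η := by
  have h1 : HasDerivAt (fun z : ℂ => (1 + 2 * Real.pi * I * z : ℂ)) (2 * Real.pi * I) (η : ℂ) := by
    simpa using ((hasDerivAt_id (η : ℂ)).const_mul (2 * Real.pi * I : ℂ)).const_add 1
  have h2 := (h1.inv (one_add_ne η)).comp_ofReal
  convert! h2 using 1

lemma normSq_one_add (η : ℝ) : ‖(1 + 2 * Real.pi * I * η : ℂ)‖ ^ 2 = 1 + (2 * Real.pi * η) ^ 2 := by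
  rw [← Complex.normSq_eq_norm_sq, Complex.normSq_apply]
  simp
  ring

lemma norm_mm' (η : ℝ) : ‖mm' η‖ = 2 * Real.pi * (1 + (2 * Real.pi * η) ^ 2)⁻¹ := by
  rw [mm', norm_mul, norm_inv, norm_pow, normSq_one_add]
  congr 1
  simp [abs_of_pos Real.pi_pos]

lemma integrable_norm_mm' : Integrable (fun η => ‖mm' η‖) := by
  simp_rw [norm_mm']
  exact (integrable_inv_one_add_sq.comp_mul_left' (R := 2 * Real.pi) (by positivity)).const_mul _

lemma mm'_continuous : Continuous mm' := by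
  unfold mm'
  refine continuous_const.mul (Continuous.inv₀ (by fun_prop) fun η => pow_ne_zero 2 (one_add_ne η))

lemma integrable_mm' : Integrable mm' :=
  (integrable_norm_iff mm'_continuous.aestronglyMeasurable).1 integrable_norm_mm'

lemma integral_norm_mm' : ∫ η, ‖mm' η‖ = Real.pi := by
  simp_rw [norm_mm']
  rw [integral_const_mul, Measure.integral_comp_mul_left (fun u => (1 + u ^ 2)⁻¹) (2 * Real.pi),
    integral_univ_inv_one_add_sq, abs_of_pos (by positivity), smul_eq_mul]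
  field_simp

lemma mm_tendsto : Tendsto mm (cocompact ℝ) (𝓝 0) := by
  rw [tendsto_zero_iff_norm_tendsto_zero]
  have h1 : ∀ᶠ η in cocompact ℝ, ‖mm η‖ ≤ ‖η‖⁻¹ := by
    filter_upwards [(isCompact_singleton (x := (0 : ℝ))).compl_mem_cocompact] with η h
    rw [mm, norm_inv]
    · have h2 : ‖η‖ ^ 2 ≤ ‖(1 + 2 * Real.pi * I * η : ℂ)‖ ^ 2 := by
        rw [normSq_one_add, Real.norm_eq_abs, sq_abs]
        have hpi := Real.pi_gt_three
        nlinarith [sq_nonneg η, mul_nonneg (sq_nonneg η) (show 0 ≤ (2 * Real.pi) ^ 2 - 1 by nlinarith)]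
      have h3 : ‖η‖ ≤ ‖(1 + 2 * Real.pi * I * η : ℂ)‖ := by
        exact (pow_le_pow_iff_left₀ (norm_nonneg _) (norm_nonneg _) (by norm_num)).1 h2
      have : 0 < ‖η‖ := norm_pos_iff.2 h
      gcongr
  refine squeeze_zero' (Eventually.of_forall fun _ => norm_nonneg _) h1 ?_
  exact tendsto_inv_atTop_zero.comp tendsto_norm_cocompact_atTop

lemma integral_sym_mm' (ξ : ℝ) : ∫ η, (I * sym (ξ - η)) * mm' η = 2 * mm ξ := by
  have hbot : Tendsto mm atBot (𝓝 0) := mm_tendsto.mono_left atBot_le_cocompact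
  have htop : Tendsto mm atTop (𝓝 0) := mm_tendsto.mono_left atTop_le_cocompact
  have h1 := integral_Iic_of_hasDerivAt_of_tendsto' (a := ξ) (fun x _ => mm_hasDeriv x)
    integrable_mm'.integrableOn hbot
  have h2 := integral_Ioi_of_hasDerivAt_of_tendsto' (a := ξ) (fun x _ => mm_hasDeriv x)
    integrable_mm'.integrableOn htop
  have hint : Integrable (fun η => (I * sym (ξ - η)) * mm' η) := by
    refine integrable_mm'.bdd_mul (c := 1) ?_ (Eventually.of_forall fun η => ?_)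
    · exact (measurable_const.mul (sym_measurable.comp (by fun_prop))).aestronglyMeasurable
    · rw [norm_mul, Complex.norm_I, one_mul]
      exact norm_sym_le _
  rw [← integral_add_compl (measurableSet_Iic (a := ξ)) hint, compl_Iic]
  have e1 : ∫ η in Iic ξ, (I * sym (ξ - η)) * mm' η = ∫ η in Iic ξ, mm' η := by
    rw [integral_Iic_eq_integral_Iio, integral_Iic_eq_integral_Iio]
    refine setIntegral_congr_fun measurableSet_Iio fun η hη => ?_
    have : 0 < ξ - η := sub_pos.2 hη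
    simp only [sym_pos this]
    rw [mul_neg, I_mul_I, neg_neg, one_mul]
  have e2 : ∫ η in Ioi ξ, (I * sym (ξ - η)) * mm' η = - ∫ η in Ioi ξ, mm' η := by
    rw [← integral_neg]
    refine setIntegral_congr_fun measurableSet_Ioi fun η hη => ?_
    have : ξ - η < 0 := sub_neg.2 hη
    simp only [sym_neg this]
    rw [I_mul_I, neg_one_mul]
  rw [e1, e2, h1, h2]
  ring

variable {Y : Type*} [NormedAddCommGroup Y] [NormedSpace ℂ Y]

/-- modulation of a Schwartz function -/
def md (a : ℝ) (f : 𝓢(ℝ, Y)) : 𝓢(ℝ, Y) := 𝓕⁻ (SchwartzMap.compSubConstCLM ℂ a (𝓕 f))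

lemma fhat_integrableY (f : 𝓢(ℝ, Y)) : Integrable (𝓕 (f : ℝ → Y)) := by
  rw [← SchwartzMap.fourier_coe]
  exact (𝓕 f).integrable

/-- shifted half-line multiplier applied to `f` -/
def gk (a : ℝ) (f : 𝓢(ℝ, Y)) (x : ℝ) : Y :=
  ∫ ξ, Real.fourierChar (ξ * x) • (sym (ξ - a) • 𝓕 (f : ℝ → Y) ξ)

/-- averaged resolvent kernel -/
def Kf (lam : ℝ) (f : ℝ → Y) (x : ℝ) : Y := ∫ t in Ioi (0 : ℝ), (lam * Real.exp (-(lam * t))) • f (x - t)

variable [CompleteSpace Y]

lemma md_fourier (a : ℝ) (f : 𝓢(ℝ, Y)) (ξ : ℝ) : 𝓕 (md a f : ℝ → Y) ξ = 𝓕 (f : ℝ → Y) (ξ - a) := by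
  rw [← SchwartzMap.fourier_coe, md]
  rw [FourierTransform.fourier_fourierInv_eq]
  rw [← SchwartzMap.fourier_coe]
  rfl

lemma inv_fhat (f : 𝓢(ℝ, Y)) (x : ℝ) : f x = ∫ ξ, Real.fourierChar (ξ * x) • 𝓕 (f : ℝ → Y) ξ := by
  have h1 : f x = (𝓕⁻ (𝓕 f)) x := by rw [FourierTransform.fourierInv_fourier_eq]
  rw [h1, SchwartzMap.fourierInv_coe, Real.fourierInv_eq]
  congr 1
  funext v
  rw [SchwartzMap.fourier_coe]
  simp [mul_comm]

lemma md_apply (a : ℝ) (f : 𝓢(ℝ, Y)) (x : ℝ) : md a f x = Real.fourierChar (a * x) • f x := by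
  rw [inv_fhat (md a f) x, inv_fhat f x]
  simp_rw [md_fourier]
  simp only [Circle.smul_def]
  rw [← integral_add_right_eq_self _ a, ← integral_smul]
  congr 1
  funext ξ
  rw [add_sub_cancel_right, smul_smul, ← Circle.coe_mul, ← AddChar.map_add_eq_mul]
  congr 3
  ring

lemma gk_eq (a : ℝ) (f : 𝓢(ℝ, Y)) (x : ℝ) :
    gk a f x = Real.fourierChar (a * x) • hilbertT (md (-a) f) x := by
  unfold gk hilbertT
  simp only [Real.fourierInv_eq, Circle.smul_def]
  rw [← integral_add_right_eq_self _ a, ← integral_smul]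
  congr 1
  funext ξ
  have e : (ξ + a) * x = a * x + inner ℝ ξ x := by
    simp
    ring
  rw [md_fourier, add_sub_cancel_right, e, AddChar.map_add_eq_mul, Circle.coe_mul, mul_smul, sub_neg_eq_add]

omit [CompleteSpace Y] in
lemma norm_e_smul (c : ℝ) (y : Y) : ‖Real.fourierChar c • y‖ = ‖y‖ := by
  rw [Circle.smul_def, norm_smul]
  simp

lemma sym_scale {lam : ℝ} (hl : 0 < lam) (ξ η : ℝ) : sym (ξ / lam - η) = sym (ξ - lam * η) := by
  have e : ξ - lam * η = lam * (ξ / lam - η) := by field_simp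
  rw [e]
  rcases lt_trichotomy (ξ / lam - η) 0 with h | h | h
  · rw [sym_neg h, sym_neg (mul_neg_of_pos_of_neg hl h)]
  · rw [h, mul_zero]
  · rw [sym_pos h, sym_pos (mul_pos hl h)]

omit [CompleteSpace Y] in
lemma laplace_e {lam : ℝ} (hl : 0 < lam) (ξ : ℝ) :
    ∫ t in Ioi (0 : ℝ), ((lam * Real.exp (-(lam * t)) : ℝ) : ℂ) * ((Real.fourierChar (-(ξ * t)) : Circle) : ℂ) = mm (ξ / lam) := by
  have hre : (-(lam + 2 * Real.pi * I * ξ) : ℂ).re < 0 := by simp [hl]
  have h1 := integral_exp_mul_complex_Ioi hre 0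
  have h2 : ∀ t : ℝ, ((lam * Real.exp (-(lam * t)) : ℝ) : ℂ) * ((Real.fourierChar (-(ξ * t)) : Circle) : ℂ)
      = lam * cexp (-(lam + 2 * Real.pi * I * ξ) * t) := by
    intro t
    rw [Real.fourierChar_apply]
    push_cast
    rw [mul_assoc, ← Complex.exp_add]
    congr 2
    ring
  simp_rw [h2]
  rw [integral_const_mul, h1, mm]
  have hl' : (lam : ℂ) ≠ 0 := by exact_mod_cast hl.ne'
  have hne : (lam + 2 * Real.pi * I * ξ : ℂ) ≠ 0 := by
    intro h
    rw [h] at hre
    simp at hre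
  have hne2 : (1 + 2 * Real.pi * I * ((ξ / lam : ℝ) : ℂ) : ℂ) ≠ 0 := one_add_ne _
  simp only [Complex.ofReal_zero, mul_zero, Complex.exp_zero]
  push_cast at hne2 ⊢
  field_simp

lemma Kf_fourier {lam : ℝ} (hl : 0 < lam) (f : 𝓢(ℝ, Y)) (x : ℝ) :
    Kf lam f x = ∫ ξ, ((Real.fourierChar (ξ * x) : Circle) : ℂ) • (mm (ξ / lam) • 𝓕 (f : ℝ → Y) ξ) := by
  have hexp : Integrable (fun t : ℝ => lam * Real.exp (-(lam * t))) (volume.restrict (Ioi 0)) := by
    have := (exp_neg_integrableOn_Ioi 0 hl).const_mul lam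
    simpa [neg_mul] using this
  have hF : Integrable (fun p : ℝ × ℝ => (lam * Real.exp (-(lam * p.1))) • (((Real.fourierChar (p.2 * (x - p.1)) : Circle) : ℂ) • 𝓕 (f : ℝ → Y) p.2))
      ((volume.restrict (Ioi 0)).prod volume) := by
    have h1 := hexp.mul_prod (fhat_integrableY f).norm
    have hc : Continuous (𝓕 (f : ℝ → Y)) := by rw [← SchwartzMap.fourier_coe]; exact (𝓕 f).continuous
    refine h1.mono ?_ (Eventually.of_forall fun p => ?_)
    · refine Continuous.aestronglyMeasurable ?_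
      have h2 : Continuous (fun p : ℝ × ℝ => ((Real.fourierChar (p.2 * (x - p.1)) : Circle) : ℂ)) :=
        continuous_subtype_val.comp (Real.continuous_fourierChar.comp (by fun_prop))
      fun_prop
    · rw [norm_smul, norm_smul, norm_mul, norm_mul, norm_norm]
      simp
  have e1 : Kf lam f x = ∫ t in Ioi (0 : ℝ), ∫ ξ, (lam * Real.exp (-(lam * t))) • (((Real.fourierChar (ξ * (x - t)) : Circle) : ℂ) • 𝓕 (f : ℝ → Y) ξ) := by
    unfold Kf
    congr 1
    funext t
    rw [inv_fhat f (x - t), ← integral_smul]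
    rfl
  rw [e1, integral_integral_swap hF]
  congr 1
  funext ξ
  have e2 : ∀ t : ℝ, (lam * Real.exp (-(lam * t))) • (((Real.fourierChar (ξ * (x - t)) : Circle) : ℂ) • 𝓕 (f : ℝ → Y) ξ)
      = (((lam * Real.exp (-(lam * t)) : ℝ) : ℂ) * ((Real.fourierChar (-(ξ * t)) : Circle) : ℂ)) •
        (((Real.fourierChar (ξ * x) : Circle) : ℂ) • 𝓕 (f : ℝ → Y) ξ) := by
    intro t
    have : ξ * (x - t) = -(ξ * t) + ξ * x := by ring
    rw [this, AddChar.map_add_eq_mul, Circle.coe_mul, ← Complex.coe_smul, smul_smul, smul_smul]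
    congr 1
    ring
  simp_rw [e2]
  rw [integral_smul_const, laplace_e hl, smul_smul, smul_smul, mul_comm]

lemma Kf_gk {lam : ℝ} (hl : 0 < lam) (f : 𝓢(ℝ, Y)) (x : ℝ) :
    Kf lam f x = ∫ η, ((1 / 2 : ℂ) * I * mm' η) • gk (lam * η) f x := by
  rw [Kf_fourier hl]
  have hF : Integrable (fun p : ℝ × ℝ => ((1 / 2 : ℂ) * I * mm' p.2 * sym (p.1 - lam * p.2)) • (((Real.fourierChar (p.1 * x) : Circle) : ℂ) • 𝓕 (f : ℝ → Y) p.1))
      (volume.prod volume) := by
    have h1 := (fhat_integrableY f).norm.mul_prod integrable_norm_mm'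
    have hc : Continuous (𝓕 (f : ℝ → Y)) := by rw [← SchwartzMap.fourier_coe]; exact (𝓕 f).continuous
    refine h1.mono ?_ (Eventually.of_forall fun p => ?_)
    · have h2 : Continuous (fun p : ℝ × ℝ => ((Real.fourierChar (p.1 * x) : Circle) : ℂ)) :=
        continuous_subtype_val.comp (Real.continuous_fourierChar.comp (by fun_prop))
      refine AEStronglyMeasurable.smul ?_ ?_
      · refine Measurable.aestronglyMeasurable ?_
        refine Measurable.mul ?_ (sym_measurable.comp (by fun_prop))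
        exact measurable_const.mul (mm'_continuous.measurable.comp measurable_snd)
      · exact (h2.smul (hc.comp continuous_fst)).aestronglyMeasurable
    · rw [norm_smul, norm_smul, norm_mul, norm_mul, norm_mul, norm_mul, norm_norm, norm_norm]
      simp only [Complex.norm_I, Circle.norm_coe, one_mul, mul_one]
      have h3 := norm_sym_le (p.1 - lam * p.2)
      have h4 : ‖(1 / 2 : ℂ)‖ = 1 / 2 := by norm_num
      rw [h4]
      have n1 := norm_nonneg (mm' p.2)
      have n2 := norm_nonneg (𝓕 (f : ℝ → Y) p.1)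
      have n3 := norm_nonneg (sym (p.1 - lam * p.2))
      calc 1 / 2 * ‖mm' p.2‖ * ‖sym (p.1 - lam * p.2)‖ * ‖𝓕 (f : ℝ → Y) p.1‖
          ≤ 1 * ‖mm' p.2‖ * 1 * ‖𝓕 (f : ℝ → Y) p.1‖ := by gcongr; norm_num
        _ = _ := by ring
  have e1 : ∀ ξ : ℝ, ((Real.fourierChar (ξ * x) : Circle) : ℂ) • (mm (ξ / lam) • 𝓕 (f : ℝ → Y) ξ)
      = ∫ η, ((1 / 2 : ℂ) * I * mm' η * sym (ξ - lam * η)) • (((Real.fourierChar (ξ * x) : Circle) : ℂ) • 𝓕 (f : ℝ → Y) ξ) := by
    intro ξ
    rw [integral_smul_const]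
    have h1 : ∫ η, (1 / 2 : ℂ) * I * mm' η * sym (ξ - lam * η) = mm (ξ / lam) := by
      have h2 := integral_sym_mm' (ξ / lam)
      have h3 : ∀ η, (1 / 2 : ℂ) * I * mm' η * sym (ξ - lam * η) = (1 / 2 : ℂ) * ((I * sym (ξ / lam - η)) * mm' η) := by
        intro η
        rw [sym_scale hl]
        ring
      simp_rw [h3]
      rw [integral_const_mul, h2]
      ring
    rw [h1, smul_smul, smul_smul, mul_comm]
  simp_rw [e1]
  rw [integral_integral_swap hF]
  congr 1
  funext η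
  unfold gk
  rw [← integral_smul]
  congr 1
  funext ξ
  rw [Circle.smul_def, smul_smul, smul_smul, smul_smul]
  congr 1
  ring

end

end Pool.Agent.Helper604.UMD
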