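import Mathlib
import Pool.Agent.Helper604.UMD.Rb

open MeasureTheory FourierTransform SchwartzMap Complex Filter Topology Set
open scoped ENNReal NNReal ComplexConjugate

namespace Pool.Agent.Helper604.UMD

noncomputable section

variable {Y : Type*} [NormedAddCommGroup Y] [NormedSpace ℂ Y]
variable {ι : Type*} [Fintype ι] [DecidableEq ι]

/-- extended-real version of `rad` -/
def erad (y : ι → Y) : ℝ≥0∞ := ∑ ω : ι → Bool, ‖∑ k, (sg (ω k) : ℂ) • y k‖ₑ ^ 2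

lemma erad_eq (y : ι → Y) : erad y = ENNReal.ofReal (rad y) := by
  unfold erad rad
  rw [ENNReal.ofReal_sum_of_nonneg fun _ _ => by positivity]
  refine Finset.sum_congr rfl fun ω _ => ?_
  rw [← ofReal_norm, ENNReal.ofReal_pow (norm_nonneg _)]

lemma erad_complex (y : ι → Y) {c : ι → ℂ} (hc : ∀ k, ‖c k‖ ≤ 1) :
    erad (fun k => c k • y k) ≤ 4 * erad y := by
  rw [erad_eq, erad_eq]
  have : (4 : ℝ≥0∞) = ENNReal.ofReal 4 := by norm_num
  rw [this, ← ENNReal.ofReal_mul (by norm_num)]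
  exact ENNReal.ofReal_le_ofReal (rad_complex y hc)

lemma cs_weight {w g : ℝ → ℝ≥0∞} (hw : AEMeasurable w volume) (hg : AEMeasurable g volume) :
    (∫⁻ x, w x * g x) ^ 2 ≤ (∫⁻ x, w x) * ∫⁻ x, w x * g x ^ 2 := by
  have h := ENNReal.lintegral_mul_le_Lp_mul_Lq (volume : Measure ℝ) (p := 2) (q := 2)
    (by rw [Real.holderConjugate_iff]; norm_num)
    (f := fun x => w x ^ ((1 : ℝ) / 2)) (g := fun x => w x ^ ((1 : ℝ) / 2) * g x)
    (hw.pow_const _) ((hw.pow_const _).mul hg)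
  have hww : ∀ x, w x ^ ((1 : ℝ) / 2) * (w x ^ ((1 : ℝ) / 2)) = w x := by
    intro x
    rw [← ENNReal.rpow_add_of_nonneg _ _ (by norm_num) (by norm_num)]
    norm_num
  have e1 : ∫⁻ x, w x * g x = ∫⁻ x, ((fun x => w x ^ ((1 : ℝ) / 2)) * (fun x => w x ^ ((1 : ℝ) / 2) * g x)) x := by
    congr 1
    funext x
    simp only [Pi.mul_apply]
    rw [← mul_assoc, hww]
  have e2 : ∀ x, (w x ^ ((1 : ℝ) / 2)) ^ (2 : ℝ) = w x := by
    intro x
    rw [← ENNReal.rpow_mul]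
    norm_num
  have e3 : ∀ x, (w x ^ ((1 : ℝ) / 2) * g x) ^ (2 : ℝ) = w x * g x ^ 2 := by
    intro x
    rw [ENNReal.mul_rpow_of_nonneg _ _ (by norm_num), e2]
    norm_num
  rw [e1]
  simp_rw [e2, e3] at h
  calc _ ≤ ((∫⁻ x, w x) ^ ((1 : ℝ) / 2) * (∫⁻ x, w x * g x ^ 2) ^ ((1 : ℝ) / 2)) ^ 2 := by gcongr
    _ = _ := by
      rw [mul_pow, ← ENNReal.rpow_natCast, ← ENNReal.rpow_natCast, ← ENNReal.rpow_mul, ← ENNReal.rpow_mul]
      norm_num

lemma lintegral_enorm_mm' : ∫⁻ η, ‖mm' η‖ₑ = ENNReal.ofReal Real.pi := by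
  rw [← integral_norm_mm', ofReal_integral_norm_eq_lintegral_enorm integrable_mm']

lemma gk_bound (a : ℝ) (f : 𝓢(ℝ, Y)) (x : ℝ) : ‖gk a f x‖ ≤ ∫ ξ, ‖𝓕 (f : ℝ → Y) ξ‖ := by
  unfold gk
  refine (norm_integral_le_integral_norm _).trans ?_
  refine integral_mono_of_nonneg (Eventually.of_forall fun _ => norm_nonneg _) (fhat_integrableY f).norm
    (Eventually.of_forall fun ξ => ?_)
  simp only
  rw [norm_e_smul, norm_smul]
  calc _ ≤ 1 * ‖𝓕 (f : ℝ → Y) ξ‖ := by gcongr; exact norm_sym_le _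
    _ = _ := one_mul _

lemma gk_stronglyMeasurable (f : 𝓢(ℝ, Y)) :
    StronglyMeasurable (fun p : ℝ × ℝ => gk p.1 f p.2) := by
  have hc : Continuous (𝓕 (f : ℝ → Y)) := by rw [← SchwartzMap.fourier_coe]; exact (𝓕 f).continuous
  have h : StronglyMeasurable (fun q : (ℝ × ℝ) × ℝ =>
      Real.fourierChar (q.2 * q.1.2) • (sym (q.2 - q.1.1) • 𝓕 (f : ℝ → Y) q.2)) := by
    have h1 : Continuous (fun q : (ℝ × ℝ) × ℝ => ((Real.fourierChar (q.2 * q.1.2) : Circle) : ℂ)) :=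
      continuous_subtype_val.comp (Real.continuous_fourierChar.comp (by fun_prop))
    have h2 : Measurable (fun q : (ℝ × ℝ) × ℝ => sym (q.2 - q.1.1)) := sym_measurable.comp (by fun_prop)
    simp only [Circle.smul_def]
    exact h1.stronglyMeasurable.smul (h2.stronglyMeasurable.smul (hc.comp continuous_snd).stronglyMeasurable)
  exact h.integral_prod_right

variable [CompleteSpace Y]

lemma erad_Kf_le {lam : ι → ℝ} (hl : ∀ k, 0 < lam k) (f : ι → 𝓢(ℝ, Y)) (x : ℝ) :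
    erad (fun k => Kf (lam k) (f k) x) ≤
      ENNReal.ofReal Real.pi * ∫⁻ η, ‖mm' η‖ₑ * erad (fun k => gk (lam k * η) (f k) x) := by
  have hmeas : ∀ k, StronglyMeasurable (fun η => gk (lam k * η) (f k) x) := fun k =>
    (gk_stronglyMeasurable (f k)).comp_measurable (g := fun η : ℝ => (lam k * η, x)) (by fun_prop)
  have hint : ∀ k, Integrable (fun η => ((1 / 2 : ℂ) * I * mm' η) • gk (lam k * η) (f k) x) := by
    intro k
    have h1 : Integrable (fun η => (1 / 2 : ℂ) * I * mm' η) := integrable_mm'.const_mul _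
    exact h1.smul_bdd (∫ ξ, ‖𝓕 ((f k) : ℝ → Y) ξ‖) (hmeas k).aestronglyMeasurable
      (Eventually.of_forall fun η => gk_bound _ _ _)
  unfold erad
  have hω : ∀ ω : ι → Bool, ‖∑ k, (sg (ω k) : ℂ) • Kf (lam k) (f k) x‖ₑ ^ 2 ≤
      ENNReal.ofReal Real.pi * ∫⁻ η, ‖mm' η‖ₑ * ‖∑ k, (sg (ω k) : ℂ) • gk (lam k * η) (f k) x‖ₑ ^ 2 := by
    intro ω
    have e1 : ∑ k, (sg (ω k) : ℂ) • Kf (lam k) (f k) x =
        ∫ η, ((1 / 2 : ℂ) * I * mm' η) • ∑ k, (sg (ω k) : ℂ) • gk (lam k * η) (f k) x := by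
      have e2 : ∀ η, ((1 / 2 : ℂ) * I * mm' η) • ∑ k, (sg (ω k) : ℂ) • gk (lam k * η) (f k) x
          = ∑ k, (sg (ω k) : ℂ) • (((1 / 2 : ℂ) * I * mm' η) • gk (lam k * η) (f k) x) := by
        intro η
        rw [Finset.smul_sum]
        refine Finset.sum_congr rfl fun k _ => ?_
        rw [smul_comm]
      simp_rw [e2]
      have hint' : ∀ k ∈ (Finset.univ : Finset ι), Integrable (fun η => (sg (ω k) : ℂ) • (((1 / 2 : ℂ) * I * mm' η) • gk (lam k * η) (f k) x)) :=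
        fun k _ => (hint k).smul _
      rw [integral_finsetSum _ hint']
      refine Finset.sum_congr rfl fun k _ => ?_
      rw [integral_smul, Kf_gk (hl k)]
    have hS : AEMeasurable (fun η => ‖∑ k, (sg (ω k) : ℂ) • gk (lam k * η) (f k) x‖ₑ) volume := by
      refine AEStronglyMeasurable.enorm ?_
      refine StronglyMeasurable.aestronglyMeasurable ?_
      exact Finset.stronglyMeasurable_fun_sum _ fun k _ => (hmeas k).const_smul _
    have h1 : ‖∑ k, (sg (ω k) : ℂ) • Kf (lam k) (f k) x‖ₑ ≤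
        ∫⁻ η, ‖mm' η‖ₑ * ‖∑ k, (sg (ω k) : ℂ) • gk (lam k * η) (f k) x‖ₑ := by
      rw [e1]
      refine (enorm_integral_le_lintegral_enorm _).trans (lintegral_mono fun η => ?_)
      rw [enorm_smul]
      gcongr
      rw [enorm_le_iff_norm_le, norm_mul, norm_mul, Complex.norm_I]
      have : ‖(1 / 2 : ℂ)‖ = 1 / 2 := by norm_num
      rw [this]
      nlinarith [norm_nonneg (mm' η)]
    calc _ ≤ (∫⁻ η, ‖mm' η‖ₑ * ‖∑ k, (sg (ω k) : ℂ) • gk (lam k * η) (f k) x‖ₑ) ^ 2 := by gcongr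
      _ ≤ (∫⁻ η, ‖mm' η‖ₑ) * ∫⁻ η, ‖mm' η‖ₑ * ‖∑ k, (sg (ω k) : ℂ) • gk (lam k * η) (f k) x‖ₑ ^ 2 :=
          cs_weight (mm'_continuous.aestronglyMeasurable.enorm) hS
      _ = _ := by rw [lintegral_enorm_mm']
  calc _ ≤ ∑ ω : ι → Bool, ENNReal.ofReal Real.pi * ∫⁻ η, ‖mm' η‖ₑ * ‖∑ k, (sg (ω k) : ℂ) • gk (lam k * η) (f k) x‖ₑ ^ 2 :=
        Finset.sum_le_sum fun ω _ => hω ω
    _ = _ := by
      rw [← Finset.mul_sum, ← lintegral_finsetSum']
      · simp_rw [Finset.mul_sum]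
      · intro ω _
        refine AEMeasurable.mul mm'_continuous.aestronglyMeasurable.enorm ?_
        refine AEMeasurable.pow_const ?_ 2
        refine AEStronglyMeasurable.enorm ?_
        refine StronglyMeasurable.aestronglyMeasurable ?_
        exact Finset.stronglyMeasurable_fun_sum _ fun k _ => (hmeas k).const_smul _

end

end Pool.Agent.Helper604.UMD
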