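import Mathlib
import Pool.Agent.Helper604.UMD.Rb2

open MeasureTheory FourierTransform SchwartzMap Complex Filter Topology Set
open scoped ENNReal NNReal ComplexConjugate

namespace Pool.Agent.Helper604.UMD

noncomputable section

variable {Y : Type*} [NormedAddCommGroup Y] [NormedSpace ℂ Y] [CompleteSpace Y]
variable {ι : Type*} [Fintype ι] [DecidableEq ι]

omit [CompleteSpace Y] in
lemma sum_apply_schwartz (c : ι → ℂ) (f : ι → 𝓢(ℝ, Y)) (x : ℝ) :
    (∑ k, c k • f k) x = ∑ k, c k • f k x := by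
  rw [SchwartzMap.sum_apply]
  rfl

omit [CompleteSpace Y] in
lemma fourier_sum (c : ι → ℂ) (f : ι → 𝓢(ℝ, Y)) (ξ : ℝ) :
    𝓕 ((∑ k, c k • f k : 𝓢(ℝ, Y)) : ℝ → Y) ξ = ∑ k, c k • 𝓕 ((f k) : ℝ → Y) ξ := by
  have h1 : 𝓕 (∑ k, c k • f k) = ∑ k, c k • 𝓕 (f k) := by
    have h2 := map_sum (FourierTransform.fourierCLM ℂ 𝓢(ℝ, Y)) (fun k => c k • f k) Finset.univ
    simp only [map_smul] at h2
    exact h2
  rw [← SchwartzMap.fourier_coe, h1, sum_apply_schwartz]
  simp_rw [SchwartzMap.fourier_coe]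

omit [CompleteSpace Y] in
lemma hilbertT_sum (c : ι → ℂ) (f : ι → 𝓢(ℝ, Y)) (x : ℝ) :
    hilbertT (∑ k, c k • f k) x = ∑ k, c k • hilbertT (f k) x := by
  unfold hilbertT
  simp only [Real.fourierInv_eq, Circle.smul_def]
  simp_rw [fourier_sum, ← integral_smul]
  rw [← integral_finsetSum]
  · congr 1
    funext ξ
    rw [Finset.smul_sum, Finset.smul_sum]
    refine Finset.sum_congr rfl fun k _ => ?_
    rw [smul_smul, smul_smul, smul_smul, smul_smul]
    congr 1
    ring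
  · intro k _
    refine Integrable.smul _ ?_
    have h1 := fhat_integrableY (f k)
    refine h1.norm.mono' ?_ (Eventually.of_forall fun ξ => ?_)
    · refine AEStronglyMeasurable.smul ?_ (AEStronglyMeasurable.smul sym_measurable.aestronglyMeasurable h1.aestronglyMeasurable)
      exact (continuous_subtype_val.comp (Real.continuous_fourierChar.comp (by fun_prop))).aestronglyMeasurable
    · rw [norm_smul, norm_smul, Circle.norm_coe, one_mul]
      calc _ ≤ 1 * ‖𝓕 ((f k) : ℝ → Y) ξ‖ := by gcongr; exact norm_sym_le _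
        _ = _ := one_mul _

omit [CompleteSpace Y] in
lemma eLp2 (g : ℝ → Y) : eLpNorm g 2 volume ^ 2 = ∫⁻ x, ‖g x‖ₑ ^ 2 := by
  rw [eLpNorm_eq_lintegral_rpow_enorm_toReal (by norm_num) (by norm_num)]
  simp only [ENNReal.toReal_ofNat]
  rw [← ENNReal.rpow_natCast, ← ENNReal.rpow_mul]
  norm_num

lemma erad_gk_int {C : ℝ≥0} (hC : ∀ f : 𝓢(ℝ, Y), eLpNorm (hilbertT f) 2 volume ≤ C * eLpNorm (f : ℝ → Y) 2 volume)
    (a : ι → ℝ) (f : ι → 𝓢(ℝ, Y)) :
    ∫⁻ x, erad (fun k => gk (a k) (f k) x) ≤ 16 * (C : ℝ≥0∞) ^ 2 * ∫⁻ x, erad (fun k => f k x) := by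
  have h1 : ∀ x, erad (fun k => gk (a k) (f k) x) ≤ 4 * erad (fun k => hilbertT (md (-(a k)) (f k)) x) := by
    intro x
    have e : (fun k => gk (a k) (f k) x) = fun k => ((Real.fourierChar (a k * x) : Circle) : ℂ) • hilbertT (md (-(a k)) (f k)) x := by
      funext k
      rw [gk_eq, Circle.smul_def]
    rw [e]
    exact erad_complex _ fun k => by simp
  have h2 : ∀ x, erad (fun k => md (-(a k)) (f k) x) ≤ 4 * erad (fun k => f k x) := by
    intro x
    have e : (fun k => md (-(a k)) (f k) x) = fun k => ((Real.fourierChar (-(a k) * x) : Circle) : ℂ) • f k x := by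
      funext k
      rw [md_apply, Circle.smul_def]
    rw [e]
    exact erad_complex _ fun k => by simp
  have h3 : ∫⁻ x, erad (fun k => hilbertT (md (-(a k)) (f k)) x) ≤ (C : ℝ≥0∞) ^ 2 * ∫⁻ x, erad (fun k => md (-(a k)) (f k) x) := by
    have e1 : ∀ x, erad (fun k => hilbertT (md (-(a k)) (f k)) x) =
        ∑ ω : ι → Bool, ‖hilbertT (∑ k, (sg (ω k) : ℂ) • md (-(a k)) (f k)) x‖ₑ ^ 2 := by
      intro x
      unfold erad
      simp_rw [hilbertT_sum]
    have e2 : ∀ x, erad (fun k => md (-(a k)) (f k) x) =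
        ∑ ω : ι → Bool, ‖(∑ k, (sg (ω k) : ℂ) • md (-(a k)) (f k)) x‖ₑ ^ 2 := by
      intro x
      unfold erad
      simp_rw [sum_apply_schwartz]
    simp_rw [e1, e2]
    have hm : ∀ g : 𝓢(ℝ, Y), Measurable (fun x => ‖hilbertT g x‖ₑ ^ 2) := by
      intro g
      have : StronglyMeasurable (hilbertT g) := by
        have h := (gk_stronglyMeasurable g).comp_measurable (g := fun x : ℝ => ((0 : ℝ), x)) (by fun_prop)
        have e : (fun x => gk 0 g x) = hilbertT g := by
          funext x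
          unfold gk hilbertT
          rw [Real.fourierInv_eq]
          congr 1
          funext ξ
          rw [sub_zero]
          simp [mul_comm]
        rw [← e]
        exact h
      exact this.enorm.pow_const 2
    rw [lintegral_finsetSum _ fun ω _ => hm _, lintegral_finsetSum _ fun ω _ => by
      exact ((SchwartzMap.continuous _).enorm.measurable).pow_const 2, Finset.mul_sum]
    refine Finset.sum_le_sum fun ω _ => ?_
    rw [← eLp2, ← eLp2, ← mul_pow]
    gcongr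
    exact hC _
  calc _ ≤ ∫⁻ x, 4 * erad (fun k => hilbertT (md (-(a k)) (f k)) x) := lintegral_mono h1
    _ = 4 * ∫⁻ x, erad (fun k => hilbertT (md (-(a k)) (f k)) x) := lintegral_const_mul' _ _ (by norm_num)
    _ ≤ 4 * ((C : ℝ≥0∞) ^ 2 * ∫⁻ x, erad (fun k => md (-(a k)) (f k) x)) := by gcongr
    _ ≤ 4 * ((C : ℝ≥0∞) ^ 2 * ∫⁻ x, 4 * erad (fun k => f k x)) := by
        gcongr with x
        exact h2 x
    _ = 4 * ((C : ℝ≥0∞) ^ 2 * (4 * ∫⁻ x, erad (fun k => f k x))) := by rw [lintegral_const_mul' _ _ (by norm_num)]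
    _ = _ := by ring

omit [CompleteSpace Y] in
lemma erad_gk_measurable (lam : ι → ℝ) (f : ι → 𝓢(ℝ, Y)) :
    Measurable (fun p : ℝ × ℝ => erad (fun k => gk (lam k * p.1) (f k) p.2)) := by
  unfold erad
  refine Finset.measurable_fun_sum _ fun ω _ => ?_
  refine Measurable.pow_const ?_ 2
  refine StronglyMeasurable.enorm ?_
  refine Finset.stronglyMeasurable_fun_sum _ fun k _ => StronglyMeasurable.const_smul ?_ _
  exact (gk_stronglyMeasurable (f k)).comp_measurable (g := fun p : ℝ × ℝ => (lam k * p.1, p.2)) (by fun_prop)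

/-- constant in the averaged resolvent estimate -/
def CR (C : ℝ≥0) : ℝ≥0∞ := ENNReal.ofReal Real.pi ^ 2 * 16 * (C : ℝ≥0∞) ^ 2

lemma CR_ne_top (C : ℝ≥0) : CR C ≠ ∞ := by
  unfold CR
  finiteness

theorem rb_schwartz {C : ℝ≥0} (hC : ∀ f : 𝓢(ℝ, Y), eLpNorm (hilbertT f) 2 volume ≤ C * eLpNorm (f : ℝ → Y) 2 volume)
    {lam : ι → ℝ} (hl : ∀ k, 0 < lam k) (f : ι → 𝓢(ℝ, Y)) :
    ∫⁻ x, erad (fun k => Kf (lam k) (f k) x) ≤ CR C * ∫⁻ x, erad (fun k => f k x) := by
  calc _ ≤ ∫⁻ x, ENNReal.ofReal Real.pi * ∫⁻ η, ‖mm' η‖ₑ * erad (fun k => gk (lam k * η) (f k) x) :=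
        lintegral_mono fun x => erad_Kf_le hl f x
    _ = ENNReal.ofReal Real.pi * ∫⁻ x, ∫⁻ η, ‖mm' η‖ₑ * erad (fun k => gk (lam k * η) (f k) x) :=
        lintegral_const_mul' _ _ (by finiteness)
    _ = ENNReal.ofReal Real.pi * ∫⁻ η, ∫⁻ x, ‖mm' η‖ₑ * erad (fun k => gk (lam k * η) (f k) x) := by
        rw [lintegral_lintegral_swap]
        have h := (erad_gk_measurable lam f).comp (measurable_swap (α := ℝ) (β := ℝ))
        have h2 : Measurable (fun η : ℝ => ‖mm' η‖ₑ) := mm'_continuous.enorm.measurable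
        have h3 : Measurable (fun p : ℝ × ℝ => ‖mm' p.2‖ₑ) := h2.comp measurable_snd
        exact (h3.mul h).aemeasurable
    _ = ENNReal.ofReal Real.pi * ∫⁻ η, ‖mm' η‖ₑ * ∫⁻ x, erad (fun k => gk (lam k * η) (f k) x) := by
        congr 2
        funext η
        exact lintegral_const_mul' _ _ (by finiteness)
    _ ≤ ENNReal.ofReal Real.pi * ∫⁻ η, ‖mm' η‖ₑ * (16 * (C : ℝ≥0∞) ^ 2 * ∫⁻ x, erad (fun k => f k x)) := by
        gcongr with η
        exact erad_gk_int hC _ f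
    _ = ENNReal.ofReal Real.pi * ((∫⁻ η, ‖mm' η‖ₑ) * (16 * (C : ℝ≥0∞) ^ 2 * ∫⁻ x, erad (fun k => f k x))) := by
        rw [lintegral_mul_const]
        exact mm'_continuous.enorm.measurable
    _ = _ := by
        rw [lintegral_enorm_mm', CR]
        ring

end

end Pool.Agent.Helper604.UMD
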