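import Mathlib
import Pool.Agent.Helper604.UMD.Rb3
import Pool.Agent.Helper604.UMD.Ext

open MeasureTheory FourierTransform SchwartzMap Complex Filter Topology Set
open scoped ENNReal NNReal ComplexConjugate Convolution

namespace Pool.Agent.Helper604.UMD

noncomputable section

variable {Y : Type*} [NormedAddCommGroup Y] [NormedSpace ℂ Y] [CompleteSpace Y]
variable {ι : Type*} [Fintype ι] [DecidableEq ι]

lemma mollY {g : ℝ → Y} (hg : Continuous g) {B R : ℝ} (hB : ∀ x, ‖g x‖ ≤ B)
    (hR : ∀ x, R < |x| → g x = 0) :
    ∃ f : ℕ → 𝓢(ℝ, Y), (∀ m x, ‖f m x‖ ≤ B) ∧ (∀ m x, R + 1 < |x| → f m x = 0) ∧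
      ∀ x : ℝ, Tendsto (fun m => f m x) atTop (𝓝 (g x)) := by
  have hB0 : 0 ≤ B := (norm_nonneg _).trans (hB 0)
  have hcs : HasCompactSupport g := by
    refine HasCompactSupport.of_support_subset_isCompact (isCompact_Icc (a := -|R|) (b := |R|)) ?_
    intro x hx
    rw [Function.mem_support] at hx
    have : ¬ (R < |x|) := fun h => hx (hR x h)
    push Not at this
    have h2 : |x| ≤ |R| := this.trans (le_abs_self R)
    exact abs_le.1 h2
  have hloc : LocallyIntegrable g volume := hg.locallyIntegrable
  set c : ℕ → ℝ → Y := fun m => ((bmp m).normed volume ⋆[ContinuousLinearMap.lsmul ℝ ℝ, volume] g) with hc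
  have hcd : ∀ m, ContDiff ℝ ((⊤ : ℕ∞) : WithTop ℕ∞) (c m) := fun m =>
    (bmp m).hasCompactSupport_normed.contDiff_convolution_left _ (bmp m).contDiff_normed hloc
  have hcc : ∀ m, HasCompactSupport (c m) := fun m =>
    (bmp m).hasCompactSupport_normed.convolution _ hcs
  refine ⟨fun m => (hcc m).toSchwartzMap (hcd m), ?_, ?_, ?_⟩
  · intro m x
    change ‖c m x‖ ≤ B
    rw [hc]
    simp only [convolution_def, ContinuousLinearMap.lsmul_apply]
    have h1 : ‖∫ t, (bmp m).normed volume t • g (x - t)‖ ≤ ∫ t, (bmp m).normed volume t * B := by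
      refine norm_integral_le_of_norm_le ((bmp m).integrable_normed.mul_const B) ?_
      refine Eventually.of_forall fun t => ?_
      rw [norm_smul, Real.norm_of_nonneg ((bmp m).nonneg_normed t)]
      exact mul_le_mul_of_nonneg_left (hB _) ((bmp m).nonneg_normed t)
    refine h1.trans (le_of_eq ?_)
    rw [integral_mul_const, (bmp m).integral_normed, one_mul]
  · intro m x hx
    change c m x = 0
    rw [hc]
    simp only [convolution_def, ContinuousLinearMap.lsmul_apply]
    have : ∀ t, (bmp m).normed volume t • g (x - t) = 0 := by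
      intro t
      by_cases ht : (bmp m).normed volume t = 0
      · rw [ht, zero_smul]
      · have h2 : t ∈ Function.support ((bmp m).normed volume) := ht
        rw [(bmp m).support_normed_eq] at h2
        have h3 : |t| < 1 := by
          rw [Metric.mem_ball, dist_zero_right, Real.norm_eq_abs] at h2
          refine h2.trans_le ?_
          change (1 : ℝ) / (m + 1) ≤ 1
          rw [div_le_one (by positivity)]
          have : (0 : ℝ) ≤ m := Nat.cast_nonneg m
          linarith
        have h4 : R < |x - t| := by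
          have := abs_sub_abs_le_abs_sub x t
          linarith
        rw [hR _ h4, smul_zero]
    simp [this]
  · intro x
    refine ContDiffBump.convolution_tendsto_right_of_continuous (φ := bmp) ?_ hg x
    change Tendsto (fun m : ℕ => (1 : ℝ) / (m + 1)) atTop (𝓝 0)
    exact tendsto_one_div_add_atTop_nhds_zero_nat

omit [CompleteSpace Y] in
lemma erad_continuous : Continuous (erad : (ι → Y) → ℝ≥0∞) := by
  unfold erad
  refine continuous_finsetSum _ fun ω _ => ?_
  refine ENNReal.continuous_pow 2 |>.comp ?_
  refine Continuous.enorm ?_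
  fun_prop

omit [CompleteSpace Y] in
lemma exp_int {lam : ℝ} (hl : 0 < lam) : IntegrableOn (fun t : ℝ => lam * Real.exp (-(lam * t))) (Ioi 0) := by
  have := (exp_neg_integrableOn_Ioi 0 hl).const_mul lam
  simpa [neg_mul, IntegrableOn] using this

omit [CompleteSpace Y] in
lemma Kf_tendsto {lam : ℝ} (hl : 0 < lam) {f : ℕ → ℝ → Y} (hf : ∀ m, Continuous (f m)) {g : ℝ → Y} {B : ℝ}
    (hB : ∀ m x, ‖f m x‖ ≤ B) (hfg : ∀ x, Tendsto (fun m => f m x) atTop (𝓝 (g x))) (x : ℝ) :
    Tendsto (fun m => Kf lam (f m) x) atTop (𝓝 (Kf lam g x)) := by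
  unfold Kf
  refine tendsto_integral_of_dominated_convergence (fun t => (lam * Real.exp (-(lam * t))) * B) ?_ ?_ ?_ ?_
  · intro m
    refine Continuous.aestronglyMeasurable ?_
    have := hf m
    fun_prop
  · exact (exp_int hl).mul_const B
  · intro m
    refine Eventually.of_forall fun t => ?_
    rw [norm_smul, Real.norm_of_nonneg (by positivity)]
    gcongr
    exact hB _ _
  · refine Eventually.of_forall fun t => ?_
    exact (hfg _).const_smul _

omit [CompleteSpace Y] in
lemma Kf_measurable {lam : ℝ} {f : ℝ → Y} (hf : Continuous f) : StronglyMeasurable (Kf lam f) := by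
  unfold Kf
  have h : StronglyMeasurable (fun p : ℝ × ℝ => (lam * Real.exp (-(lam * p.2))) • f (p.1 - p.2)) := by
    refine Continuous.stronglyMeasurable ?_
    fun_prop
  exact h.integral_prod_right

theorem rb_cont {C : ℝ≥0} (hC : ∀ f : 𝓢(ℝ, Y), eLpNorm (hilbertT f) 2 volume ≤ C * eLpNorm (f : ℝ → Y) 2 volume)
    {lam : ι → ℝ} (hl : ∀ k, 0 < lam k) {g : ι → ℝ → Y} (hg : ∀ k, Continuous (g k)) {B R : ℝ}
    (hB : ∀ k x, ‖g k x‖ ≤ B) (hR : ∀ k x, R < |x| → g k x = 0) :
    ∫⁻ x, erad (fun k => Kf (lam k) (g k) x) ≤ CR C * ∫⁻ x, erad (fun k => g k x) := by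
  choose f hf1 hf2 hf3 using fun k => mollY (hg k) (hB k) (hR k)
  -- pointwise convergence of both sides
  have hL : ∀ x, Tendsto (fun m => erad (fun k => Kf (lam k) (f k m) x)) atTop (𝓝 (erad (fun k => Kf (lam k) (g k) x))) := by
    intro x
    refine (erad_continuous.tendsto _).comp ?_
    rw [tendsto_pi_nhds]
    intro k
    exact Kf_tendsto (hl k) (fun m => (f k m).continuous) (hf1 k) (hf3 k) x
  have hRt : Tendsto (fun m => ∫⁻ x, erad (fun k => f k m x)) atTop (𝓝 (∫⁻ x, erad (fun k => g k x))) := by
    refine tendsto_lintegral_of_dominated_convergence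
      (bound := (Set.Icc (-|R + 1|) |R + 1|).indicator fun _ => ∑ _ω : ι → Bool, (∑ _k : ι, ENNReal.ofReal B) ^ 2) ?_ ?_ ?_ ?_
    · intro m
      exact (erad_continuous.comp (continuous_pi fun k => (f k m).continuous)).measurable
    · intro m
      refine Eventually.of_forall fun x => ?_
      by_cases hx : x ∈ Set.Icc (-|R + 1|) |R + 1|
      · rw [Set.indicator_of_mem hx]
        unfold erad
        refine Finset.sum_le_sum fun ω _ => ?_
        refine pow_le_pow_left₀ (by positivity) ?_ 2
        refine (enorm_sum_le _ _).trans (Finset.sum_le_sum fun k _ => ?_)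
        rw [enorm_smul]
        have h1 : ‖(sg (ω k) : ℂ)‖ₑ = 1 := by
          unfold sg
          split_ifs <;> simp
        rw [h1, one_mul, ← ofReal_norm]
        exact ENNReal.ofReal_le_ofReal (hf1 k m x)
      · have h0 : ∀ k, f k m x = 0 := by
          intro k
          refine hf2 k m x ?_
          by_contra hcon
          push Not at hcon
          exact hx (abs_le.1 (hcon.trans (le_abs_self _)))
        unfold erad
        simp [h0]
    · rw [lintegral_indicator measurableSet_Icc, setLIntegral_const]
      refine ENNReal.mul_ne_top ?_ ?_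
      · refine (ENNReal.sum_lt_top.2 fun ω _ => ?_).ne
        refine ENNReal.pow_lt_top (ENNReal.sum_lt_top.2 fun k _ => ENNReal.ofReal_lt_top)
      · simp
    · refine Eventually.of_forall fun x => ?_
      refine (erad_continuous.tendsto _).comp ?_
      rw [tendsto_pi_nhds]
      intro k
      exact hf3 k x
  calc ∫⁻ x, erad (fun k => Kf (lam k) (g k) x)
      = ∫⁻ x, liminf (fun m => erad (fun k => Kf (lam k) (f k m) x)) atTop := by
        congr 1
        funext x
        exact (hL x).liminf_eq.symm
    _ ≤ liminf (fun m => ∫⁻ x, erad (fun k => Kf (lam k) (f k m) x)) atTop := by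
        refine lintegral_liminf_le fun m => ?_
        unfold erad
        refine Finset.measurable_fun_sum _ fun ω _ => Measurable.pow_const ?_ 2
        refine StronglyMeasurable.enorm ?_
        exact Finset.stronglyMeasurable_fun_sum _ fun k _ => (Kf_measurable (f k m).continuous).const_smul _
    _ ≤ liminf (fun m => CR C * ∫⁻ x, erad (fun k => f k m x)) atTop := by
        refine liminf_le_liminf (Eventually.of_forall fun m => ?_)
        exact rb_schwartz hC hl fun k => f k m
    _ = CR C * ∫⁻ x, erad (fun k => g k x) := by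
        exact (ENNReal.Tendsto.const_mul hRt (Or.inr (CR_ne_top C))).liminf_eq

end

end Pool.Agent.Helper604.UMD
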