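import Mathlib
import Pool.Agent.Helper604.UMD.Tr

open MeasureTheory FourierTransform SchwartzMap Complex Filter Topology Set
open scoped ENNReal NNReal ComplexConjugate Convolution

namespace Pool.Agent.Helper604.UMD

noncomputable section

variable {Y : Type*} [NormedAddCommGroup Y] [NormedSpace ℂ Y] [CompleteSpace Y]
variable {ι : Type*} [Fintype ι] [DecidableEq ι]

/-- averaged orbit `∫_0^∞ λ e^{-λ t} U(t) y dt` -/
def res (U : ℝ → Y → Y) (lam : ℝ) (y : Y) : Y :=
  ∫ t in Ioi (0 : ℝ), (lam * Real.exp (-(lam * t))) • U t y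

/-- cutoff function -/
def cut (N : ℝ) (s : ℝ) : ℝ := max 0 (min 1 (N + 1 - |s|))

lemma cut_continuous (N : ℝ) : Continuous (cut N) := by unfold cut; fun_prop
lemma cut_nonneg (N s : ℝ) : 0 ≤ cut N s := le_max_left _ _
lemma cut_le_one (N s : ℝ) : cut N s ≤ 1 := max_le (by norm_num) (min_le_left _ _)
lemma cut_one {N s : ℝ} (h : |s| ≤ N) : cut N s = 1 := by
  unfold cut
  rw [min_eq_left (by linarith), max_eq_right (by norm_num)]
lemma cut_zero {N s : ℝ} (h : N + 1 < |s|) : cut N s = 0 := by
  unfold cut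
  rw [max_eq_left]
  exact (min_le_right _ _).trans (by linarith)

omit [CompleteSpace Y] in
lemma exp_int' {lam : ℝ} (hl : 0 < lam) : ∫ t in Ioi (0 : ℝ), lam * Real.exp (-(lam * t)) = 1 := by
  have h := integral_exp_mul_Ioi (a := -lam) (by linarith) 0
  rw [integral_const_mul]
  simp only [neg_mul] at h
  rw [h]
  simp
  field_simp

variable (U : ℝ → Y →L[ℂ] Y) (hU0 : U 0 = 1) (hadd : ∀ s t, U (s + t) = U s * U t)
  (hc : ∀ y, Continuous fun t => U t y) {M : ℝ} (hM : ∀ t, ‖U t‖ ≤ M)

include hU0 hadd hc hM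

lemma res_diff {lam : ℝ} (hl : 0 < lam) (y : Y) {N : ℝ} (hN : 0 ≤ N) {x : ℝ} (hx0 : 0 ≤ x) (hxN : x ≤ N) :
    ‖res (fun t => U t) lam y - U x (Kf lam (fun s => cut N s • U (-s) y) x)‖ ≤
      2 * Real.exp (-(lam * N / 2)) * (M * ‖y‖) := by
  have hM0 : 0 ≤ M := (norm_nonneg _).trans (hM 0)
  have hb : ∀ t, ‖U t y‖ ≤ M * ‖y‖ := fun t => ((U t).le_opNorm y).trans (by gcongr; exact hM t)
  have hcb : ∀ (c : ℝ) (v : Y), 0 ≤ c → c ≤ 1 → ‖v‖ ≤ M * ‖y‖ → ‖c • v‖ ≤ M * ‖y‖ := by
    intro c v h0 h1 h2
    rw [norm_smul, Real.norm_of_nonneg h0]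
    nlinarith [norm_nonneg v]
  have hint1 : IntegrableOn (fun t => (lam * Real.exp (-(lam * t))) • U t y) (Ioi 0) := by
    refine ((exp_int hl).mul_const (M * ‖y‖)).mono' ?_ (Eventually.of_forall fun t => ?_)
    · refine Continuous.aestronglyMeasurable ?_
      have := hc y
      fun_prop
    · rw [norm_smul, Real.norm_of_nonneg (by positivity)]
      gcongr
      exact hb t
  have hint2 : IntegrableOn (fun t => (lam * Real.exp (-(lam * t))) • (cut N (x - t) • U (-(x - t)) y)) (Ioi 0) := by
    refine ((exp_int hl).mul_const (M * ‖y‖)).mono' ?_ (Eventually.of_forall fun t => ?_)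
    · refine Continuous.aestronglyMeasurable ?_
      have h1 : Continuous (fun t : ℝ => U (-(x - t)) y) := (hc y).comp (by fun_prop)
      have h2 : Continuous (fun t : ℝ => cut N (x - t)) := (cut_continuous N).comp (by fun_prop)
      fun_prop
    · rw [norm_smul, Real.norm_of_nonneg (by positivity)]
      exact mul_le_mul_of_nonneg_left (hcb _ _ (cut_nonneg _ _) (cut_le_one _ _) (hb _)) (by positivity)
  have e1 : U x (Kf lam (fun s => cut N s • U (-s) y) x) =
      ∫ t in Ioi (0 : ℝ), (lam * Real.exp (-(lam * t))) • (cut N (x - t) • U t y) := by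
    unfold Kf
    rw [← (U x).integral_comp_comm hint2]
    congr 1
    funext t
    have e2 : U x (U (-(x - t)) y) = U t y := by
      have := congrArg (fun T : Y →L[ℂ] Y => T y) (hadd x (-(x - t)))
      simp only [ContinuousLinearMap.mul_apply] at this
      rw [← this]
      congr 2
      ring
    have e3 : ∀ (c : ℝ) (z : Y), U x (c • z) = c • U x z := by
      intro c z
      rw [← Complex.coe_smul, map_smul, Complex.coe_smul]
    rw [e3, e3, e2]
  have hint3 : IntegrableOn (fun t => (lam * Real.exp (-(lam * t))) • (cut N (x - t) • U t y)) (Ioi 0) := by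
    refine ((exp_int hl).mul_const (M * ‖y‖)).mono' ?_ (Eventually.of_forall fun t => ?_)
    · refine Continuous.aestronglyMeasurable ?_
      have h1 : Continuous (fun t : ℝ => U t y) := hc y
      have h2 : Continuous (fun t : ℝ => cut N (x - t)) := (cut_continuous N).comp (by fun_prop)
      fun_prop
    · rw [norm_smul, Real.norm_of_nonneg (by positivity)]
      exact mul_le_mul_of_nonneg_left (hcb _ _ (cut_nonneg _ _) (cut_le_one _ _) (hb _)) (by positivity)
  rw [e1]
  unfold res
  rw [← integral_sub hint1 hint3]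
  have hbd : ∫ t in Ioi (0 : ℝ), ((lam / 2) * Real.exp (-((lam / 2) * t))) * (2 * Real.exp (-(lam * N / 2)) * (M * ‖y‖))
      = 2 * Real.exp (-(lam * N / 2)) * (M * ‖y‖) := by
    rw [integral_mul_const, exp_int' (by positivity), one_mul]
  rw [← hbd]
  refine norm_integral_le_of_norm_le ?_ ?_
  · exact (exp_int (by positivity)).mul_const _
  · refine (ae_restrict_iff' measurableSet_Ioi).2 (Eventually.of_forall fun t ht => ?_)
    have ht' : 0 < t := ht
    by_cases htN : t ≤ N
    · have h1 : cut N (x - t) = 1 := cut_one (by rw [abs_le]; constructor <;> linarith)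
      rw [h1, one_smul, sub_self, norm_zero]
      positivity
    · push Not at htN
      rw [← smul_sub, norm_smul, Real.norm_of_nonneg (by positivity)]
      have h2 : ‖U t y - cut N (x - t) • U t y‖ ≤ M * ‖y‖ := by
        have : U t y - cut N (x - t) • U t y = (1 - cut N (x - t)) • U t y := by rw [sub_smul, one_smul]
        rw [this, norm_smul, Real.norm_of_nonneg (by linarith [cut_le_one N (x - t)])]
        calc _ ≤ 1 * (M * ‖y‖) := by
              gcongr
              · linarith [cut_nonneg N (x - t)]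
              · exact hb _
          _ = _ := one_mul _
      calc lam * Real.exp (-(lam * t)) * ‖U t y - cut N (x - t) • U t y‖
          ≤ lam * Real.exp (-(lam * t)) * (M * ‖y‖) := by gcongr
        _ ≤ lam * (Real.exp (-((lam / 2) * t)) * Real.exp (-(lam * N / 2))) * (M * ‖y‖) := by
            rw [← Real.exp_add]
            gcongr
            nlinarith
        _ = _ := by ring

/-- the transferred estimate for averaged orbits of a bounded group -/
theorem rad_res {C : ℝ≥0} (hC : ∀ f : 𝓢(ℝ, Y), eLpNorm (hilbertT f) 2 volume ≤ C * eLpNorm (f : ℝ → Y) 2 volume)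
    {lam : ι → ℝ} (hl : ∀ k, 0 < lam k) (y : ι → Y) :
    rad (fun k => res (fun t => U t) (lam k) (y k)) ≤ 8 * M ^ 4 * (CR C).toReal * rad y := by
  have hM0 : 0 ≤ M := (norm_nonneg _).trans (hM 0)
  set z : ι → Y := fun k => res (fun t => U t) (lam k) (y k) with hz
  set ε : ℕ → ℝ := fun N => ∑ k, 2 * Real.exp (-(lam k * N / 2)) * (M * ‖y k‖) with hε
  have hε0 : ∀ N, 0 ≤ ε N := fun N => Finset.sum_nonneg fun k _ => by positivity
  have hεt : Tendsto ε atTop (𝓝 0) := by
    rw [hε]
    have : (0 : ℝ) = ∑ k : ι, 2 * 0 * (M * ‖y k‖) := by simp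
    rw [this]
    refine tendsto_finsetSum _ fun k _ => ?_
    refine Tendsto.mul_const _ (Tendsto.const_mul _ ?_)
    refine Real.tendsto_exp_atBot.comp ?_
    refine tendsto_neg_atTop_atBot.comp ?_
    have h1 : Tendsto (fun N : ℕ => (N : ℝ)) atTop atTop := tendsto_natCast_atTop_atTop
    have h2 := h1.const_mul_atTop (half_pos (hl k))
    refine h2.congr fun N => ?_
    ring
  set g : ℕ → ι → ℝ → Y := fun N k s => cut N s • U (-s) (y k) with hg
  have hgc : ∀ N k, Continuous (g N k) := by
    intro N k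
    have h1 : Continuous (fun s : ℝ => U (-s) (y k)) := (hc (y k)).comp continuous_neg
    exact (cut_continuous N).smul h1
  have hbU : ∀ t (v : Y), ‖U t v‖ ≤ M * ‖v‖ := fun t v => ((U t).le_opNorm v).trans (by gcongr; exact hM t)
  have hradU : ∀ t (v : ι → Y), rad (fun k => U t (v k)) ≤ M ^ 2 * rad v := by
    intro t v
    unfold rad
    rw [Finset.mul_sum]
    refine Finset.sum_le_sum fun ω _ => ?_
    have : ∑ k, (sg (ω k) : ℂ) • U t (v k) = U t (∑ k, (sg (ω k) : ℂ) • v k) := by
      rw [map_sum]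
      simp_rw [map_smul]
    rw [this, ← mul_pow]
    gcongr
    exact hbU _ _
  -- the pointwise estimate
  have hpt : ∀ (N : ℕ) (x : ℝ), 0 ≤ x → x ≤ N →
      rad z ≤ 2 * (M ^ 2 * rad (fun k => Kf (lam k) (g N k) x)) + 2 * (Fintype.card (ι → Bool) * (ε N) ^ 2) := by
    intro N x hx0 hxN
    have h1 : ∀ ω : ι → Bool, ‖∑ k, (sg (ω k) : ℂ) • z k‖ ^ 2 ≤
        2 * ‖∑ k, (sg (ω k) : ℂ) • U x (Kf (lam k) (g N k) x)‖ ^ 2 + 2 * (ε N) ^ 2 := by
      intro ω
      have h2 : ‖∑ k, (sg (ω k) : ℂ) • z k‖ ≤ ‖∑ k, (sg (ω k) : ℂ) • U x (Kf (lam k) (g N k) x)‖ + ε N := by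
        have e : ∑ k, (sg (ω k) : ℂ) • z k = ∑ k, (sg (ω k) : ℂ) • U x (Kf (lam k) (g N k) x) +
            ∑ k, (sg (ω k) : ℂ) • (z k - U x (Kf (lam k) (g N k) x)) := by
          rw [← Finset.sum_add_distrib]
          refine Finset.sum_congr rfl fun k _ => ?_
          rw [smul_sub, add_sub_cancel]
        rw [e]
        refine (norm_add_le _ _).trans ?_
        gcongr
        refine (norm_sum_le _ _).trans (Finset.sum_le_sum fun k _ => ?_)
        rw [norm_smul]
        have h1 : ‖(sg (ω k) : ℂ)‖ = 1 := by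
          unfold sg
          split_ifs <;> simp
        rw [h1, one_mul]
        exact res_diff U hU0 hadd hc hM (hl k) (y k) (Nat.cast_nonneg N) hx0 hxN
      calc ‖∑ k, (sg (ω k) : ℂ) • z k‖ ^ 2 ≤ (‖∑ k, (sg (ω k) : ℂ) • U x (Kf (lam k) (g N k) x)‖ + ε N) ^ 2 := by gcongr
        _ ≤ _ := by nlinarith [sq_nonneg (‖∑ k, (sg (ω k) : ℂ) • U x (Kf (lam k) (g N k) x)‖ - ε N)]
    calc rad z = ∑ ω : ι → Bool, ‖∑ k, (sg (ω k) : ℂ) • z k‖ ^ 2 := rfl
      _ ≤ ∑ ω : ι → Bool, (2 * ‖∑ k, (sg (ω k) : ℂ) • U x (Kf (lam k) (g N k) x)‖ ^ 2 + 2 * (ε N) ^ 2) :=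
          Finset.sum_le_sum fun ω _ => h1 ω
      _ = 2 * rad (fun k => U x (Kf (lam k) (g N k) x)) + 2 * (Fintype.card (ι → Bool) * (ε N) ^ 2) := by
          rw [Finset.sum_add_distrib, ← Finset.mul_sum, Finset.sum_const, nsmul_eq_mul, Finset.card_univ]
          unfold rad
          ring
      _ ≤ _ := by
          gcongr
          exact hradU x _
  -- integrate over `[0, N]`
  have hN : ∀ N : ℕ, 1 ≤ N → rad z ≤ 8 * M ^ 4 * (CR C).toReal * rad y + 2 * (Fintype.card (ι → Bool) * (ε N) ^ 2) := by
    intro N hN1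
    have hN0 : (0 : ℝ) < N := by exact_mod_cast hN1
    -- upper bound of the integral
    have hup : ∫⁻ x, erad (fun k => Kf (lam k) (g N k) x) ≤ CR C * (ENNReal.ofReal (2 * (N + 1)) * ENNReal.ofReal (M ^ 2 * rad y)) := by
      refine (rb_cont hC hl (hgc N) (B := M * ∑ k, ‖y k‖) (R := N + 1) ?_ ?_).trans ?_
      · intro k x
        rw [hg]
        simp only
        rw [norm_smul, Real.norm_of_nonneg (cut_nonneg _ _)]
        calc _ ≤ 1 * (M * ‖y k‖) := by
              gcongr
              · exact cut_le_one _ _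
              · exact hbU _ _
          _ = M * ‖y k‖ := one_mul _
          _ ≤ M * ∑ k, ‖y k‖ := by
              gcongr
              exact Finset.single_le_sum (f := fun k => ‖y k‖) (fun _ _ => norm_nonneg _) (Finset.mem_univ k)
      · intro k x hx
        rw [hg]
        simp only
        rw [cut_zero hx, zero_smul]
      · gcongr
        have hpt2 : ∀ x, erad (fun k => g N k x) ≤ (Set.Icc (-((N : ℝ) + 1)) (N + 1)).indicator (fun _ => ENNReal.ofReal (M ^ 2 * rad y)) x := by
          intro x
          by_cases hx : x ∈ Set.Icc (-((N : ℝ) + 1)) (N + 1)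
          · rw [Set.indicator_of_mem hx, erad_eq]
            refine ENNReal.ofReal_le_ofReal ?_
            have h1 : rad (fun k => g N k x) ≤ rad (fun k => U (-x) (y k)) := by
              have := rad_real (fun k => U (-x) (y k)) (a := fun _ => cut N x) fun _ => by
                rw [abs_of_nonneg (cut_nonneg _ _)]
                exact cut_le_one _ _
              simpa [hg] using this
            exact h1.trans (hradU _ _)
          · have hx' : (N : ℝ) + 1 < |x| := by
              by_contra hcon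
              push Not at hcon
              exact hx (abs_le.1 hcon)
            have h0 : ∀ k, g N k x = 0 := fun k => by
              rw [hg]
              simp only
              rw [cut_zero hx', zero_smul]
            unfold erad
            simp [h0]
        refine (lintegral_mono hpt2).trans ?_
        rw [lintegral_indicator measurableSet_Icc, setLIntegral_const, Real.volume_Icc, mul_comm]
        gcongr
        linarith
    -- lower bound of the integral
    have hlow : ENNReal.ofReal N * ENNReal.ofReal (rad z) ≤ ENNReal.ofReal (2 * M ^ 2) * (∫⁻ x, erad (fun k => Kf (lam k) (g N k) x))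
        + ENNReal.ofReal (N * (2 * (Fintype.card (ι → Bool) * (ε N) ^ 2))) := by
      have h1 : ENNReal.ofReal N * ENNReal.ofReal (rad z) = ∫⁻ _x in Set.Icc (0 : ℝ) N, ENNReal.ofReal (rad z) := by
        rw [setLIntegral_const, Real.volume_Icc, sub_zero, mul_comm]
      have h2 : ∫⁻ _x in Set.Icc (0 : ℝ) N, ENNReal.ofReal (rad z) ≤
          ∫⁻ x in Set.Icc (0 : ℝ) N, (ENNReal.ofReal (2 * M ^ 2) * erad (fun k => Kf (lam k) (g N k) x) +
            ENNReal.ofReal (2 * (Fintype.card (ι → Bool) * (ε N) ^ 2))) := by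
        refine setLIntegral_mono' measurableSet_Icc fun x hx => ?_
        rw [erad_eq, ← ENNReal.ofReal_mul (by positivity), ← ENNReal.ofReal_add (by have := rad_nonneg (fun k => Kf (lam k) (g N k) x); positivity) (by positivity)]
        refine ENNReal.ofReal_le_ofReal ((hpt N x hx.1 hx.2).trans (le_of_eq ?_))
        ring
      rw [h1]
      refine h2.trans ?_
      rw [lintegral_add_right _ measurable_const, setLIntegral_const, Real.volume_Icc, sub_zero]
      gcongr ?_ + ?_
      · rw [lintegral_const_mul' _ _ (by finiteness)]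
        gcongr
        exact Measure.restrict_le_self
      · rw [← ENNReal.ofReal_mul (by positivity), mul_comm]
    have htot : ENNReal.ofReal N * ENNReal.ofReal (rad z) ≤
        ENNReal.ofReal (2 * M ^ 2) * (CR C * (ENNReal.ofReal (2 * (N + 1)) * ENNReal.ofReal (M ^ 2 * rad y)))
        + ENNReal.ofReal (N * (2 * (Fintype.card (ι → Bool) * (ε N) ^ 2))) := by
      refine hlow.trans ?_
      gcongr
    have hry := rad_nonneg y
    have hCR : CR C = ENNReal.ofReal (CR C).toReal := (ENNReal.ofReal_toReal (CR_ne_top C)).symm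
    rw [hCR, ← ENNReal.ofReal_mul (by positivity), ← ENNReal.ofReal_mul (by positivity), ← ENNReal.ofReal_mul (by positivity),
      ← ENNReal.ofReal_mul (by positivity), ← ENNReal.ofReal_add (by positivity) (by positivity),
      ENNReal.ofReal_le_ofReal_iff (by positivity)] at htot
    have hN2 : (N : ℝ) + 1 ≤ 2 * N := by
      have : (1 : ℝ) ≤ N := by exact_mod_cast hN1
      linarith
    have h5 : 2 * M ^ 2 * ((CR C).toReal * (2 * (N + 1) * (M ^ 2 * rad y))) ≤ N * (8 * M ^ 4 * (CR C).toReal * rad y) := by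
      calc 2 * M ^ 2 * ((CR C).toReal * (2 * (N + 1) * (M ^ 2 * rad y)))
          ≤ 2 * M ^ 2 * ((CR C).toReal * (2 * (2 * N) * (M ^ 2 * rad y))) := by gcongr
        _ = _ := by ring
    have h6 : N * rad z ≤ N * (8 * M ^ 4 * (CR C).toReal * rad y + 2 * (Fintype.card (ι → Bool) * (ε N) ^ 2)) := by
      rw [mul_add]
      exact htot.trans (by gcongr)
    exact le_of_mul_le_mul_left h6 hN0
  have hlim : Tendsto (fun N : ℕ => 8 * M ^ 4 * (CR C).toReal * rad y + 2 * (Fintype.card (ι → Bool) * (ε N) ^ 2)) atTop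
      (𝓝 (8 * M ^ 4 * (CR C).toReal * rad y + 2 * (Fintype.card (ι → Bool) * 0 ^ 2))) :=
    ((hεt.pow 2).const_mul _ |>.const_mul _).const_add _
  have := ge_of_tendsto hlim (eventually_atTop.2 ⟨1, hN⟩)
  simpa using this

end

end Pool.Agent.Helper604.UMD
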