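import Mathlib
import Pool.Agent.Helper604.UMD.Sem
import Pool.Agent.Helper604.UMD.Tr2

open MeasureTheory FourierTransform SchwartzMap Complex Filter Topology Set
open scoped ENNReal NNReal

namespace Pool.Agent.Helper604.UMD

noncomputable section

lemma bdd_of_PN {x : ℕ ⊕ ℕ → ℂ} {a : ℝ} (h : ∀ n, PN n (absf x) ≤ a) : BddAbove (range fun k => DD.p k (absf x)) := by
  refine ⟨2 * a, ?_⟩
  rintro _ ⟨k, rfl⟩
  have := PN_act (t := k.1) k.1.2 k.2 (x := absf x)
  change PN k.2 (act k.1 (absf x)) ≤ _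
  linarith [h k.2]

/-- combined bound for vectors supported in the first `n` right coordinates -/
lemma PN_right {n : ℕ} {x : ℕ ⊕ ℕ → ℂ} (h1 : ∀ j, x (Sum.inl j) = 0) (h2 : ∀ j, n ≤ j → x (Sum.inr j) = 0)
    (h3 : ∀ j, ‖x (Sum.inr j)‖ ≤ 1) (m : ℕ) : PN m (absf x) ≤ (n : ℝ) ^ (3 / 8 : ℝ) := by
  unfold PN ln absf
  simp only [h1, norm_zero, abs_zero, abs_norm]
  rw [Finset.sum_eq_zero fun j _ => Real.zero_rpow (by norm_num), Real.zero_rpow (by norm_num), zero_add]
  have e : (1 / (8 / 3) : ℝ) = 3 / 8 := by norm_num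
  rw [e]
  refine Real.rpow_le_rpow (by positivity) ?_ (by norm_num)
  calc ∑ j ∈ Finset.range m, ‖x (Sum.inr j)‖ ^ (8 / 3 : ℝ) ≤ ∑ j ∈ Finset.range m, (if j < n then (1 : ℝ) else 0) := by
        refine Finset.sum_le_sum fun j _ => ?_
        split_ifs with h
        · exact Real.rpow_le_one (norm_nonneg _) (h3 j) (by norm_num)
        · rw [h2 j (not_lt.1 h), norm_zero, Real.zero_rpow (by norm_num)]
    _ = ((Finset.range m).filter (· < n)).card := by rw [Finset.sum_boole]
    _ ≤ (Finset.range n).card := by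
        refine Nat.cast_le.2 (Finset.card_le_card fun j hj => ?_)
        exact Finset.mem_range.2 (Finset.mem_filter.1 hj).2
    _ = n := by rw [Finset.card_range]

/-- basis vectors of the second summand -/
def be (k : ℕ) : XC := KSpace.mk (Pi.single (Sum.inr k) 1) (bdd_of_PN (PN_right (n := k + 1) (by intro j; simp)
  (by
    intro j hj
    rw [Pi.single_eq_of_ne]
    intro h
    have := Sum.inr.inj h
    omega)
  (by
    intro j
    by_cases h : j = k
    · subst h; simp
    · rw [Pi.single_eq_of_ne (fun h' => h (Sum.inr.inj h'))]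
      simp)))

lemma be_inl (k j : ℕ) : (be k).co (Sum.inl j) = 0 := by simp [be]
lemma be_inr (k j : ℕ) : (be k).co (Sum.inr j) = if j = k then 1 else 0 := by
  by_cases h : j = k
  · subst h; simp [be]
  · rw [if_neg h]
    simp only [be, co_mk]
    rw [Pi.single_eq_of_ne (fun h' => h (Sum.inr.inj h'))]

lemma co_sum {ι : Type*} (s : Finset ι) (f : ι → XC) (i : ℕ ⊕ ℕ) : (∑ k ∈ s, f k).co i = ∑ k ∈ s, (f k).co i := by
  classical
  induction s using Finset.induction_on with
  | empty => simp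
  | insert a s ha ih => rw [Finset.sum_insert ha, Finset.sum_insert ha, co_add, Pi.add_apply, ih]

lemma norm_sg (b : Bool) : ‖(sg b : ℂ)‖ = 1 := by
  unfold sg
  split_ifs <;> simp

lemma signed_norm (n : ℕ) (ω : Fin n → Bool) : ‖∑ k : Fin n, (sg (ω k) : ℂ) • be k‖ ≤ 2 * (n : ℝ) ^ (3 / 8 : ℝ) := by
  have hr : ∀ j, (∑ k : Fin n, (sg (ω k) : ℂ) • be k).co (Sum.inr j) = if h : j < n then (sg (ω ⟨j, h⟩) : ℂ) else 0 := by
    intro j
    rw [co_sum]
    simp only [co_smul, Pi.smul_apply, be_inr, smul_eq_mul, mul_ite, mul_one, mul_zero]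
    split_ifs with h
    · rw [Finset.sum_eq_single (⟨j, h⟩ : Fin n)]
      · simp
      · intro k _ hk
        rw [if_neg]
        intro h'
        exact hk (Fin.ext h'.symm)
      · simp
    · refine Finset.sum_eq_zero fun k _ => ?_
      rw [if_neg]
      intro h'
      exact h (h' ▸ k.2)
  refine norm_le_PN (by positivity) (PN_right ?_ ?_ ?_)
  · intro j
    rw [co_sum]
    simp only [co_smul, Pi.smul_apply, be_inl, smul_zero, Finset.sum_const_zero]
  · intro j hj
    rw [hr, dif_neg (not_lt.2 hj)]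
  · intro j
    rw [hr]
    split_ifs with h
    · rw [norm_sg]
    · simp

lemma rad_clm {V W : Type*} [NormedAddCommGroup V] [NormedSpace ℂ V] [NormedAddCommGroup W] [NormedSpace ℂ W]
    {ι : Type*} [Fintype ι] [DecidableEq ι] (L : V →L[ℂ] W) (v : ι → V) : rad (fun k => L (v k)) ≤ ‖L‖ ^ 2 * rad v := by
  unfold rad
  rw [Finset.mul_sum]
  refine Finset.sum_le_sum fun ω _ => ?_
  have : ∑ k, (sg (ω k) : ℂ) • L (v k) = L (∑ k, (sg (ω k) : ℂ) • v k) := by
    rw [map_sum]
    simp_rw [map_smul]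
  rw [this, ← mul_pow]
  gcongr
  exact L.le_opNorm _

lemma rad_be (n : ℕ) : rad (fun k : Fin n => be k) ≤ Fintype.card (Fin n → Bool) * (4 * (n : ℝ) ^ (3 / 4 : ℝ)) := by
  unfold rad
  calc ∑ ω : Fin n → Bool, ‖∑ k : Fin n, (sg (ω k) : ℂ) • be k‖ ^ 2 ≤ ∑ _ω : Fin n → Bool, 4 * (n : ℝ) ^ (3 / 4 : ℝ) := by
        refine Finset.sum_le_sum fun ω _ => ?_
        calc ‖∑ k : Fin n, (sg (ω k) : ℂ) • be k‖ ^ 2 ≤ (2 * (n : ℝ) ^ (3 / 8 : ℝ)) ^ 2 := by
              gcongr
              exact signed_norm n ω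
          _ = 4 * (n : ℝ) ^ (3 / 4 : ℝ) := by
              rw [mul_pow, ← Real.rpow_natCast (_ ^ _), ← Real.rpow_mul (by positivity)]
              norm_num
    _ = _ := by rw [Finset.sum_const, Finset.card_univ, nsmul_eq_mul]

lemma exp_int_inv {b : ℝ} (hb : 0 < b) : ∫ t in Ioi (0 : ℝ), Real.exp (-(b * t)) = b⁻¹ := by
  have h := exp_int' hb
  rw [integral_const_mul] at h
  field_simp
  linarith

lemma exp_integrable {b : ℝ} (hb : 0 < b) : IntegrableOn (fun t : ℝ => Real.exp (-(b * t))) (Ioi 0) := by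
  have := exp_neg_integrableOn_Ioi 0 hb
  simpa [neg_mul, IntegrableOn] using this

/-- the averaged off-diagonal coefficient -/
lemma coef (k : ℕ) : ∫ t in Ioi (0 : ℝ), (ce k / 2 * Real.exp (-(ce k / 2 * t))) * de k t = 1 / 3 := by
  have hc := ce_pos k
  have e : ∀ t : ℝ, (ce k / 2 * Real.exp (-(ce k / 2 * t))) * de k t =
      ce k / 2 * Real.exp (-(3 * ce k / 4 * t)) - ce k / 2 * Real.exp (-(3 * ce k / 2 * t)) := by
    intro t
    unfold de ue
    rw [mul_sub, mul_assoc, mul_assoc, ← Real.exp_add, ← Real.exp_add, ce_succ]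
    congr 3
    · congr 1
      ring
    · congr 1
      ring
  simp_rw [e]
  rw [integral_sub, integral_const_mul, integral_const_mul, exp_int_inv (by positivity), exp_int_inv (by positivity)]
  · field_simp
    norm_num
  · exact (exp_integrable (by positivity)).const_mul _
  · exact (exp_integrable (by positivity)).const_mul _

universe u

theorem no_dilation {Y : Type u} [NormedAddCommGroup Y] [NormedSpace ℂ Y] [CompleteSpace Y] (hY : IsUMD Y)
    (J : XC →L[ℂ] Y) (Q : Y →L[ℂ] XC) (U : ℝ → Y →L[ℂ] Y) (h0 : U 0 = 1) (hadd : ∀ s t, U (s + t) = U s * U t)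
    (hc : ∀ y, Continuous fun t => U t y) {M : ℝ} (hM : ∀ t, ‖U t‖ ≤ M)
    (hdil : ∀ t : ℝ≥0, TC t = Q ∘L U t ∘L J) : False := by
  obtain ⟨C, hC⟩ := hY
  have hM0 : 0 ≤ M := (norm_nonneg _).trans (hM 0)
  set K : ℝ := ‖Q‖ ^ 2 * (8 * M ^ 4 * (CR C).toReal * ‖J‖ ^ 2) with hK
  have hK0 : 0 ≤ K := by positivity
  -- coordinates of the averaged orbits
  have hcoord : ∀ j k : ℕ, (Q (res (fun t => U t) (ce k / 2) (J (be k)))).co (Sum.inl j) = if j = k then 1 / 3 else 0 := by
    intro j k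
    have hck := ce_pos k
    have hint : IntegrableOn (fun t => (ce k / 2 * Real.exp (-(ce k / 2 * t))) • U t (J (be k))) (Ioi 0) := by
      refine ((exp_int (lam := ce k / 2) (by positivity)).mul_const (M * ‖J (be k)‖)).mono' ?_ (Eventually.of_forall fun t => ?_)
      · refine Continuous.aestronglyMeasurable ?_
        have := hc (J (be k))
        fun_prop
      · rw [norm_smul, Real.norm_of_nonneg (by positivity)]
        gcongr
        exact ((U t).le_opNorm _).trans (by gcongr; exact hM t)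
    have h1 : Integrable (fun t => (ce k / 2 * Real.exp (-(ce k / 2 * t))) • Q (U t (J (be k)))) (volume.restrict (Ioi 0)) := by
      have := Q.integrable_comp hint
      refine this.congr (Eventually.of_forall fun t => ?_)
      simp only
      rw [← Complex.coe_smul, map_smul, Complex.coe_smul]
    have e1 : Q (res (fun t => U t) (ce k / 2) (J (be k))) =
        ∫ t in Ioi (0 : ℝ), (ce k / 2 * Real.exp (-(ce k / 2 * t))) • Q (U t (J (be k))) := by
      unfold res
      rw [← Q.integral_comp_comm hint]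
      congr 1
      funext t
      rw [← Complex.coe_smul, map_smul, Complex.coe_smul]
    rw [e1]
    have e2 : (∫ t in Ioi (0 : ℝ), (ce k / 2 * Real.exp (-(ce k / 2 * t))) • Q (U t (J (be k)))).co (Sum.inl j) =
        ∫ t in Ioi (0 : ℝ), ((ce k / 2 * Real.exp (-(ce k / 2 * t))) • Q (U t (J (be k)))).co (Sum.inl j) := by
      let L : XC →L[ℂ] ℂ := LinearMap.mkContinuous { toFun := fun x => x.co (Sum.inl j), map_add' := fun _ _ => rfl, map_smul' := fun _ _ => rfl } 1
        (fun x => by rw [one_mul]; exact co_le_norm x _)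
      exact (L.integral_comp_comm h1).symm
    rw [e2]
    have e3 : ∀ t ∈ Ioi (0 : ℝ), ((ce k / 2 * Real.exp (-(ce k / 2 * t))) • Q (U t (J (be k)))).co (Sum.inl j) =
        if j = k then (((ce k / 2 * Real.exp (-(ce k / 2 * t))) * de k t : ℝ) : ℂ) else 0 := by
      intro t ht
      have ht' : 0 ≤ t := le_of_lt ht
      obtain ⟨τ, hτ⟩ : ∃ τ : ℝ≥0, (τ : ℝ) = t := ⟨⟨t, ht'⟩, rfl⟩
      have h2 : Q (U t (J (be k))) = TC τ (be k) := by
        rw [hdil, hτ]
        rfl
      rw [h2, ← Complex.coe_smul, co_smul, Pi.smul_apply, TC_co, act_inl, be_inl, be_inr, hτ, smul_zero, zero_add]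
      split_ifs with h
      · subst h
        simp
      · simp
    rw [setIntegral_congr_fun measurableSet_Ioi e3]
    split_ifs with h
    · rw [integral_complex_ofReal, coef]
      norm_num
    · simp
  -- the inequality for each `n`
  have hn : ∀ n : ℕ, (n : ℝ) ≤ 36 * K * (n : ℝ) ^ (3 / 4 : ℝ) := by
    intro n
    set z : Fin n → Y := fun k => res (fun t => U t) (ce k / 2) (J (be k)) with hz
    have h1 : rad z ≤ 8 * M ^ 4 * (CR C).toReal * rad (fun k : Fin n => J (be k)) :=
      rad_res U h0 hadd hc hM hC (lam := fun k : Fin n => ce k / 2) (fun k => by have := ce_pos k; positivity) _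
    have h2 := rad_clm Q z
    have h3 := rad_clm J (fun k : Fin n => be k)
    have h4 := rad_be n
    have hlow : Fintype.card (Fin n → Bool) * ((n : ℝ) / 9) ≤ rad (fun k => Q (z k)) := by
      unfold rad
      have : ∀ ω : Fin n → Bool, (n : ℝ) / 9 ≤ ‖∑ k, (sg (ω k) : ℂ) • Q (z k)‖ ^ 2 := by
        intro ω
        have h5 := PN_le_norm (∑ k, (sg (ω k) : ℂ) • Q (z k)) n
        have h6 : ln 2 n (fun j => absf (∑ k, (sg (ω k) : ℂ) • Q (z k)).co (Sum.inl j)) ≤ ‖∑ k, (sg (ω k) : ℂ) • Q (z k)‖ := by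
          have := ln_nonneg (8 / 3) n (fun j => absf (∑ k, (sg (ω k) : ℂ) • Q (z k)).co (Sum.inr j))
          unfold PN at h5
          linarith
        have h7 : ∀ j ∈ Finset.range n, |absf (∑ k, (sg (ω k) : ℂ) • Q (z k)).co (Sum.inl j)| ^ (2 : ℝ) = 1 / 9 := by
          intro j hj
          rw [Finset.mem_range] at hj
          unfold absf
          rw [co_sum, abs_norm]
          simp only [co_smul, Pi.smul_apply, hz, hcoord, smul_eq_mul, mul_ite, mul_zero]
          rw [Finset.sum_eq_single (⟨j, hj⟩ : Fin n)]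
          · rw [if_pos rfl, norm_mul, norm_sg]
            norm_num
          · intro k _ hk
            rw [if_neg]
            intro h'
            exact hk (Fin.ext h'.symm)
          · simp
        have h8 : ln 2 n (fun j => absf (∑ k, (sg (ω k) : ℂ) • Q (z k)).co (Sum.inl j)) ^ 2 = (n : ℝ) / 9 := by
          unfold ln
          rw [Finset.sum_congr rfl h7, Finset.sum_const, Finset.card_range, nsmul_eq_mul, ← Real.rpow_natCast (_ ^ _), ← Real.rpow_mul (by positivity)]
          norm_num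
          ring
        rw [← h8]
        have := ln_nonneg 2 n (fun j => absf (∑ k, (sg (ω k) : ℂ) • Q (z k)).co (Sum.inl j))
        gcongr
      calc _ = ∑ _ω : Fin n → Bool, (n : ℝ) / 9 := by rw [Finset.sum_const, Finset.card_univ, nsmul_eq_mul]
        _ ≤ _ := Finset.sum_le_sum fun ω _ => this ω
    have hcard : (0 : ℝ) < Fintype.card (Fin n → Bool) := by
      exact_mod_cast Fintype.card_pos
    have h5 : Fintype.card (Fin n → Bool) * ((n : ℝ) / 9) ≤ Fintype.card (Fin n → Bool) * (K * (4 * (n : ℝ) ^ (3 / 4 : ℝ))) := by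
      calc _ ≤ rad (fun k => Q (z k)) := hlow
        _ ≤ ‖Q‖ ^ 2 * rad z := h2
        _ ≤ ‖Q‖ ^ 2 * (8 * M ^ 4 * (CR C).toReal * rad (fun k : Fin n => J (be k))) := by gcongr
        _ ≤ ‖Q‖ ^ 2 * (8 * M ^ 4 * (CR C).toReal * (‖J‖ ^ 2 * rad (fun k : Fin n => be k))) := by gcongr
        _ ≤ ‖Q‖ ^ 2 * (8 * M ^ 4 * (CR C).toReal * (‖J‖ ^ 2 * (Fintype.card (Fin n → Bool) * (4 * (n : ℝ) ^ (3 / 4 : ℝ))))) := by gcongr
        _ = _ := by rw [hK]; ring
    have h6 := le_of_mul_le_mul_left h5 hcard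
    linarith
  -- conclusion
  obtain ⟨m, hm⟩ := exists_nat_gt (36 * K)
  have hm0 : (0 : ℝ) < m := by
    have : 0 ≤ 36 * K := by positivity
    linarith
  have h := hn (m ^ 4)
  have e : ((m ^ 4 : ℕ) : ℝ) ^ (3 / 4 : ℝ) = (m : ℝ) ^ 3 := by
    rw [Nat.cast_pow, ← Real.rpow_natCast, ← Real.rpow_mul (by positivity), ← Real.rpow_natCast]
    norm_num
  rw [e, Nat.cast_pow] at h
  have h3 : (0 : ℝ) < (m : ℝ) ^ 3 := by positivity
  nlinarith

end

end Pool.Agent.Helper604.UMD
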