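import Mathlib

open Complex Filter Topology Complex.HadamardThreeLines

namespace Pool.Agent.Helper604.UMD

noncomputable section

variable {I J : Type*} [Fintype I] [Fintype J]

/-- bilinear form of a matrix acting diagonally in the second variable -/
def Bf (β : I → I → ℂ) (v w : I → J → ℂ) : ℂ := ∑ i, ∑ i', (∑ j, v i j * w i' j) * β i i'

/-- interpolation family for one vector -/
def fm (S : ℝ) (A B : ℂ) (c : ℂ) : ℂ :=
  if c = 0 then 0 else c * cexp ((A - 1) * Real.log ‖c‖ + B * Real.log S)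

lemma fm_norm {S : ℝ} (hS : 0 < S) (A B c : ℂ) (hc : c ≠ 0) :
    ‖fm S A B c‖ = ‖c‖ ^ A.re * S ^ B.re := by
  have hc' : 0 < ‖c‖ := norm_pos_iff.2 hc
  rw [fm, if_neg hc, norm_mul, Complex.norm_exp, Real.rpow_def_of_pos hc', Real.rpow_def_of_pos hS,
    ← Real.exp_add]
  nth_rw 1 [← Real.exp_log hc']
  rw [← Real.exp_add]
  congr 1
  simp
  ring

lemma fm_sum (v : J → ℂ) {q p : ℝ} (hq : 0 < q) (hp : 0 < p) (A B : ℂ) (hA : A.re * p = q)
    (hne : 1 + B.re * p ≠ 0) :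
    ∑ j, ‖fm (∑ j, ‖v j‖ ^ q) A B (v j)‖ ^ p = (∑ j, ‖v j‖ ^ q) ^ (1 + B.re * p) := by
  set S := ∑ j, ‖v j‖ ^ q with hS
  have hS0 : 0 ≤ S := Finset.sum_nonneg fun j _ => by positivity
  rcases hS0.eq_or_lt with h | h
  · have hv : ∀ j, v j = 0 := by
      intro j
      have h1 := (Finset.sum_eq_zero_iff_of_nonneg (fun j _ => by positivity)).1 h.symm j (Finset.mem_univ j)
      have h2 := (Real.rpow_eq_zero (norm_nonneg _) hq.ne').1 h1
      exact norm_eq_zero.1 h2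
    rw [← h, Real.zero_rpow hne]
    apply Finset.sum_eq_zero
    intro j _
    rw [hv j, fm, if_pos rfl, norm_zero, Real.zero_rpow hp.ne']
  · have h1 : ∀ j, ‖fm S A B (v j)‖ ^ p = ‖v j‖ ^ q * S ^ (B.re * p) := by
      intro j
      by_cases hj : v j = 0
      · rw [hj, fm, if_pos rfl, norm_zero, Real.zero_rpow hp.ne', Real.zero_rpow hq.ne', zero_mul]
      · rw [fm_norm h A B _ hj, Real.mul_rpow (by positivity) (by positivity),
          ← Real.rpow_mul (norm_nonneg _), ← Real.rpow_mul h.le, hA]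
    simp_rw [h1]
    rw [← Finset.sum_mul, ← hS, Real.rpow_add h, Real.rpow_one]

lemma fm_half (S : ℝ) (c : ℂ) : fm S 1 0 c = c := by
  unfold fm
  split_ifs with h
  · exact h.symm
  · simp

lemma fm_differentiable (S : ℝ) (a₀ a₁ b₀ b₁ : ℂ) (c : ℂ) :
    Differentiable ℂ (fun z => fm S (a₀ + a₁ * z) (b₀ + b₁ * z) c) := by
  unfold fm
  split_ifs with h
  · exact differentiable_const 0
  · fun_prop

/-- real majorant -/
def fmr (S : ℝ) (a b : ℝ) (c : ℂ) : ℝ := ‖c‖ * Real.exp ((a - 1) * Real.log ‖c‖ + b * Real.log S)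

lemma fm_le (S : ℝ) (A B c : ℂ) : ‖fm S A B c‖ ≤ fmr S A.re B.re c := by
  unfold fm fmr
  split_ifs with h
  · rw [norm_zero]; positivity
  · rw [norm_mul, Complex.norm_exp]
    simp

theorem three_lines_normalized {μ : I → ℝ} {β : I → I → ℂ} {c : ℝ} (hc : 0 ≤ c)
    (hα : ∀ v w : I → J → ℂ, ‖Bf β v w‖ ≤ c * (∑ i, μ i * ∑ j, ‖v i j‖ ^ (4 : ℝ)) ^ ((1 : ℝ) / 4)
      * (∑ i, μ i * ∑ j, ‖w i j‖ ^ ((4 : ℝ) / 3)) ^ ((3 : ℝ) / 4))
    (hβ : ∀ v w : I → J → ℂ, ‖Bf β v w‖ ≤ c * (∑ i, μ i * (∑ j, ‖v i j‖ ^ (2 : ℝ)) ^ ((2 : ℝ) / 3)) ^ ((3 : ℝ) / 4)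
      * (∑ i, μ i * (∑ j, ‖w i j‖ ^ (2 : ℝ)) ^ (2 : ℝ)) ^ ((1 : ℝ) / 4))
    (v w : I → J → ℂ) (hv : ∑ i, μ i * (∑ j, ‖v i j‖ ^ ((8 : ℝ) / 3)) ^ ((3 : ℝ) / 4) = 1)
    (hw : ∑ i, μ i * (∑ j, ‖w i j‖ ^ ((8 : ℝ) / 5)) ^ ((5 : ℝ) / 4) = 1) :
    ‖Bf β v w‖ ≤ c := by
  set S : I → ℝ := fun i => ∑ j, ‖v i j‖ ^ ((8 : ℝ) / 3) with hS
  set T : I → ℝ := fun i => ∑ j, ‖w i j‖ ^ ((8 : ℝ) / 5) with hT
  have hS0 : ∀ i, 0 ≤ S i := fun i => Finset.sum_nonneg fun j _ => by positivity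
  have hT0 : ∀ i, 0 ≤ T i := fun i => Finset.sum_nonneg fun j _ => by positivity
  set V : ℂ → I → J → ℂ := fun z i j => fm (S i) (2/3 + 2/3 * z) (-1/16 + 1/8 * z) (v i j) with hV
  set W : ℂ → I → J → ℂ := fun z i j => fm (T i) (6/5 + (-2/5) * z) (3/16 + (-3/8) * z) (w i j) with hW
  set F : ℂ → ℂ := fun z => Bf β (V z) (W z) with hF
  have hhalf : F (1/2) = Bf β v w := by
    have h1 : V (1/2) = v := by
      funext i j
      simp only [hV]
      have e1 : (2/3 + 2/3 * (1/2) : ℂ) = 1 := by norm_num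
      have e2 : (-1/16 + 1/8 * (1/2) : ℂ) = 0 := by norm_num
      rw [e1, e2, fm_half]
    have h2 : W (1/2) = w := by
      funext i j
      simp only [hW]
      have e1 : (6/5 + (-2/5) * (1/2) : ℂ) = 1 := by norm_num
      have e2 : (3/16 + (-3/8) * (1/2) : ℂ) = 0 := by norm_num
      rw [e1, e2, fm_half]
    simp only [hF]
    rw [h1, h2]
  have hd : Differentiable ℂ F := by
    simp only [hF, Bf, hV, hW]
    have h1 := fun i j => fm_differentiable (S i) (2/3) (2/3) (-1/16) (1/8) (v i j)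
    have h2 := fun i j => fm_differentiable (T i) (6/5) (-2/5) (3/16) (-3/8) (w i j)
    refine Differentiable.fun_sum fun i _ => Differentiable.fun_sum fun i' _ => ?_
    refine Differentiable.mul_const (Differentiable.fun_sum fun j _ => ?_) _
    exact (h1 i j).mul (h2 i' j)
  have hbd : BddAbove ((norm ∘ F) '' verticalClosedStrip 0 1) := by
    set G : ℝ → ℝ := fun x => ∑ i, ∑ i', (∑ j, fmr (S i) (2/3 + 2/3 * x) (-1/16 + 1/8 * x) (v i j) *
      fmr (T i') (6/5 + (-2/5) * x) (3/16 + (-3/8) * x) (w i' j)) * ‖β i i'‖ with hG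
    have hGc : Continuous G := by
      simp only [hG, fmr]
      fun_prop
    obtain ⟨M, hM⟩ := (isCompact_Icc (a := (0 : ℝ)) (b := 1)).bddAbove_image hGc.continuousOn
    refine ⟨M, ?_⟩
    rintro _ ⟨z, hz, rfl⟩
    have hz' : z.re ∈ Set.Icc (0 : ℝ) 1 := hz
    refine le_trans ?_ (hM ⟨z.re, hz', rfl⟩)
    simp only [Function.comp, hF, Bf, hG]
    refine (norm_sum_le _ _).trans (Finset.sum_le_sum fun i _ => ?_)
    refine (norm_sum_le _ _).trans (Finset.sum_le_sum fun i' _ => ?_)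
    rw [norm_mul]
    gcongr
    refine (norm_sum_le _ _).trans (Finset.sum_le_sum fun j _ => ?_)
    rw [norm_mul]
    have k1 := fm_le (S i) (2/3 + 2/3 * z) (-1/16 + 1/8 * z) (v i j)
    have k2 := fm_le (T i') (6/5 + (-2/5) * z) (3/16 + (-3/8) * z) (w i' j)
    have r1 : (2/3 + 2/3 * z : ℂ).re = 2/3 + 2/3 * z.re := by simp
    have r2 : (-1/16 + 1/8 * z : ℂ).re = -1/16 + 1/8 * z.re := by simp
    have r3 : (6/5 + (-2/5) * z : ℂ).re = 6/5 + (-2/5) * z.re := by simp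
    have r4 : (3/16 + (-3/8) * z : ℂ).re = 3/16 + (-3/8) * z.re := by simp
    rw [r1, r2] at k1
    rw [r3, r4] at k2
    refine mul_le_mul k1 k2 (norm_nonneg _) ?_
    unfold fmr
    positivity
  have h0 : ∀ z ∈ Complex.re ⁻¹' {(0 : ℝ)}, ‖F z‖ ≤ c := by
    intro z hz
    have hz0 : z.re = 0 := hz
    have r1 : (2/3 + 2/3 * z : ℂ).re = 2/3 := by simp [hz0]
    have r2 : (-1/16 + 1/8 * z : ℂ).re = -1/16 := by simp [hz0]
    have r3 : (6/5 + (-2/5) * z : ℂ).re = 6/5 := by simp [hz0]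
    have r4 : (3/16 + (-3/8) * z : ℂ).re = 3/16 := by simp [hz0]
    have e1 : ∑ i, μ i * ∑ j, ‖V z i j‖ ^ (4 : ℝ) = 1 := by
      rw [← hv]
      refine Finset.sum_congr rfl fun i _ => ?_
      congr 1
      have := fm_sum (v i) (q := 8/3) (p := 4) (by norm_num) (by norm_num) (2/3 + 2/3 * z) (-1/16 + 1/8 * z)
        (by rw [r1]; norm_num) (by rw [r2]; norm_num)
      rw [r2] at this
      simp only [hV, hS]
      rw [this]
      norm_num
    have e2 : ∑ i, μ i * ∑ j, ‖W z i j‖ ^ ((4 : ℝ) / 3) = 1 := by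
      rw [← hw]
      refine Finset.sum_congr rfl fun i _ => ?_
      congr 1
      have := fm_sum (w i) (q := 8/5) (p := 4/3) (by norm_num) (by norm_num) (6/5 + (-2/5) * z) (3/16 + (-3/8) * z)
        (by rw [r3]; norm_num) (by rw [r4]; norm_num)
      rw [r4] at this
      simp only [hW, hT]
      rw [this]
      norm_num
    have := hα (V z) (W z)
    rw [e1, e2] at this
    simpa using this
  have h1 : ∀ z ∈ Complex.re ⁻¹' {(1 : ℝ)}, ‖F z‖ ≤ c := by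
    intro z hz
    have hz0 : z.re = 1 := hz
    have r1 : (2/3 + 2/3 * z : ℂ).re = 4/3 := by simp [hz0]; norm_num
    have r2 : (-1/16 + 1/8 * z : ℂ).re = 1/16 := by simp [hz0]; norm_num
    have r3 : (6/5 + (-2/5) * z : ℂ).re = 4/5 := by simp [hz0]; norm_num
    have r4 : (3/16 + (-3/8) * z : ℂ).re = -3/16 := by simp [hz0]; norm_num
    have e1 : ∑ i, μ i * (∑ j, ‖V z i j‖ ^ (2 : ℝ)) ^ ((2 : ℝ) / 3) = 1 := by
      rw [← hv]
      refine Finset.sum_congr rfl fun i _ => ?_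
      congr 1
      have := fm_sum (v i) (q := 8/3) (p := 2) (by norm_num) (by norm_num) (2/3 + 2/3 * z) (-1/16 + 1/8 * z)
        (by rw [r1]; norm_num) (by rw [r2]; norm_num)
      rw [r2] at this
      simp only [hV, hS]
      rw [this, ← Real.rpow_mul (Finset.sum_nonneg fun j _ => by positivity)]
      norm_num
    have e2 : ∑ i, μ i * (∑ j, ‖W z i j‖ ^ (2 : ℝ)) ^ (2 : ℝ) = 1 := by
      rw [← hw]
      refine Finset.sum_congr rfl fun i _ => ?_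
      congr 1
      have := fm_sum (w i) (q := 8/5) (p := 2) (by norm_num) (by norm_num) (6/5 + (-2/5) * z) (3/16 + (-3/8) * z)
        (by rw [r3]; norm_num) (by rw [r4]; norm_num)
      rw [r4] at this
      simp only [hW, hT]
      rw [this, ← Real.rpow_mul (Finset.sum_nonneg fun j _ => by positivity)]
      norm_num
    have := hβ (V z) (W z)
    rw [e1, e2] at this
    simpa using this
  have hmain := norm_le_interp_of_mem_verticalClosedStrip₀₁' F (z := 1/2) (a := c) (b := c)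
    (by simp [verticalClosedStrip]; norm_num) hd.diffContOnCl hbd h0 h1
  rw [hhalf] at hmain
  refine hmain.trans (le_of_eq ?_)
  rcases hc.eq_or_lt with h | h
  · rw [← h]
    norm_num
  · rw [← Real.rpow_add h]
    norm_num

lemma Bf_smul (β : I → I → ℂ) (v w : I → J → ℂ) (a b : ℂ) :
    Bf β (fun i j => a * v i j) (fun i j => b * w i j) = a * b * Bf β v w := by
  unfold Bf
  rw [Finset.mul_sum]
  refine Finset.sum_congr rfl fun i _ => ?_
  rw [Finset.mul_sum]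
  refine Finset.sum_congr rfl fun i' _ => ?_
  rw [← mul_assoc, Finset.mul_sum]
  congr 1
  refine Finset.sum_congr rfl fun j _ => ?_
  ring

theorem three_lines {μ : I → ℝ} (hμ : ∀ i, 0 ≤ μ i) {β : I → I → ℂ} {c : ℝ} (hc : 0 ≤ c)
    (hα : ∀ v w : I → J → ℂ, ‖Bf β v w‖ ≤ c * (∑ i, μ i * ∑ j, ‖v i j‖ ^ (4 : ℝ)) ^ ((1 : ℝ) / 4)
      * (∑ i, μ i * ∑ j, ‖w i j‖ ^ ((4 : ℝ) / 3)) ^ ((3 : ℝ) / 4))
    (hβ : ∀ v w : I → J → ℂ, ‖Bf β v w‖ ≤ c * (∑ i, μ i * (∑ j, ‖v i j‖ ^ (2 : ℝ)) ^ ((2 : ℝ) / 3)) ^ ((3 : ℝ) / 4)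
      * (∑ i, μ i * (∑ j, ‖w i j‖ ^ (2 : ℝ)) ^ (2 : ℝ)) ^ ((1 : ℝ) / 4))
    (v w : I → J → ℂ) :
    ‖Bf β v w‖ ≤ c * (∑ i, μ i * (∑ j, ‖v i j‖ ^ ((8 : ℝ) / 3)) ^ ((3 : ℝ) / 4)) ^ ((1 : ℝ) / 2)
      * (∑ i, μ i * (∑ j, ‖w i j‖ ^ ((8 : ℝ) / 5)) ^ ((5 : ℝ) / 4)) ^ ((1 : ℝ) / 2) := by
  set X := ∑ i, μ i * (∑ j, ‖v i j‖ ^ ((8 : ℝ) / 3)) ^ ((3 : ℝ) / 4) with hX
  set Y := ∑ i, μ i * (∑ j, ‖w i j‖ ^ ((8 : ℝ) / 5)) ^ ((5 : ℝ) / 4) with hY
  have hX0 : 0 ≤ X := Finset.sum_nonneg fun i _ => mul_nonneg (hμ i) (by positivity)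
  have hY0 : 0 ≤ Y := Finset.sum_nonneg fun i _ => mul_nonneg (hμ i) (by positivity)
  rcases hX0.eq_or_lt with h | h
  · have h1 : ∀ i, μ i = 0 ∨ ∀ j, v i j = 0 := by
      intro i
      have h2 := (Finset.sum_eq_zero_iff_of_nonneg (fun i _ => mul_nonneg (hμ i) (by positivity))).1 h.symm i (Finset.mem_univ i)
      rcases mul_eq_zero.1 h2 with h3 | h3
      · exact Or.inl h3
      · right
        intro j
        rw [Real.rpow_eq_zero (by positivity) (by norm_num)] at h3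
        have h4 := (Finset.sum_eq_zero_iff_of_nonneg (fun j _ => by positivity)).1 h3 j (Finset.mem_univ j)
        exact norm_eq_zero.1 ((Real.rpow_eq_zero (norm_nonneg _) (by norm_num)).1 h4)
    have h2 : ∑ i, μ i * ∑ j, ‖v i j‖ ^ (4 : ℝ) = 0 := by
      refine Finset.sum_eq_zero fun i _ => ?_
      rcases h1 i with h3 | h3
      · rw [h3, zero_mul]
      · simp [h3]
    have := hα v w
    rw [h2, Real.zero_rpow (by norm_num), mul_zero, zero_mul] at this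
    refine this.trans (by positivity)
  rcases hY0.eq_or_lt with h' | h'
  · have h1 : ∀ i, μ i = 0 ∨ ∀ j, w i j = 0 := by
      intro i
      have h2 := (Finset.sum_eq_zero_iff_of_nonneg (fun i _ => mul_nonneg (hμ i) (by positivity))).1 h'.symm i (Finset.mem_univ i)
      rcases mul_eq_zero.1 h2 with h3 | h3
      · exact Or.inl h3
      · right
        intro j
        rw [Real.rpow_eq_zero (by positivity) (by norm_num)] at h3
        have h4 := (Finset.sum_eq_zero_iff_of_nonneg (fun j _ => by positivity)).1 h3 j (Finset.mem_univ j)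
        exact norm_eq_zero.1 ((Real.rpow_eq_zero (norm_nonneg _) (by norm_num)).1 h4)
    have h2 : ∑ i, μ i * ∑ j, ‖w i j‖ ^ ((4 : ℝ) / 3) = 0 := by
      refine Finset.sum_eq_zero fun i _ => ?_
      rcases h1 i with h3 | h3
      · rw [h3, zero_mul]
      · simp [h3]
    have := hα v w
    rw [h2, Real.zero_rpow (by norm_num), mul_zero] at this
    refine this.trans (by positivity)
  set a : ℝ := X ^ (-(1 : ℝ) / 2) with ha
  set b : ℝ := Y ^ (-(1 : ℝ) / 2) with hb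
  have ha0 : 0 < a := Real.rpow_pos_of_pos h _
  have hb0 : 0 < b := Real.rpow_pos_of_pos h' _
  have key := three_lines_normalized hc hα hβ (fun i j => (a : ℂ) * v i j) (fun i j => (b : ℂ) * w i j) (by
    have e : ∀ i, (∑ j, ‖(a : ℂ) * v i j‖ ^ ((8 : ℝ) / 3)) ^ ((3 : ℝ) / 4) = a ^ (2 : ℝ) * (∑ j, ‖v i j‖ ^ ((8 : ℝ) / 3)) ^ ((3 : ℝ) / 4) := by
      intro i
      have e1 : ∀ j, ‖(a : ℂ) * v i j‖ ^ ((8 : ℝ) / 3) = a ^ ((8 : ℝ) / 3) * ‖v i j‖ ^ ((8 : ℝ) / 3) := by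
        intro j
        rw [norm_mul, Complex.norm_real, Real.norm_of_nonneg ha0.le, Real.mul_rpow ha0.le (norm_nonneg _)]
      simp_rw [e1]
      rw [← Finset.mul_sum, Real.mul_rpow (by positivity) (by positivity), ← Real.rpow_mul ha0.le]
      norm_num
    simp_rw [e]
    have e2 : ∀ i, μ i * (a ^ (2 : ℝ) * (∑ j, ‖v i j‖ ^ ((8 : ℝ) / 3)) ^ ((3 : ℝ) / 4))
        = a ^ (2 : ℝ) * (μ i * (∑ j, ‖v i j‖ ^ ((8 : ℝ) / 3)) ^ ((3 : ℝ) / 4)) := by
      intro i; ring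
    simp_rw [e2]
    rw [← Finset.mul_sum, ← hX, ha, ← Real.rpow_mul h.le]
    norm_num
    first
      | exact inv_mul_cancel₀ h.ne'
      | (rw [Real.rpow_neg_one]; exact inv_mul_cancel₀ h.ne')) (by
    have e : ∀ i, (∑ j, ‖(b : ℂ) * w i j‖ ^ ((8 : ℝ) / 5)) ^ ((5 : ℝ) / 4) = b ^ (2 : ℝ) * (∑ j, ‖w i j‖ ^ ((8 : ℝ) / 5)) ^ ((5 : ℝ) / 4) := by
      intro i
      have e1 : ∀ j, ‖(b : ℂ) * w i j‖ ^ ((8 : ℝ) / 5) = b ^ ((8 : ℝ) / 5) * ‖w i j‖ ^ ((8 : ℝ) / 5) := by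
        intro j
        rw [norm_mul, Complex.norm_real, Real.norm_of_nonneg hb0.le, Real.mul_rpow hb0.le (norm_nonneg _)]
      simp_rw [e1]
      rw [← Finset.mul_sum, Real.mul_rpow (by positivity) (by positivity), ← Real.rpow_mul hb0.le]
      norm_num
    simp_rw [e]
    have e2 : ∀ i, μ i * (b ^ (2 : ℝ) * (∑ j, ‖w i j‖ ^ ((8 : ℝ) / 5)) ^ ((5 : ℝ) / 4))
        = b ^ (2 : ℝ) * (μ i * (∑ j, ‖w i j‖ ^ ((8 : ℝ) / 5)) ^ ((5 : ℝ) / 4)) := by
      intro i; ring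
    simp_rw [e2]
    rw [← Finset.mul_sum, ← hY, hb, ← Real.rpow_mul h'.le]
    norm_num
    first
      | exact inv_mul_cancel₀ h'.ne'
      | (rw [Real.rpow_neg_one]; exact inv_mul_cancel₀ h'.ne'))
  rw [Bf_smul, norm_mul, norm_mul, Complex.norm_real, Complex.norm_real, Real.norm_of_nonneg ha0.le,
    Real.norm_of_nonneg hb0.le] at key
  have ea : a * X ^ ((1 : ℝ) / 2) = 1 := by
    rw [ha, ← Real.rpow_add h]; norm_num
  have eb : b * Y ^ ((1 : ℝ) / 2) = 1 := by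
    rw [hb, ← Real.rpow_add h']; norm_num
  calc ‖Bf β v w‖ = (a * X ^ ((1 : ℝ) / 2)) * (b * Y ^ ((1 : ℝ) / 2)) * ‖Bf β v w‖ := by rw [ea, eb]; ring
    _ = (a * b * ‖Bf β v w‖) * (X ^ ((1 : ℝ) / 2) * Y ^ ((1 : ℝ) / 2)) := by ring
    _ ≤ c * (X ^ ((1 : ℝ) / 2) * Y ^ ((1 : ℝ) / 2)) := by gcongr
    _ = _ := by ring

end

end Pool.Agent.Helper604.UMD
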