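import Mathlib
import Pool.Agent.Helper604.UMD.Ext
import Pool.Agent.Helper604.UMD.TL

open MeasureTheory FourierTransform SchwartzMap Complex Filter Topology
open scoped ENNReal NNReal Convolution ComplexConjugate

namespace Pool.Agent.Helper604.UMD

noncomputable section

/-- bilinear pairing on `L_2` -/
def pair : L2 →L[ℂ] L2 →L[ℂ] ℂ := (ContinuousLinearMap.mul ℂ ℂ).lpPairing volume 2 2

lemma pair_apply (f g : L2) : pair f g = ∫ x, f x * g x := by
  rw [pair, ContinuousLinearMap.lpPairing_eq_integral]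
  simp

lemma integral_hilbertT_mul (f g : 𝓢(ℝ, ℂ)) :
    ∫ x, hilbertT f x * g x = - ∫ x, f x * hilbertT g x := by
  have h1 : ∫ x, hilbertT f x * g x = ∫ x, (sym x * 𝓕 (f : ℝ → ℂ) x) * 𝓕⁻ (g : ℝ → ℂ) x :=
    integral_fourierInv_mul (sfhat_integrable f) g.integrable
  have h2 : ∫ x, hilbertT g x * f x = ∫ x, (sym x * 𝓕 (g : ℝ → ℂ) x) * 𝓕⁻ (f : ℝ → ℂ) x :=
    integral_fourierInv_mul (sfhat_integrable g) f.integrable
  have h3 : ∫ x, f x * hilbertT g x = ∫ x, hilbertT g x * f x := by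
    congr 1; funext x; ring
  rw [h3, h1, h2, ← integral_neg_eq_self (fun x => (sym x * 𝓕 (g : ℝ → ℂ) x) * 𝓕⁻ (f : ℝ → ℂ) x),
    ← integral_neg]
  congr 1
  funext x
  rw [sym_flip, Real.fourierInv_eq_fourier_neg, Real.fourierInv_eq_fourier_neg, neg_neg]
  ring

lemma pair_schwartz (f g : 𝓢(ℝ, ℂ)) :
    pair (HL (f.toLp 2)) (g.toLp 2) = - pair (f.toLp 2) (HL (g.toLp 2)) := by
  rw [pair_apply, pair_apply]
  have h1 : ∫ x, (HL (f.toLp 2) : ℝ → ℂ) x * (g.toLp 2 : L2) x = ∫ x, hilbertT f x * g x := by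
    apply integral_congr_ae
    filter_upwards [HL_schwartz f, g.coeFn_toLp 2] with x h1 h2
    rw [h1, h2]
  have h2 : ∫ x, (f.toLp 2 : L2) x * (HL (g.toLp 2) : ℝ → ℂ) x = ∫ x, f x * hilbertT g x := by
    apply integral_congr_ae
    filter_upwards [HL_schwartz g, f.coeFn_toLp 2] with x h1 h2
    rw [h1, h2]
  rw [h1, h2, integral_hilbertT_mul]

lemma pair_HL (u v : L2) : pair (HL u) v = - pair u (HL v) := by
  have hd : DenseRange (fun f : 𝓢(ℝ, ℂ) => (f.toLp 2 : L2)) :=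
    SchwartzMap.denseRange_toLpCLM (E := ℝ) (F := ℂ) (p := 2) (μ := volume) (by norm_num)
  refine hd.induction_on₂ (p := fun u v => pair (HL u) v = - pair u (HL v)) ?_ ?_ u v
  · apply isClosed_eq
    · fun_prop
    · fun_prop
  · intro f g
    exact pair_schwartz f g

variable {I J : Type*} [Fintype I] [Fintype J]

/-- `p`-th power of the `L_p(ℓ_r)` norm -/
def M (r p : ℝ) (f : J → ℝ → ℂ) : ℝ≥0∞ := ∫⁻ x, ENNReal.ofReal ((∑ j, ‖f j x‖ ^ r) ^ (p / r))

lemma holder_real {A B : ℝ → ℝ} (hA : AEMeasurable A volume) (hB : AEMeasurable B volume)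
    (hA0 : ∀ x, 0 ≤ A x) (hB0 : ∀ x, 0 ≤ B x) {p q : ℝ} (hpq : p.HolderConjugate q) :
    ∫⁻ x, ENNReal.ofReal (A x * B x) ≤
      (∫⁻ x, ENNReal.ofReal (A x ^ p)) ^ (1 / p) * (∫⁻ x, ENNReal.ofReal (B x ^ q)) ^ (1 / q) := by
  have h := ENNReal.lintegral_mul_le_Lp_mul_Lq (volume : Measure ℝ) hpq
    (f := fun x => ENNReal.ofReal (A x)) (g := fun x => ENNReal.ofReal (B x))
    hA.ennreal_ofReal hB.ennreal_ofReal
  have e1 : ∀ x, ENNReal.ofReal (A x * B x) = ENNReal.ofReal (A x) * ENNReal.ofReal (B x) :=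
    fun x => ENNReal.ofReal_mul (hA0 x)
  have e2 : ∀ x, ENNReal.ofReal (A x ^ p) = ENNReal.ofReal (A x) ^ p :=
    fun x => (ENNReal.ofReal_rpow_of_nonneg (hA0 x) hpq.pos.le).symm
  have e3 : ∀ x, ENNReal.ofReal (B x ^ q) = ENNReal.ofReal (B x) ^ q :=
    fun x => (ENNReal.ofReal_rpow_of_nonneg (hB0 x) hpq.symm.pos.le).symm
  simp_rw [e1, e2, e3]
  exact h

lemma pair_sum_bound (f g : J → L2) {r s p q : ℝ} (hrs : r.HolderConjugate s)
    (hpq : p.HolderConjugate q) :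
    ‖∑ j, pair (f j) (g j)‖ₑ ≤ (M r p fun j => (f j : ℝ → ℂ)) ^ (1 / p) *
      (M s q fun j => (g j : ℝ → ℂ)) ^ (1 / q) := by
  have hr := hrs.pos
  have hs := hrs.symm.pos
  have mf : ∀ j, AEMeasurable (fun x => ‖f j x‖) volume := fun j => (Lp.memLp (f j)).1.aemeasurable.norm
  have mg : ∀ j, AEMeasurable (fun x => ‖g j x‖) volume := fun j => (Lp.memLp (g j)).1.aemeasurable.norm
  have h1 : ‖∑ j, pair (f j) (g j)‖ₑ ≤ ∫⁻ x, ENNReal.ofReal (∑ j, ‖f j x‖ * ‖g j x‖) := by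
    have hint : ∀ j, Integrable (fun x => f j x * g j x) := fun j =>
      (Lp.memLp (f j)).integrable_mul (Lp.memLp (g j))
    have e1 : ∑ j, pair (f j) (g j) = ∫ x, ∑ j, f j x * g j x := by
      rw [integral_finsetSum _ fun j _ => hint j]
      simp_rw [pair_apply]
    rw [e1]
    refine (enorm_integral_le_lintegral_enorm _).trans (lintegral_mono fun x => ?_)
    rw [← ofReal_norm]
    refine ENNReal.ofReal_le_ofReal ((norm_sum_le _ _).trans (le_of_eq ?_))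
    simp_rw [norm_mul]
  refine h1.trans ?_
  have h2 := holder_real (A := fun x => (∑ j, ‖f j x‖ ^ r) ^ (1 / r)) (B := fun x => (∑ j, ‖g j x‖ ^ s) ^ (1 / s))
    (by
      refine AEMeasurable.pow_const ?_ _
      exact Finset.aemeasurable_fun_sum _ fun j _ => (mf j).pow_const _)
    (by
      refine AEMeasurable.pow_const ?_ _
      exact Finset.aemeasurable_fun_sum _ fun j _ => (mg j).pow_const _)
    (fun x => by positivity) (fun x => by positivity) hpq
  have h3 : ∫⁻ x, ENNReal.ofReal (∑ j, ‖f j x‖ * ‖g j x‖) ≤ ∫⁻ x, ENNReal.ofReal ((∑ j, ‖f j x‖ ^ r) ^ (1 / r) *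
      (∑ j, ‖g j x‖ ^ s) ^ (1 / s)) := by
    refine lintegral_mono fun x => ENNReal.ofReal_le_ofReal ?_
    have := Real.inner_le_Lp_mul_Lq (Finset.univ) (fun j => ‖f j x‖) (fun j => ‖g j x‖) hrs
    simpa using this
  refine (h3.trans h2).trans (le_of_eq ?_)
  have e4 : ∀ x, ((∑ j, ‖f j x‖ ^ r) ^ (1 / r)) ^ p = (∑ j, ‖f j x‖ ^ r) ^ (p / r) := by
    intro x
    rw [← Real.rpow_mul (by positivity)]
    congr 1
    ring
  have e5 : ∀ x, ((∑ j, ‖g j x‖ ^ s) ^ (1 / s)) ^ q = (∑ j, ‖g j x‖ ^ s) ^ (q / s) := by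
    intro x
    rw [← Real.rpow_mul (by positivity)]
    congr 1
    ring
  simp only [M, e4, e5]

lemma M_congr {r p : ℝ} {u v : J → ℝ → ℂ} (h : ∀ j, u j =ᵐ[volume] v j) : M r p u = M r p v := by
  unfold M
  apply lintegral_congr_ae
  filter_upwards [ae_all_iff.2 h] with x hx
  simp [hx]

lemma Q_eq_M (u : J → ℝ → ℂ) : Q u = M 2 4 u := by
  unfold Q M sqf
  congr 1
  funext x
  congr 1
  norm_num

/-- `L_4(ℓ_2)` bound for the Hilbert transform. -/
lemma HL_M24 (u : J → L2) : M 2 4 (fun j => (HL (u j) : ℝ → ℂ)) ≤ 36 * M 2 4 (fun j => (u j : ℝ → ℂ)) := by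
  rw [← Q_eq_M, ← Q_eq_M]
  exact four_L2 u

/-- `L_4(ℓ_4)` bound for the Hilbert transform. -/
lemma HL_M44 (u : J → L2) : M 4 4 (fun j => (HL (u j) : ℝ → ℂ)) ≤ 36 * M 4 4 (fun j => (u j : ℝ → ℂ)) := by
  have h1 : ∀ f : J → L2, M 4 4 (fun j => (f j : ℝ → ℂ)) = ∑ j, M 2 4 (fun _ : Unit => (f j : ℝ → ℂ)) := by
    intro f
    unfold M
    rw [← lintegral_finsetSum']
    · congr 1
      funext x
      rw [← ENNReal.ofReal_sum_of_nonneg fun j _ => by positivity]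
      congr 1
      norm_num
      refine Finset.sum_congr rfl fun j _ => ?_
      ring
    · intro j _
      refine AEMeasurable.ennreal_ofReal ?_
      refine AEMeasurable.pow_const ?_ _
      exact Finset.aemeasurable_fun_sum _ fun _ _ => ((Lp.memLp (f j)).1.aemeasurable.norm).pow_const _
  rw [h1, h1, Finset.mul_sum]
  exact Finset.sum_le_sum fun j _ => HL_M24 (fun _ : Unit => u j)

end

end Pool.Agent.Helper604.UMD
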