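import Mathlib
import Pool.Agent.Helper604.UMD.Pair

open MeasureTheory FourierTransform SchwartzMap Complex Filter Topology
open scoped ENNReal NNReal Convolution ComplexConjugate

namespace Pool.Agent.Helper604.UMD

noncomputable section

variable {I J : Type*} [Fintype I] [Fintype J]

section
variable {E : I → Set ℝ} (hE : ∀ i, MeasurableSet (E i)) (hfin : ∀ i, volume (E i) ≠ ∞)
  (hdis : Pairwise (Function.onFun Disjoint E))

/-- indicator of an atom in `L_2` -/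
def ind (i : I) : L2 := indicatorConstLp 2 (hE i) (hfin i) (1 : ℂ)

/-- simple vector function with values `v i` on the atom `E i` -/
def Fv (v : I → J → ℂ) (j : J) : L2 := ∑ i, v i j • ind hE hfin i

lemma Fv_coe (v : I → J → ℂ) : ∀ᵐ x, ∀ j, (Fv hE hfin v j : ℝ → ℂ) x = ∑ i, v i j * (E i).indicator (fun _ => (1 : ℂ)) x := by
  rw [ae_all_iff]
  intro j
  have h1 : (Fv hE hfin v j : ℝ → ℂ) =ᵐ[volume] fun x => ∑ i, (v i j • ind hE hfin i : L2) x := by
    refine (Lp.coeFn_finsetSum _ _).trans ?_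
    exact Filter.Eventually.of_forall fun x => by simp
  have h2 : ∀ᵐ x, ∀ i, (v i j • ind hE hfin i : L2) x = v i j * (E i).indicator (fun _ => (1 : ℂ)) x := by
    rw [ae_all_iff]
    intro i
    filter_upwards [Lp.coeFn_smul (v i j) (ind hE hfin i), (indicatorConstLp_coeFn (p := 2) (hs := hE i) (hμs := hfin i) (c := (1 : ℂ)))] with x k1 k2
    rw [k1, Pi.smul_apply, smul_eq_mul, ind, k2]
  filter_upwards [h1, h2] with x k1 k2
  rw [k1]
  exact Finset.sum_congr rfl fun i _ => k2 i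

include hdis in
lemma lint_Fv (v : I → J → ℂ) (Φ : (J → ℂ) → ℝ≥0∞) (h0 : Φ 0 = 0) :
    ∫⁻ x, Φ (fun j => (Fv hE hfin v j : ℝ → ℂ) x) = ∑ i, Φ (v i) * volume (E i) := by
  classical
  have h1 : ∫⁻ x, Φ (fun j => (Fv hE hfin v j : ℝ → ℂ) x) = ∫⁻ x, ∑ i, (E i).indicator (fun _ => Φ (v i)) x := by
    apply lintegral_congr_ae
    filter_upwards [Fv_coe hE hfin v] with x hx
    have hx' : (fun j => (Fv hE hfin v j : ℝ → ℂ) x) = fun j => ∑ i, v i j * (E i).indicator (fun _ => (1 : ℂ)) x := by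
      funext j
      exact hx j
    rw [hx']
    by_cases hex : ∃ i, x ∈ E i
    · obtain ⟨i0, hi0⟩ := hex
      have hne : ∀ i, i ≠ i0 → x ∉ E i := by
        intro i hi hxi
        exact Set.disjoint_left.1 (hdis hi) hxi hi0
      rw [Finset.sum_eq_single i0 (fun i _ hi => Set.indicator_of_notMem (hne i hi) _) (by simp),
        Set.indicator_of_mem hi0]
      congr 1
      funext j
      rw [Finset.sum_eq_single i0 (fun i _ hi => by rw [Set.indicator_of_notMem (hne i hi), mul_zero]) (by simp),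
        Set.indicator_of_mem hi0, mul_one]
    · push Not at hex
      rw [Finset.sum_eq_zero fun i _ => Set.indicator_of_notMem (hex i) _]
      convert h0 using 2
      funext j
      exact Finset.sum_eq_zero fun i _ => by rw [Set.indicator_of_notMem (hex i), mul_zero]
  rw [h1, lintegral_finsetSum']
  · refine Finset.sum_congr rfl fun i _ => ?_
    rw [lintegral_indicator_const (hE i)]
  · intro i _
    exact (measurable_const.indicator (hE i)).aemeasurable

/-- measure weights -/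
def wt (E : I → Set ℝ) (i : I) : ℝ := (volume (E i)).toReal

include hdis in
lemma M_Fv (v : I → J → ℂ) {r p : ℝ} (hr : 0 < r) (hp : 0 < p) :
    M r p (fun j => (Fv hE hfin v j : ℝ → ℂ)) = ENNReal.ofReal (∑ i, wt E i * (∑ j, ‖v i j‖ ^ r) ^ (p / r)) := by
  have := lint_Fv hE hfin hdis v (fun z => ENNReal.ofReal ((∑ j, ‖z j‖ ^ r) ^ (p / r))) (by
    simp [Real.zero_rpow hr.ne', Real.zero_rpow (div_pos hp hr).ne'])
  rw [M, this, ENNReal.ofReal_sum_of_nonneg]
  · refine Finset.sum_congr rfl fun i _ => ?_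
    rw [wt, ENNReal.ofReal_mul ENNReal.toReal_nonneg, ENNReal.ofReal_toReal (hfin i), mul_comm]
  · intro i _
    exact mul_nonneg ENNReal.toReal_nonneg (by positivity)

/-- matrix of the Hilbert transform -/
def bt (i i' : I) : ℂ := pair (HL (ind hE hfin i)) (ind hE hfin i')

lemma pair_Fv (v w : I → J → ℂ) :
    ∑ j, pair (HL (Fv hE hfin v j)) (Fv hE hfin w j) = Bf (bt hE hfin) v w := by
  have key : ∀ j, pair (HL (Fv hE hfin v j)) (Fv hE hfin w j) =
      ∑ i, ∑ i', v i j * w i' j * bt hE hfin i i' := by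
    intro j
    unfold Fv bt
    simp only [map_sum, map_smul, _root_.sum_apply, _root_.smul_apply, smul_eq_mul]
    rw [Finset.sum_comm]
    simp_rw [Finset.mul_sum]
    refine Finset.sum_congr rfl fun i _ => ?_
    refine Finset.sum_congr rfl fun i' _ => ?_
    ring
  simp_rw [key]
  unfold Bf
  rw [Finset.sum_comm]
  refine Finset.sum_congr rfl fun i _ => ?_
  rw [Finset.sum_comm]
  refine Finset.sum_congr rfl fun i' _ => ?_
  rw [Finset.sum_mul]

include hdis in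
theorem simple_bound (v w : I → J → ℂ) :
    ‖∑ j, pair (HL (Fv hE hfin v j)) (Fv hE hfin w j)‖ ≤
      (36 : ℝ) ^ ((1 : ℝ) / 4) * (∑ i, wt E i * (∑ j, ‖v i j‖ ^ ((8 : ℝ) / 3)) ^ ((3 : ℝ) / 4)) ^ ((1 : ℝ) / 2)
      * (∑ i, wt E i * (∑ j, ‖w i j‖ ^ ((8 : ℝ) / 5)) ^ ((5 : ℝ) / 4)) ^ ((1 : ℝ) / 2) := by
  rw [pair_Fv]
  have hw0 : ∀ i, 0 ≤ wt E i := fun i => ENNReal.toReal_nonneg
  refine three_lines (μ := wt E) hw0 (by positivity) ?_ ?_ v w
  · intro v w
    rw [← pair_Fv]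
    have h := pair_sum_bound (fun j => HL (Fv hE hfin v j)) (fun j => Fv hE hfin w j)
      (r := 4) (s := 4/3) (p := 4) (q := 4/3) (by rw [Real.holderConjugate_iff]; norm_num)
      (by rw [Real.holderConjugate_iff]; norm_num)
    have h1 := HL_M44 (fun j => Fv hE hfin v j)
    rw [M_Fv hE hfin hdis v (by norm_num) (by norm_num)] at h1
    rw [M_Fv hE hfin hdis w (by norm_num) (by norm_num)] at h
    have h2 : ‖∑ j, pair (HL (Fv hE hfin v j)) (Fv hE hfin w j)‖ₑ ≤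
        (36 * ENNReal.ofReal (∑ i, wt E i * (∑ j, ‖v i j‖ ^ (4 : ℝ)) ^ ((4 : ℝ) / 4))) ^ ((1 : ℝ) / 4) *
        ENNReal.ofReal (∑ i, wt E i * (∑ j, ‖w i j‖ ^ ((4 : ℝ) / 3)) ^ (((4 : ℝ) / 3) / (4 / 3))) ^ (1 / ((4 : ℝ) / 3)) := by
      refine h.trans ?_
      gcongr
    have n1 : (0 : ℝ) ≤ ∑ i, wt E i * (∑ j, ‖v i j‖ ^ (4 : ℝ)) ^ ((4 : ℝ) / 4) :=
      Finset.sum_nonneg fun i _ => mul_nonneg (hw0 i) (by positivity)
    have n2 : (0 : ℝ) ≤ ∑ i, wt E i * (∑ j, ‖w i j‖ ^ ((4 : ℝ) / 3)) ^ (((4 : ℝ) / 3) / (4 / 3)) :=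
      Finset.sum_nonneg fun i _ => mul_nonneg (hw0 i) (by positivity)
    set A1 := ∑ i, wt E i * (∑ j, ‖v i j‖ ^ (4 : ℝ)) ^ ((4 : ℝ) / 4) with hA1
    set A2 := ∑ i, wt E i * (∑ j, ‖w i j‖ ^ ((4 : ℝ) / 3)) ^ (((4 : ℝ) / 3) / (4 / 3)) with hA2
    have e36 : (36 : ℝ≥0∞) = ENNReal.ofReal 36 := by norm_num
    rw [e36, ← ENNReal.ofReal_mul (by norm_num), ENNReal.ofReal_rpow_of_nonneg (by positivity) (by norm_num),
      ENNReal.ofReal_rpow_of_nonneg (by positivity) (by norm_num), ← ENNReal.ofReal_mul (by positivity),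
      ← ofReal_norm, ENNReal.ofReal_le_ofReal_iff (by positivity)] at h2
    refine h2.trans (le_of_eq ?_)
    rw [Real.mul_rpow (by norm_num) (by positivity), hA1, hA2]
    norm_num
  · intro v w
    rw [← pair_Fv]
    have e0 : ∑ j, pair (HL (Fv hE hfin v j)) (Fv hE hfin w j) = - ∑ j, pair (Fv hE hfin v j) (HL (Fv hE hfin w j)) := by
      rw [← Finset.sum_neg_distrib]
      exact Finset.sum_congr rfl fun j _ => pair_HL _ _
    rw [e0, norm_neg]
    have h := pair_sum_bound (fun j => Fv hE hfin v j) (fun j => HL (Fv hE hfin w j))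
      (r := 2) (s := 2) (p := 4/3) (q := 4) (by rw [Real.holderConjugate_iff]; norm_num)
      (by rw [Real.holderConjugate_iff]; norm_num)
    have h1 := HL_M24 (fun j => Fv hE hfin w j)
    rw [M_Fv hE hfin hdis w (by norm_num) (by norm_num)] at h1
    rw [M_Fv hE hfin hdis v (by norm_num) (by norm_num)] at h
    have h2 : ‖∑ j, pair (Fv hE hfin v j) (HL (Fv hE hfin w j))‖ₑ ≤
        ENNReal.ofReal (∑ i, wt E i * (∑ j, ‖v i j‖ ^ (2 : ℝ)) ^ (((4 : ℝ) / 3) / 2)) ^ (1 / ((4 : ℝ) / 3)) *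
        (36 * ENNReal.ofReal (∑ i, wt E i * (∑ j, ‖w i j‖ ^ (2 : ℝ)) ^ ((4 : ℝ) / 2))) ^ ((1 : ℝ) / 4) := by
      refine h.trans ?_
      gcongr
    have n1 : (0 : ℝ) ≤ ∑ i, wt E i * (∑ j, ‖v i j‖ ^ (2 : ℝ)) ^ (((4 : ℝ) / 3) / 2) :=
      Finset.sum_nonneg fun i _ => mul_nonneg (hw0 i) (by positivity)
    have n2 : (0 : ℝ) ≤ ∑ i, wt E i * (∑ j, ‖w i j‖ ^ (2 : ℝ)) ^ ((4 : ℝ) / 2) :=
      Finset.sum_nonneg fun i _ => mul_nonneg (hw0 i) (by positivity)
    set A1 := ∑ i, wt E i * (∑ j, ‖v i j‖ ^ (2 : ℝ)) ^ (((4 : ℝ) / 3) / 2) with hA1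
    set A2 := ∑ i, wt E i * (∑ j, ‖w i j‖ ^ (2 : ℝ)) ^ ((4 : ℝ) / 2) with hA2
    have e36 : (36 : ℝ≥0∞) = ENNReal.ofReal 36 := by norm_num
    rw [e36, ← ENNReal.ofReal_mul (by norm_num), ENNReal.ofReal_rpow_of_nonneg (by positivity) (by norm_num),
      ENNReal.ofReal_rpow_of_nonneg (by positivity) (by norm_num), ← ENNReal.ofReal_mul (by positivity),
      ← ofReal_norm, ENNReal.ofReal_le_ofReal_iff (by positivity)] at h2
    refine h2.trans (le_of_eq ?_)
    rw [Real.mul_rpow (by norm_num) (by positivity), hA1, hA2]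
    norm_num
    ring

end

end

end Pool.Agent.Helper604.UMD
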