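import Mathlib
import Pool.Agent.Helper604.UMD.Simp

open MeasureTheory FourierTransform SchwartzMap Complex Filter Topology
open scoped ENNReal NNReal Convolution ComplexConjugate

namespace Pool.Agent.Helper604.UMD

noncomputable section

variable {J : Type*} [Fintype J]

/-- `ℓ_r` norm of a vector -/
def nr (r : ℝ) (z : J → ℂ) : ℝ := (∑ j, ‖z j‖ ^ r) ^ (1 / r)

lemma nr_nonneg (r : ℝ) (z : J → ℂ) : 0 ≤ nr r z := by unfold nr; positivity

lemma nr_add {r : ℝ} (hr : 1 ≤ r) (z w : J → ℂ) : nr r (z + w) ≤ nr r z + nr r w := by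
  unfold nr
  have h := Real.Lp_add_le (Finset.univ) (fun j => ‖z j‖) (fun j => ‖w j‖) hr
  have h2 : (∑ j, ‖(z + w) j‖ ^ r) ^ (1 / r) ≤ (∑ j, |‖z j‖ + ‖w j‖| ^ r) ^ (1 / r) := by
    refine Real.rpow_le_rpow (by positivity) ?_ (by positivity)
    refine Finset.sum_le_sum fun j _ => ?_
    refine Real.rpow_le_rpow (norm_nonneg _) ?_ (by linarith)
    rw [abs_of_nonneg (by positivity)]
    exact norm_add_le _ _
  refine h2.trans (h.trans ?_)
  simp

lemma nr_le {r : ℝ} (hr : 1 ≤ r) (z : J → ℂ) : nr r z ≤ Fintype.card J * ‖z‖ := by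
  unfold nr
  have hr0 : 0 < r := by linarith
  have h1 : ∑ j, ‖z j‖ ^ r ≤ Fintype.card J * ‖z‖ ^ r := by
    calc ∑ j, ‖z j‖ ^ r ≤ ∑ _j : J, ‖z‖ ^ r := by
          refine Finset.sum_le_sum fun j _ => ?_
          exact Real.rpow_le_rpow (norm_nonneg _) (norm_le_pi_norm z j) hr0.le
      _ = _ := by simp
  calc (∑ j, ‖z j‖ ^ r) ^ (1 / r) ≤ (Fintype.card J * ‖z‖ ^ r) ^ (1 / r) :=
        Real.rpow_le_rpow (by positivity) h1 (by positivity)
    _ = (Fintype.card J : ℝ) ^ (1 / r) * ‖z‖ := by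
        rw [Real.mul_rpow (by positivity) (by positivity), ← Real.rpow_mul (norm_nonneg _)]
        rw [mul_one_div_cancel hr0.ne', Real.rpow_one]
    _ ≤ _ := by
        gcongr
        rcases Nat.eq_zero_or_pos (Fintype.card J) with h | h
        · rw [h]
          rw [Nat.cast_zero, Real.zero_rpow (by positivity)]
        · have h2 : (1 : ℝ) ≤ Fintype.card J := by exact_mod_cast h
          calc (Fintype.card J : ℝ) ^ (1 / r) ≤ (Fintype.card J : ℝ) ^ (1 : ℝ) := by
                refine Real.rpow_le_rpow_of_exponent_le h2 ?_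
                rw [div_le_one hr0]
                exact hr
            _ = _ := Real.rpow_one _

lemma M_eq {r : ℝ} (f : J → ℝ → ℂ) :
    (M r 2 f) ^ ((1 : ℝ) / 2) = eLpNorm (fun x => nr r (fun j => f j x)) 2 volume := by
  rw [eLpNorm_eq_lintegral_rpow_enorm_toReal (by norm_num) (by norm_num)]
  unfold M
  congr 1
  simp only [ENNReal.toReal_ofNat]
  congr 1
  funext x
  rw [← ofReal_norm, Real.norm_of_nonneg (nr_nonneg _ _), ENNReal.ofReal_rpow_of_nonneg (nr_nonneg _ _) (by norm_num)]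
  congr 1
  unfold nr
  rw [← Real.rpow_mul (by positivity)]
  congr 1
  ring

lemma nr_continuous {r : ℝ} (hr : 1 ≤ r) : Continuous (nr (J := J) r) := by
  have hr0 : 0 < r := by linarith
  unfold nr
  refine Continuous.rpow_const ?_ fun _ => Or.inr (by positivity)
  refine continuous_finsetSum _ fun j _ => ?_
  exact ((continuous_apply j).norm).rpow_const fun _ => Or.inr hr0.le

/-- simple-function case with common partition -/
lemma simple_case (G : SimpleFunc ℝ ((J → ℂ) × (J → ℂ))) (hG : MemLp G 2 (volume : Measure ℝ))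
    (h1 : ∀ j, MemLp (fun x => (G x).1 j) 2 (volume : Measure ℝ))
    (h2 : ∀ j, MemLp (fun x => (G x).2 j) 2 (volume : Measure ℝ)) :
    ‖∑ j, pair (HL ((h1 j).toLp _)) ((h2 j).toLp _)‖ₑ ≤ ENNReal.ofReal ((36 : ℝ) ^ ((1 : ℝ) / 4)) *
      (M (8/3) 2 (fun j x => (G x).1 j)) ^ ((1 : ℝ) / 2) * (M (8/5) 2 (fun j x => (G x).2 j)) ^ ((1 : ℝ) / 2) := by
  classical
  set I := {y : (J → ℂ) × (J → ℂ) // y ∈ G.range.filter (fun y => y ≠ 0)} with hI
  let E : I → Set ℝ := fun y => G ⁻¹' {y.1}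
  have hE : ∀ i, MeasurableSet (E i) := fun i => G.measurableSet_preimage _
  have hfin : ∀ i, volume (E i) ≠ ∞ := fun i =>
    (SimpleFunc.measure_preimage_lt_top_of_memLp (by norm_num) (by norm_num) G hG i.1
      (Finset.mem_filter.1 i.2).2).ne
  have hdis : Pairwise (Function.onFun Disjoint E) := by
    intro i i' hii
    refine Set.disjoint_left.2 fun x hx hx' => hii ?_
    apply Subtype.ext
    have a1 : G x = i.1 := hx
    have a2 : G x = i'.1 := hx'
    rw [← a1, a2]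
  set v : I → J → ℂ := fun y j => y.1.1 j with hv
  set w : I → J → ℂ := fun y j => y.1.2 j with hw
  have key : ∀ (pr : (J → ℂ) × (J → ℂ) → J → ℂ) (_ : pr 0 = 0) (x : ℝ) (j : J),
      ∑ i : I, pr i.1 j * (E i).indicator (fun _ => (1 : ℂ)) x = pr (G x) j := by
    intro pr hpr x j
    by_cases hx : G x = 0
    · rw [hx, hpr, Pi.zero_apply]
      refine Finset.sum_eq_zero fun i _ => ?_
      have : x ∉ E i := by
        intro hxi
        have a1 : G x = i.1 := hxi
        exact (Finset.mem_filter.1 i.2).2 (by rw [← a1, hx])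
      rw [Set.indicator_of_notMem this, mul_zero]
    · have hmem : G x ∈ G.range.filter (fun y => y ≠ 0) :=
        Finset.mem_filter.2 ⟨SimpleFunc.mem_range_self G x, hx⟩
      rw [Finset.sum_eq_single (⟨G x, hmem⟩ : I)]
      · rw [Set.indicator_of_mem (show x ∈ E ⟨G x, hmem⟩ from rfl), mul_one]
      · intro i _ hi
        have : x ∉ E i := by
          intro hxi
          have a1 : G x = i.1 := hxi
          exact hi (Subtype.ext a1.symm)
        rw [Set.indicator_of_notMem this, mul_zero]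
      · simp
  have e1 : ∀ j, (h1 j).toLp _ = Fv hE hfin v j := by
    intro j
    apply Lp.ext
    filter_upwards [(h1 j).coeFn_toLp, Fv_coe hE hfin v] with x k1 k2
    rw [k1, k2 j]
    exact (key Prod.fst rfl x j).symm
  have e2 : ∀ j, (h2 j).toLp _ = Fv hE hfin w j := by
    intro j
    apply Lp.ext
    filter_upwards [(h2 j).coeFn_toLp, Fv_coe hE hfin w] with x k1 k2
    rw [k1, k2 j]
    exact (key Prod.snd rfl x j).symm
  simp_rw [e1, e2]
  have e3 : M (8/3) 2 (fun j x => (G x).1 j) = M (8/3) 2 (fun j => (Fv hE hfin v j : ℝ → ℂ)) := by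
    refine M_congr fun j => ?_
    filter_upwards [(h1 j).coeFn_toLp] with x k1
    rw [← e1, k1]
  have e4 : M (8/5) 2 (fun j x => (G x).2 j) = M (8/5) 2 (fun j => (Fv hE hfin w j : ℝ → ℂ)) := by
    refine M_congr fun j => ?_
    filter_upwards [(h2 j).coeFn_toLp] with x k1
    rw [← e2, k1]
  rw [e3, e4, M_Fv hE hfin hdis v (by norm_num) (by norm_num), M_Fv hE hfin hdis w (by norm_num) (by norm_num)]
  have hb := simple_bound hE hfin hdis v w
  have hw0 : ∀ i, 0 ≤ wt E i := fun i => ENNReal.toReal_nonneg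
  have n1 : (0 : ℝ) ≤ ∑ i, wt E i * (∑ j, ‖v i j‖ ^ ((8 : ℝ) / 3)) ^ ((2 : ℝ) / (8 / 3)) :=
    Finset.sum_nonneg fun i _ => mul_nonneg (hw0 i) (by positivity)
  have n2 : (0 : ℝ) ≤ ∑ i, wt E i * (∑ j, ‖w i j‖ ^ ((8 : ℝ) / 5)) ^ ((2 : ℝ) / (8 / 5)) :=
    Finset.sum_nonneg fun i _ => mul_nonneg (hw0 i) (by positivity)
  rw [ENNReal.ofReal_rpow_of_nonneg n1 (by norm_num), ENNReal.ofReal_rpow_of_nonneg n2 (by norm_num),
    ← ENNReal.ofReal_mul (by positivity), ← ENNReal.ofReal_mul (mul_nonneg (by positivity) (Real.rpow_nonneg n1 _)), ← ofReal_norm]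
  refine ENNReal.ofReal_le_ofReal (hb.trans (le_of_eq ?_))
  norm_num

/-- the joint vector function -/
def jv (u w : J → L2) (x : ℝ) : (J → ℂ) × (J → ℂ) := (fun j => u j x, fun j => w j x)

lemma jv_memLp (u w : J → L2) : MemLp (jv u w) 2 (volume : Measure ℝ) := by
  have hm : AEMeasurable (jv u w) volume := by
    refine AEMeasurable.prodMk ?_ ?_
    · rw [aemeasurable_pi_iff]
      exact fun j => (Lp.memLp (u j)).1.aemeasurable
    · rw [aemeasurable_pi_iff]
      exact fun j => (Lp.memLp (w j)).1.aemeasurable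
  have h1 : MemLp (fun x => ∑ j, ‖u j x‖ + ∑ j, ‖w j x‖) 2 (volume : Measure ℝ) :=
    (memLp_finsetSum _ fun j _ => (Lp.memLp (u j)).norm).add
      (memLp_finsetSum _ fun j _ => (Lp.memLp (w j)).norm)
  refine h1.of_le hm.aestronglyMeasurable (Eventually.of_forall fun x => ?_)
  have n1 : 0 ≤ ∑ j, ‖u j x‖ := Finset.sum_nonneg fun _ _ => norm_nonneg _
  have n2 : 0 ≤ ∑ j, ‖w j x‖ := Finset.sum_nonneg fun _ _ => norm_nonneg _
  rw [Real.norm_of_nonneg (add_nonneg n1 n2), Prod.norm_def]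
  refine max_le ?_ ?_
  · refine le_trans ?_ (le_add_of_nonneg_right n2)
    rw [pi_norm_le_iff_of_nonneg n1]
    intro j
    exact Finset.single_le_sum (f := fun j => ‖u j x‖) (fun _ _ => norm_nonneg _) (Finset.mem_univ j)
  · refine le_trans ?_ (le_add_of_nonneg_left n1)
    rw [pi_norm_le_iff_of_nonneg n2]
    intro j
    exact Finset.single_le_sum (f := fun j => ‖w j x‖) (fun _ _ => norm_nonneg _) (Finset.mem_univ j)

lemma eLpNorm_nr_le {r : ℝ} (hr : 1 ≤ r) {a b : ℝ → J → ℂ} (ha : AEMeasurable a volume) (hb : AEMeasurable b volume)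
    {c : ℝ → ℝ} (hc : ∀ x, ‖a x - b x‖ ≤ c x) :
    eLpNorm (fun x => nr r (a x)) 2 volume ≤ eLpNorm (fun x => nr r (b x)) 2 volume +
      ENNReal.ofReal (Fintype.card J) * eLpNorm c 2 volume := by
  have h1 : eLpNorm (fun x => nr r (a x)) 2 volume ≤
      eLpNorm ((fun x => nr r (b x)) + (fun x => nr r (a x - b x))) 2 volume := by
    refine eLpNorm_mono fun x => ?_
    rw [Real.norm_of_nonneg (nr_nonneg _ _), Pi.add_apply, Real.norm_of_nonneg (add_nonneg (nr_nonneg _ _) (nr_nonneg _ _))]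
    have := nr_add hr (b x) (a x - b x)
    simpa using this
  refine h1.trans ((eLpNorm_add_le ?_ ?_ (by norm_num)).trans ?_)
  · exact ((nr_continuous hr).measurable.comp_aemeasurable hb).aestronglyMeasurable
  · exact ((nr_continuous hr).measurable.comp_aemeasurable (ha.sub hb)).aestronglyMeasurable
  · gcongr
    refine eLpNorm_le_mul_eLpNorm_of_ae_le_mul (Eventually.of_forall fun x => ?_) 2
    rw [Real.norm_of_nonneg (nr_nonneg _ _)]
    refine (nr_le hr _).trans ?_
    gcongr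
    exact (hc x).trans (le_abs_self _)

lemma pair_cont : Continuous (fun p : L2 × L2 => pair p.1 p.2) := pair.continuous₂

lemma tt {X Y : Type*} [TopologicalSpace X] [TopologicalSpace Y] {f : X × X → Y} (h : Continuous f)
    {a b : ℕ → X} {a' b' : X} (ha : Tendsto a atTop (𝓝 a')) (hb : Tendsto b atTop (𝓝 b')) :
    Tendsto (fun m => f (a m, b m)) atTop (𝓝 (f (a', b'))) := by
  have h2 : Tendsto (fun m => (a m, b m)) atTop (𝓝 (a', b')) := ha.prodMk_nhds hb
  exact (h.tendsto (a', b')).comp h2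

lemma pair_tendsto {a b : ℕ → L2} {a' b' : L2} (ha : Tendsto a atTop (𝓝 a')) (hb : Tendsto b atTop (𝓝 b')) :
    Tendsto (fun m => pair (a m) (b m)) atTop (𝓝 (pair a' b')) :=
  tt pair_cont ha hb

theorem pair_q (u w : J → L2) :
    ‖∑ j, pair (HL (u j)) (w j)‖ₑ ≤ ENNReal.ofReal ((36 : ℝ) ^ ((1 : ℝ) / 4)) *
      (M (8/3) 2 (fun j => (u j : ℝ → ℂ))) ^ ((1 : ℝ) / 2) * (M (8/5) 2 (fun j => (w j : ℝ → ℂ))) ^ ((1 : ℝ) / 2) := by
  have hU := jv_memLp u w
  have hex : ∀ m : ℕ, ∃ G : SimpleFunc ℝ ((J → ℂ) × (J → ℂ)), eLpNorm (jv u w - ⇑G) 2 volume < ((m : ℝ≥0∞) + 1)⁻¹ ∧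
      MemLp G 2 (volume : Measure ℝ) := by
    intro m
    exact hU.exists_simpleFunc_eLpNorm_sub_lt (by norm_num) (by
      rw [ENNReal.inv_ne_zero]
      exact ENNReal.add_ne_top.2 ⟨ENNReal.natCast_ne_top m, ENNReal.one_ne_top⟩)
  choose G hG1 hG2 using hex
  set d : ℕ → ℝ≥0∞ := fun m => eLpNorm (jv u w - ⇑(G m)) 2 volume with hd
  have hd0 : Tendsto d atTop (𝓝 0) := by
    have h0 : Tendsto (fun m : ℕ => ((m : ℝ≥0∞) + 1)⁻¹) atTop (𝓝 0) := by
      have : Tendsto (fun m : ℕ => (((m + 1 : ℕ) : ℝ≥0∞))⁻¹) atTop (𝓝 0) :=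
        ENNReal.tendsto_inv_nat_nhds_zero.comp (tendsto_add_atTop_nat 1)
      simpa using this
    exact tendsto_of_tendsto_of_tendsto_of_le_of_le tendsto_const_nhds h0 (fun _ => zero_le) (fun m => (hG1 m).le)
  have hGm : ∀ m, Measurable (G m) := fun m => (G m).measurable
  have m1 : ∀ m j, MemLp (fun x => (G m x).1 j) 2 (volume : Measure ℝ) := by
    intro m j
    refine (hG2 m).of_le ?_ (Eventually.of_forall fun x => ?_)
    · exact ((measurable_pi_apply j).comp (measurable_fst.comp (hGm m))).aestronglyMeasurable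
    · exact (norm_le_pi_norm (G m x).1 j).trans (norm_fst_le _)
  have m2 : ∀ m j, MemLp (fun x => (G m x).2 j) 2 (volume : Measure ℝ) := by
    intro m j
    refine (hG2 m).of_le ?_ (Eventually.of_forall fun x => ?_)
    · exact ((measurable_pi_apply j).comp (measurable_snd.comp (hGm m))).aestronglyMeasurable
    · exact (norm_le_pi_norm (G m x).2 j).trans (norm_snd_le _)
  have t1 : ∀ j, Tendsto (fun m => ((m1 m j).toLp _ : L2)) atTop (𝓝 (u j)) := by
    intro j
    have := (Lp.tendsto_Lp_iff_tendsto_eLpNorm'' (fi := atTop) (fun m => fun x => (G m x).1 j) (fun m => m1 m j)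
      (u j : ℝ → ℂ) (Lp.memLp (u j))).2 ?_
    · rwa [Lp.toLp_coeFn] at this
    · refine tendsto_of_tendsto_of_tendsto_of_le_of_le tendsto_const_nhds hd0 (fun _ => zero_le) fun m => ?_
      refine eLpNorm_mono fun x => ?_
      rw [Pi.sub_apply, Pi.sub_apply, norm_sub_rev]
      refine le_trans ?_ (norm_fst_le _)
      exact norm_le_pi_norm ((jv u w x).1 - (G m x).1) j
  have t2 : ∀ j, Tendsto (fun m => ((m2 m j).toLp _ : L2)) atTop (𝓝 (w j)) := by
    intro j
    have := (Lp.tendsto_Lp_iff_tendsto_eLpNorm'' (fi := atTop) (fun m => fun x => (G m x).2 j) (fun m => m2 m j)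
      (w j : ℝ → ℂ) (Lp.memLp (w j))).2 ?_
    · rwa [Lp.toLp_coeFn] at this
    · refine tendsto_of_tendsto_of_tendsto_of_le_of_le tendsto_const_nhds hd0 (fun _ => zero_le) fun m => ?_
      refine eLpNorm_mono fun x => ?_
      rw [Pi.sub_apply, Pi.sub_apply, norm_sub_rev]
      refine le_trans ?_ (norm_snd_le _)
      exact norm_le_pi_norm ((jv u w x).2 - (G m x).2) j
  have hL : Tendsto (fun m => ‖∑ j, pair (HL ((m1 m j).toLp _)) ((m2 m j).toLp _)‖ₑ) atTop
      (𝓝 ‖∑ j, pair (HL (u j)) (w j)‖ₑ) := by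
    refine Tendsto.enorm (tendsto_finsetSum _ fun j _ => ?_)
    have hA : Tendsto (fun m => HL ((m1 m j).toLp _ : L2)) atTop (𝓝 (HL (u j))) :=
      (HL.continuous.tendsto _).comp (t1 j)
    exact pair_tendsto hA (t2 j)
  have eU : ∀ (r : ℝ), (M r 2 (fun j => (u j : ℝ → ℂ))) ^ ((1 : ℝ) / 2) = eLpNorm (fun x => nr r (fun j => u j x)) 2 volume :=
    fun r => M_eq _
  have eW : ∀ (r : ℝ), (M r 2 (fun j => (w j : ℝ → ℂ))) ^ ((1 : ℝ) / 2) = eLpNorm (fun x => nr r (fun j => w j x)) 2 volume :=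
    fun r => M_eq _
  have mu : AEMeasurable (fun x => (fun j => u j x : J → ℂ)) volume := by
    rw [aemeasurable_pi_iff]
    exact fun j => (Lp.memLp (u j)).1.aemeasurable
  have mw : AEMeasurable (fun x => (fun j => w j x : J → ℂ)) volume := by
    rw [aemeasurable_pi_iff]
    exact fun j => (Lp.memLp (w j)).1.aemeasurable
  have b1 : ∀ m, (M (8/3) 2 (fun j x => (G m x).1 j)) ^ ((1 : ℝ) / 2) ≤
      (M (8/3) 2 (fun j => (u j : ℝ → ℂ))) ^ ((1 : ℝ) / 2) + ENNReal.ofReal (Fintype.card J) * d m := by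
    intro m
    rw [M_eq, M_eq]
    have := eLpNorm_nr_le (J := J) (r := 8/3) (by norm_num) (a := fun x => (G m x).1) (b := fun x => (fun j => u j x))
      (measurable_fst.comp (hGm m)).aemeasurable mu (c := fun x => ‖(jv u w - ⇑(G m)) x‖) (fun x => by
        rw [norm_sub_rev, Pi.sub_apply]
        exact norm_fst_le (jv u w x - G m x))
    rw [eLpNorm_norm] at this
    exact this
  have b2 : ∀ m, (M (8/5) 2 (fun j x => (G m x).2 j)) ^ ((1 : ℝ) / 2) ≤
      (M (8/5) 2 (fun j => (w j : ℝ → ℂ))) ^ ((1 : ℝ) / 2) + ENNReal.ofReal (Fintype.card J) * d m := by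
    intro m
    rw [M_eq, M_eq]
    have := eLpNorm_nr_le (J := J) (r := 8/5) (by norm_num) (a := fun x => (G m x).2) (b := fun x => (fun j => w j x))
      (measurable_snd.comp (hGm m)).aemeasurable mw (c := fun x => ‖(jv u w - ⇑(G m)) x‖) (fun x => by
        rw [norm_sub_rev, Pi.sub_apply]
        exact norm_snd_le (jv u w x - G m x))
    rw [eLpNorm_norm] at this
    exact this
  have fin1 : (M (8/3) 2 (fun j => (u j : ℝ → ℂ))) ^ ((1 : ℝ) / 2) ≠ ∞ := by
    rw [M_eq]
    have := eLpNorm_nr_le (J := J) (r := 8/3) (by norm_num) (a := fun x => (fun j => u j x)) (b := fun _ => 0)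
      mu aemeasurable_const (c := fun x => ‖jv u w x‖) (fun x => by
        rw [sub_zero]
        exact norm_fst_le (jv u w x))
    rw [eLpNorm_norm] at this
    refine ne_top_of_le_ne_top ?_ this
    have e0 : (fun _ : ℝ => nr (8/3) (0 : J → ℂ)) = fun _ => 0 := by
      funext x
      simp [nr]
    rw [e0]
    simp only [eLpNorm_zero', zero_add]
    exact ENNReal.mul_ne_top ENNReal.ofReal_ne_top hU.eLpNorm_ne_top
  have fin2 : (M (8/5) 2 (fun j => (w j : ℝ → ℂ))) ^ ((1 : ℝ) / 2) ≠ ∞ := by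
    rw [M_eq]
    have := eLpNorm_nr_le (J := J) (r := 8/5) (by norm_num) (a := fun x => (fun j => w j x)) (b := fun _ => 0)
      mw aemeasurable_const (c := fun x => ‖jv u w x‖) (fun x => by
        rw [sub_zero]
        exact norm_snd_le (jv u w x))
    rw [eLpNorm_norm] at this
    refine ne_top_of_le_ne_top ?_ this
    have e0 : (fun _ : ℝ => nr (8/5) (0 : J → ℂ)) = fun _ => 0 := by
      funext x
      simp [nr]
    rw [e0]
    simp only [eLpNorm_zero', zero_add]
    exact ENNReal.mul_ne_top ENNReal.ofReal_ne_top hU.eLpNorm_ne_top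
  set X := (M (8/3) 2 (fun j => (u j : ℝ → ℂ))) ^ ((1 : ℝ) / 2) with hX
  set Y := (M (8/5) 2 (fun j => (w j : ℝ → ℂ))) ^ ((1 : ℝ) / 2) with hY
  set c0 := ENNReal.ofReal ((36 : ℝ) ^ ((1 : ℝ) / 4)) with hc0
  have hr : ∀ Z : ℝ≥0∞, Tendsto (fun m => Z + ENNReal.ofReal (Fintype.card J) * d m) atTop (𝓝 Z) := by
    intro Z
    have h1 : Tendsto (fun m => ENNReal.ofReal (Fintype.card J) * d m) atTop (𝓝 (ENNReal.ofReal (Fintype.card J) * 0)) :=
      ENNReal.Tendsto.const_mul hd0 (Or.inr ENNReal.ofReal_ne_top)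
    rw [mul_zero] at h1
    have h2 := (tendsto_const_nhds (x := Z) (f := (atTop : Filter ℕ))).add h1
    rwa [add_zero] at h2
  have hR : Tendsto (fun m => c0 * (X + ENNReal.ofReal (Fintype.card J) * d m) * (Y + ENNReal.ofReal (Fintype.card J) * d m))
      atTop (𝓝 (c0 * X * Y)) := by
    refine ENNReal.Tendsto.mul ?_ (Or.inr fin2) (hr Y) (Or.inr (ENNReal.mul_ne_top ENNReal.ofReal_ne_top fin1))
    exact ENNReal.Tendsto.const_mul (hr X) (Or.inr ENNReal.ofReal_ne_top)
  refine le_of_tendsto_of_tendsto' hL hR fun m => ?_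
  refine (simple_case (G m) (hG2 m) (m1 m) (m2 m)).trans ?_
  gcongr
  · exact b1 m
  · exact b2 m

end

end Pool.Agent.Helper604.UMD
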