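import Mathlib
import Pool.Agent.Helper604.UMD.Dens

open MeasureTheory FourierTransform SchwartzMap Complex Filter Topology
open scoped ENNReal NNReal Convolution ComplexConjugate

namespace Pool.Agent.Helper604.UMD

noncomputable section

variable {J : Type*} [Fintype J]

lemma memLp_nr {r : ℝ} (hr : 1 ≤ r) (u : J → L2) :
    MemLp (fun x => nr r (fun j => u j x)) 2 (volume : Measure ℝ) := by
  have mu : AEMeasurable (fun x => (fun j => u j x : J → ℂ)) volume := by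
    rw [aemeasurable_pi_iff]
    exact fun j => (Lp.memLp (u j)).1.aemeasurable
  have h1 : MemLp (fun x => (Fintype.card J : ℝ) * ∑ j, ‖u j x‖) 2 (volume : Measure ℝ) :=
    (memLp_finsetSum _ fun j _ => (Lp.memLp (u j)).norm).const_mul _
  refine h1.of_le ((nr_continuous hr).measurable.comp_aemeasurable mu).aestronglyMeasurable
    (Eventually.of_forall fun x => ?_)
  have n1 : 0 ≤ ∑ j, ‖u j x‖ := Finset.sum_nonneg fun _ _ => norm_nonneg _
  rw [Real.norm_of_nonneg (nr_nonneg _ _), Real.norm_of_nonneg (by positivity)]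
  refine (nr_le hr _).trans ?_
  gcongr
  rw [pi_norm_le_iff_of_nonneg n1]
  intro j
  exact Finset.single_le_sum (f := fun j => ‖u j x‖) (fun _ _ => norm_nonneg _) (Finset.mem_univ j)

/-- dual vector -/
def dl (z : J → ℂ) (j : J) : ℂ :=
  conj (z j) * ((‖z j‖ ^ ((2 : ℝ) / 3) * (∑ j, ‖z j‖ ^ ((8 : ℝ) / 3)) ^ (-(1 : ℝ) / 4) : ℝ) : ℂ)

lemma dl_mul (z : J → ℂ) : ∑ j, z j * dl z j = (((∑ j, ‖z j‖ ^ ((8 : ℝ) / 3)) ^ ((3 : ℝ) / 4) : ℝ) : ℂ) := by
  set S := ∑ j, ‖z j‖ ^ ((8 : ℝ) / 3) with hS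
  have hS0 : 0 ≤ S := by positivity
  have h1 : ∀ j, z j * dl z j = ((‖z j‖ ^ ((8 : ℝ) / 3) * S ^ (-(1 : ℝ) / 4) : ℝ) : ℂ) := by
    intro j
    rw [dl, ← hS, ← mul_assoc, Complex.mul_conj, Complex.normSq_eq_norm_sq, ← Complex.ofReal_mul]
    congr 1
    rw [← mul_assoc]
    congr 1
    by_cases hz : ‖z j‖ = 0
    · rw [hz, Real.zero_rpow (by norm_num), Real.zero_rpow (by norm_num)]; ring
    · have hz' : 0 < ‖z j‖ := lt_of_le_of_ne (norm_nonneg _) (Ne.symm hz)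
      rw [← Real.rpow_natCast, ← Real.rpow_add hz']
      norm_num
  simp_rw [h1]
  rw [← Complex.ofReal_sum, ← Finset.sum_mul, ← hS]
  congr 1
  rcases hS0.eq_or_lt with h | h
  · rw [← h, zero_mul, Real.zero_rpow (by norm_num)]
  · nth_rw 1 [← Real.rpow_one S]
    rw [← Real.rpow_add h]
    norm_num

lemma dl_norm (z : J → ℂ) (j : J) : ‖dl z j‖ = ‖z j‖ ^ ((5 : ℝ) / 3) * (∑ j, ‖z j‖ ^ ((8 : ℝ) / 3)) ^ (-(1 : ℝ) / 4) := by
  have hS0 : 0 ≤ ∑ j, ‖z j‖ ^ ((8 : ℝ) / 3) := by positivity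
  rw [dl, norm_mul, Complex.norm_real, RCLike.norm_conj, Real.norm_of_nonneg (by positivity), ← mul_assoc]
  congr 1
  by_cases hz : ‖z j‖ = 0
  · rw [hz, Real.zero_rpow (by norm_num), Real.zero_rpow (by norm_num)]; ring
  · have hz' : 0 < ‖z j‖ := lt_of_le_of_ne (norm_nonneg _) (Ne.symm hz)
    nth_rw 1 [← Real.rpow_one ‖z j‖]
    rw [← Real.rpow_add hz']
    norm_num

lemma dl_sum (z : J → ℂ) : (∑ j, ‖dl z j‖ ^ ((8 : ℝ) / 5)) ^ ((2 : ℝ) / (8/5)) = (∑ j, ‖z j‖ ^ ((8 : ℝ) / 3)) ^ ((2 : ℝ) / (8/3)) := by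
  simp_rw [dl_norm]
  set S := ∑ j, ‖z j‖ ^ ((8 : ℝ) / 3) with hS
  have hS0 : 0 ≤ S := by positivity
  have h1 : ∀ j, (‖z j‖ ^ ((5 : ℝ) / 3) * S ^ (-(1 : ℝ) / 4)) ^ ((8 : ℝ) / 5) = ‖z j‖ ^ ((8 : ℝ) / 3) * S ^ (-(2 : ℝ) / 5) := by
    intro j
    rw [Real.mul_rpow (by positivity) (by positivity), ← Real.rpow_mul (norm_nonneg _), ← Real.rpow_mul hS0]
    norm_num
  simp_rw [h1]
  rw [← Finset.sum_mul, ← hS]
  rcases hS0.eq_or_lt with h | h
  · rw [← h, zero_mul, Real.zero_rpow (by norm_num), Real.zero_rpow (by norm_num)]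
  · have : S * S ^ (-(2 : ℝ) / 5) = S ^ ((3 : ℝ) / 5) := by
      nth_rw 1 [← Real.rpow_one S]
      rw [← Real.rpow_add h]
      norm_num
    rw [this, ← Real.rpow_mul hS0]
    norm_num

lemma dl_le (z : J → ℂ) (j : J) : ‖dl z j‖ ≤ nr (8/3) z := by
  rw [dl_norm, nr]
  set S := ∑ j, ‖z j‖ ^ ((8 : ℝ) / 3) with hS
  have hS0 : 0 ≤ S := by positivity
  rcases hS0.eq_or_lt with h | h
  · rw [← h, Real.zero_rpow (by norm_num), mul_zero, Real.zero_rpow (by norm_num)]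
  · have h1 : ‖z j‖ ^ ((8 : ℝ) / 3) ≤ S :=
      Finset.single_le_sum (f := fun j => ‖z j‖ ^ ((8 : ℝ) / 3)) (fun _ _ => by positivity) (Finset.mem_univ j)
    have h2 : ‖z j‖ ^ ((5 : ℝ) / 3) ≤ S ^ ((5 : ℝ) / 8) := by
      have := Real.rpow_le_rpow (by positivity) h1 (show (0 : ℝ) ≤ 5/8 by norm_num)
      rw [← Real.rpow_mul (norm_nonneg _)] at this
      norm_num at this
      exact this
    calc ‖z j‖ ^ ((5 : ℝ) / 3) * S ^ (-(1 : ℝ) / 4) ≤ S ^ ((5 : ℝ) / 8) * S ^ (-(1 : ℝ) / 4) := by gcongr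
      _ = S ^ (1 / ((8 : ℝ) / 3)) := by
        rw [← Real.rpow_add h]
        norm_num

lemma dl_measurable : Measurable (dl (J := J)) := by
  rw [measurable_pi_iff]
  intro j
  unfold dl
  refine Measurable.mul ?_ ?_
  · exact (Complex.continuous_conj.comp (continuous_apply j)).measurable
  · refine Complex.measurable_ofReal.comp ?_
    refine Measurable.mul ?_ ?_
    · exact ((measurable_pi_apply j).norm).pow_const _
    · refine Measurable.pow_const ?_ _
      exact Finset.measurable_sum _ fun j _ => ((measurable_pi_apply j).norm).pow_const _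

theorem HL_q (u : J → L2) :
    M (8/3) 2 (fun j => (HL (u j) : ℝ → ℂ)) ≤ 6 * M (8/3) 2 (fun j => (u j : ℝ → ℂ)) := by
  set h : J → L2 := fun j => HL (u j) with hh
  have mh : AEMeasurable (fun x => (fun j => h j x : J → ℂ)) volume := by
    rw [aemeasurable_pi_iff]
    exact fun j => (Lp.memLp (h j)).1.aemeasurable
  have hW : ∀ j, MemLp (fun x => dl (fun j => h j x) j) 2 (volume : Measure ℝ) := by
    intro j
    refine (memLp_nr (r := 8/3) (by norm_num) h).of_le ?_ (Eventually.of_forall fun x => ?_)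
    · exact ((measurable_pi_apply j).comp dl_measurable |>.comp_aemeasurable mh).aestronglyMeasurable
    · rw [Real.norm_of_nonneg (nr_nonneg _ _)]
      exact dl_le _ j
  set w : J → L2 := fun j => (hW j).toLp _ with hw
  have e1 : ∑ j, pair (HL (u j)) (w j) = ∫ x, (((∑ j, ‖h j x‖ ^ ((8 : ℝ) / 3)) ^ ((3 : ℝ) / 4) : ℝ) : ℂ) := by
    have hint : ∀ j, Integrable (fun x => h j x * w j x) := fun j =>
      (Lp.memLp (h j)).integrable_mul (Lp.memLp (w j))
    have e0 : ∑ j, pair (HL (u j)) (w j) = ∫ x, ∑ j, h j x * w j x := by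
      rw [integral_finsetSum _ fun j _ => hint j]
      simp_rw [pair_apply]
      rfl
    rw [e0]
    apply integral_congr_ae
    have : ∀ᵐ x, ∀ j, w j x = dl (fun j => h j x) j := ae_all_iff.2 fun j => (hW j).coeFn_toLp
    filter_upwards [this] with x hx
    simp_rw [hx]
    exact dl_mul _
  have e2 : M (8/5) 2 (fun j => (w j : ℝ → ℂ)) = M (8/3) 2 (fun j => (h j : ℝ → ℂ)) := by
    unfold M
    apply lintegral_congr_ae
    have : ∀ᵐ x, ∀ j, w j x = dl (fun j => h j x) j := ae_all_iff.2 fun j => (hW j).coeFn_toLp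
    filter_upwards [this] with x hx
    simp_rw [hx]
    rw [dl_sum]
  set A := M (8/3) 2 (fun j => (h j : ℝ → ℂ)) with hA
  have hAfin : A ^ ((1 : ℝ) / 2) ≠ ∞ := by
    rw [hA, M_eq]
    exact (memLp_nr (r := 8/3) (by norm_num) h).eLpNorm_ne_top
  have hAfin' : A ≠ ∞ := by
    intro hcon
    rw [hcon] at hAfin
    simp at hAfin
  have e3 : ‖∑ j, pair (HL (u j)) (w j)‖ₑ = A := by
    rw [e1, integral_complex_ofReal, ← ofReal_norm, Complex.norm_real,
      Real.norm_of_nonneg (integral_nonneg fun x => by positivity)]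
    rw [ofReal_integral_eq_lintegral_ofReal]
    · rw [hA, M]
      congr 1
      funext x
      norm_num
    · refine ⟨?_, ?_⟩
      · refine AEMeasurable.aestronglyMeasurable ?_
        refine AEMeasurable.pow_const ?_ _
        exact Finset.aemeasurable_fun_sum _ fun j _ => ((Lp.memLp (h j)).1.aemeasurable.norm).pow_const _
      · rw [hasFiniteIntegral_iff_ofReal (Eventually.of_forall fun x => by positivity)]
        have : ∫⁻ x, ENNReal.ofReal ((∑ j, ‖h j x‖ ^ ((8 : ℝ) / 3)) ^ ((3 : ℝ) / 4)) = A := by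
          rw [hA, M]
          congr 1
          funext x
          norm_num
        rw [this]
        exact hAfin'.lt_top
    · exact Eventually.of_forall fun x => by positivity
  have key := pair_q u w
  rw [e3, e2] at key
  set X := M (8/3) 2 (fun j => (u j : ℝ → ℂ)) with hX
  by_cases hA0 : A = 0
  · rw [hA0]; exact zero_le
  have hA1 : A ^ ((1 : ℝ) / 2) ≠ 0 := by
    intro hcon
    rw [ENNReal.rpow_eq_zero_iff] at hcon
    rcases hcon with ⟨h1, _⟩ | ⟨_, h2⟩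
    · exact hA0 h1
    · norm_num at h2
  have hAA : A = A ^ ((1 : ℝ) / 2) * A ^ ((1 : ℝ) / 2) := by
    rw [← ENNReal.rpow_add _ _ hA0 hAfin']
    norm_num
  have k2 : A ^ ((1 : ℝ) / 2) ≤ ENNReal.ofReal ((36 : ℝ) ^ ((1 : ℝ) / 4)) * X ^ ((1 : ℝ) / 2) := by
    have : A ^ ((1 : ℝ) / 2) * A ^ ((1 : ℝ) / 2) ≤ (ENNReal.ofReal ((36 : ℝ) ^ ((1 : ℝ) / 4)) * X ^ ((1 : ℝ) / 2)) * A ^ ((1 : ℝ) / 2) := by
      rw [← hAA]
      exact key
    exact (ENNReal.mul_le_mul_iff_left hA1 hAfin).1 this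
  have k3 := ENNReal.rpow_le_rpow k2 (show (0 : ℝ) ≤ 2 by norm_num)
  rw [← ENNReal.rpow_mul, ENNReal.mul_rpow_of_nonneg _ _ (by norm_num), ← ENNReal.rpow_mul,
    ENNReal.ofReal_rpow_of_nonneg (by positivity) (by norm_num), ← Real.rpow_mul (by norm_num)] at k3
  norm_num at k3
  exact k3

end

end Pool.Agent.Helper604.UMD
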