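import Mathlib
import Pool.Agent.Helper604.UMD.Sem
import Pool.Agent.Helper604.UMD.Dual
import Pool.Agent.Helper604.UMD.Rb3

open MeasureTheory FourierTransform SchwartzMap Complex Filter Topology Set
open scoped ENNReal NNReal ComplexConjugate

namespace Pool.Agent.Helper604.UMD

noncomputable section

/-- coordinate functional -/
def ev (i : ℕ ⊕ ℕ) : XC →L[ℂ] ℂ :=
  LinearMap.mkContinuous { toFun := fun x => x.co i, map_add' := fun _ _ => rfl, map_smul' := fun _ _ => rfl } 1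
    (fun x => by rw [one_mul]; exact co_le_norm x i)

@[simp] lemma ev_apply (i : ℕ ⊕ ℕ) (x : XC) : ev i x = x.co i := rfl

/-- coordinate of a Schwartz function -/
def fco (i : ℕ ⊕ ℕ) (f : 𝓢(ℝ, XC)) : 𝓢(ℝ, ℂ) := f.postcompCLM (ev i)

lemma fco_apply (i : ℕ ⊕ ℕ) (f : 𝓢(ℝ, XC)) (x : ℝ) : fco i f x = (f x).co i := rfl

lemma fourier_co (i : ℕ ⊕ ℕ) (f : 𝓢(ℝ, XC)) (ξ : ℝ) : 𝓕 (fco i f : ℝ → ℂ) ξ = (𝓕 (f : ℝ → XC) ξ).co i := by
  rw [← ev_apply, Real.fourier_eq, Real.fourier_eq]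
  have h : Integrable (fun v : ℝ => Real.fourierChar (-inner ℝ v ξ) • f v) := by
    refine (f.integrable (μ := volume)).norm.mono' ?_ (Eventually.of_forall fun v => ?_)
    · refine Continuous.aestronglyMeasurable ?_
      simp only [Circle.smul_def]
      have h2 : Continuous (fun v : ℝ => ((Real.fourierChar (-inner ℝ v ξ) : Circle) : ℂ)) :=
        continuous_subtype_val.comp (Real.continuous_fourierChar.comp (by fun_prop))
      exact h2.smul f.continuous
    · rw [norm_e_smul]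
  rw [← (ev i).integral_comp_comm h]
  congr 1

lemma hil_co (i : ℕ ⊕ ℕ) (f : 𝓢(ℝ, XC)) (x : ℝ) : (hilbertT f x).co i = hilbertT (fco i f) x := by
  rw [← ev_apply]
  unfold hilbertT
  rw [Real.fourierInv_eq, Real.fourierInv_eq]
  have h : Integrable (fun v : ℝ => Real.fourierChar (inner ℝ v x) • (sym v • 𝓕 (f : ℝ → XC) v)) := by
    have h1 := fhat_integrableY f
    refine h1.norm.mono' ?_ (Eventually.of_forall fun v => ?_)
    · simp only [Circle.smul_def]
      have h2 : Continuous (fun v : ℝ => ((Real.fourierChar (inner ℝ v x) : Circle) : ℂ)) :=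
        continuous_subtype_val.comp (Real.continuous_fourierChar.comp (by fun_prop))
      exact h2.aestronglyMeasurable.smul (sym_measurable.aestronglyMeasurable.smul h1.aestronglyMeasurable)
    · rw [norm_e_smul, norm_smul]
      calc _ ≤ 1 * ‖𝓕 (f : ℝ → XC) v‖ := by gcongr; exact norm_sym_le _
        _ = _ := one_mul _
  rw [← (ev i).integral_comp_comm h]
  congr 1
  funext v
  rw [fourier_co, Circle.smul_def, Circle.smul_def, map_smul, map_smul, ev_apply]

lemma M22_eq {J : Type*} [Fintype J] (u : J → ℝ → ℂ) (hu : ∀ j, AEMeasurable (u j) volume) :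
    M 2 2 u = ∑ j, eLpNorm (u j) 2 volume ^ 2 := by
  simp_rw [eLp2]
  rw [← lintegral_finsetSum' _ fun j _ => (hu j).enorm.pow_const 2]
  unfold M
  congr 1
  funext x
  rw [div_self (by norm_num), Real.rpow_one, ENNReal.ofReal_sum_of_nonneg fun _ _ => by positivity]
  refine Finset.sum_congr rfl fun j _ => ?_
  rw [Real.rpow_two, ← ofReal_norm, ENNReal.ofReal_pow (norm_nonneg _)]

lemma HL_M22 {J : Type*} [Fintype J] (u : J → L2) :
    M 2 2 (fun j => (HL (u j) : ℝ → ℂ)) ≤ M 2 2 (fun j => (u j : ℝ → ℂ)) := by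
  rw [M22_eq _ fun j => (Lp.memLp _).1.aemeasurable, M22_eq _ fun j => (Lp.memLp _).1.aemeasurable]
  refine Finset.sum_le_sum fun j _ => ?_
  have h := HL_norm (u j)
  rw [← enorm_le_iff_norm_le, Lp.enorm_def, Lp.enorm_def] at h
  gcongr

/-- both Hilbert transform estimates for Schwartz functions -/
lemma schw_M {J : Type*} [Fintype J] (f : J → 𝓢(ℝ, ℂ)) :
    M 2 2 (fun j => hilbertT (f j)) ≤ M 2 2 (fun j => (f j : ℝ → ℂ)) ∧
    M (8/3) 2 (fun j => hilbertT (f j)) ≤ 6 * M (8/3) 2 (fun j => (f j : ℝ → ℂ)) := by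
  have h1 : ∀ j, ((f j).toLp 2 : ℝ → ℂ) =ᵐ[volume] (f j : ℝ → ℂ) := fun j => (f j).coeFn_toLp 2
  have h2 := fun j => HL_schwartz (f j)
  constructor
  · have h := HL_M22 fun j => (f j).toLp 2
    rwa [M_congr h1, M_congr h2] at h
  · have h := HL_q fun j => (f j).toLp 2
    rwa [M_congr h1, M_congr h2] at h

lemma ln_mono_n {r : ℝ} (hr : 0 < r) {m n : ℕ} (h : m ≤ n) (x : ℕ → ℝ) : ln r m x ≤ ln r n x := by
  unfold ln
  refine Real.rpow_le_rpow (by positivity) ?_ (by positivity)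
  exact Finset.sum_le_sum_of_subset_of_nonneg (Finset.range_mono h) fun _ _ _ => by positivity

lemma PN_mono_n {m n : ℕ} (h : m ≤ n) (x : ℕ ⊕ ℕ → ℝ) : PN m x ≤ PN n x :=
  add_le_add (ln_mono_n (by norm_num) h _) (ln_mono_n (by norm_num) h _)

lemma M_ln {r : ℝ} (hr : 0 < r) (n : ℕ) (g : ℕ → ℝ → ℂ) :
    M r 2 (fun j : Fin n => g j) = ∫⁻ x, ENNReal.ofReal ((ln r n fun j => ‖g j x‖) ^ 2) := by
  unfold M ln
  congr 1
  funext x
  congr 1
  rw [← Real.rpow_two, ← Real.rpow_mul (by positivity)]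
  rw [Fin.sum_univ_eq_sum_range (fun j => ‖g j x‖ ^ r) n]
  simp only [abs_norm]
  congr 1
  field_simp

lemma enorm_le_iSup (z : XC) : ‖z‖ₑ ^ 2 ≤ ⨆ n, ENNReal.ofReal ((2 * PN n (absf z.co)) ^ 2) := by
  set S := ⨆ n, ENNReal.ofReal ((2 * PN n (absf z.co)) ^ 2) with hS
  by_cases hT : S = ∞
  · rw [hT]
    exact le_top
  · have h1 : ∀ n, PN n (absf z.co) ≤ Real.sqrt S.toReal / 2 := by
      intro n
      have h2 : ENNReal.ofReal ((2 * PN n (absf z.co)) ^ 2) ≤ S := le_iSup (fun n => ENNReal.ofReal ((2 * PN n (absf z.co)) ^ 2)) n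
      have h3 : (2 * PN n (absf z.co)) ^ 2 ≤ S.toReal := by
        rw [← ENNReal.ofReal_le_ofReal_iff ENNReal.toReal_nonneg, ENNReal.ofReal_toReal hT]
        exact h2
      have h4 := Real.le_sqrt_of_sq_le h3
      linarith
    have h5 := norm_le_PN (by positivity) h1
    have h6 : ‖z‖ ≤ Real.sqrt S.toReal := by linarith
    rw [← ofReal_norm, ← ENNReal.ofReal_pow (norm_nonneg _), ← ENNReal.ofReal_toReal hT]
    refine ENNReal.ofReal_le_ofReal ?_
    calc ‖z‖ ^ 2 ≤ (Real.sqrt S.toReal) ^ 2 := by gcongr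
      _ = _ := Real.sq_sqrt ENNReal.toReal_nonneg

theorem umd_XC : IsUMD XC := by
  refine ⟨8, fun f => ?_⟩
  have key : ∫⁻ x, ‖hilbertT f x‖ₑ ^ 2 ≤ 64 * ∫⁻ x, ‖f x‖ₑ ^ 2 := by
    have hF : ∀ x, (hilbertT f x).co = fun i => hilbertT (fco i f) x := fun x => funext fun i => hil_co i f x
    have hmeas : ∀ n, Measurable fun x => ENNReal.ofReal ((2 * PN n (absf (hilbertT f x).co)) ^ 2) := by
      intro n
      refine ENNReal.measurable_ofReal.comp ?_
      refine Continuous.measurable ?_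
      refine Continuous.pow (Continuous.mul continuous_const ?_) 2
      refine (PN_cont n).comp (absf_continuous.comp ?_)
      simp_rw [hF]
      exact continuous_pi fun i => hilbertT_continuous _
    have hn : ∀ n, ∫⁻ x, ENNReal.ofReal ((2 * PN n (absf (hilbertT f x).co)) ^ 2) ≤ 64 * ∫⁻ x, ‖f x‖ₑ ^ 2 := by
      intro n
      have h1 : ∀ x, ENNReal.ofReal ((2 * PN n (absf (hilbertT f x).co)) ^ 2) ≤
          8 * ENNReal.ofReal ((ln 2 n fun j => ‖hilbertT (fco (Sum.inl j) f) x‖) ^ 2) +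
          8 * ENNReal.ofReal ((ln (8 / 3) n fun j => ‖hilbertT (fco (Sum.inr j) f) x‖) ^ 2) := by
        intro x
        have e8 : (8 : ℝ≥0∞) = ENNReal.ofReal 8 := by norm_num
        rw [e8, ← ENNReal.ofReal_mul (by norm_num), ← ENNReal.ofReal_mul (by norm_num), ← ENNReal.ofReal_add (by positivity) (by positivity)]
        refine ENNReal.ofReal_le_ofReal ?_
        rw [hF]
        unfold PN absf
        nlinarith [sq_nonneg ((ln 2 n fun j => ‖hilbertT (fco (Sum.inl j) f) x‖) - (ln (8 / 3) n fun j => ‖hilbertT (fco (Sum.inr j) f) x‖))]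
      have h2 := (schw_M fun j : Fin n => fco (Sum.inl j) f).1
      have h3 := (schw_M fun j : Fin n => fco (Sum.inr j) f).2
      rw [M_ln (by norm_num) n (fun j => hilbertT (fco (Sum.inl j) f)), M_ln (by norm_num) n (fun j => (fco (Sum.inl j) f : ℝ → ℂ))] at h2
      rw [M_ln (by norm_num) n (fun j => hilbertT (fco (Sum.inr j) f)), M_ln (by norm_num) n (fun j => (fco (Sum.inr j) f : ℝ → ℂ))] at h3
      have hm : ∀ (r : ℝ) (hr : 0 < r) (g : ℕ → 𝓢(ℝ, ℂ)), Measurable fun x => ENNReal.ofReal ((ln r n fun j => ‖hilbertT (g j) x‖) ^ 2) := by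
        intro r hr g
        refine ENNReal.measurable_ofReal.comp (Continuous.measurable ?_)
        refine Continuous.pow ((ln_cont hr n).comp (continuous_pi fun j => ?_)) 2
        exact (hilbertT_continuous (g j)).norm
      have h4 : ∀ x, ENNReal.ofReal ((ln 2 n fun j => ‖fco (Sum.inl j) f x‖) ^ 2) ≤ ‖f x‖ₑ ^ 2 := by
        intro x
        rw [← ofReal_norm, ← ENNReal.ofReal_pow (norm_nonneg _)]
        refine ENNReal.ofReal_le_ofReal ?_
        have h5 := PN_le_norm (f x) n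
        have h6 := ln_nonneg (8 / 3) n fun j => ‖(f x).co (Sum.inr j)‖
        have h7 := ln_nonneg 2 n fun j => ‖(f x).co (Sum.inl j)‖
        unfold PN absf at h5
        simp only [fco_apply]
        gcongr
        linarith
      have h5 : ∀ x, ENNReal.ofReal ((ln (8 / 3) n fun j => ‖fco (Sum.inr j) f x‖) ^ 2) ≤ ‖f x‖ₑ ^ 2 := by
        intro x
        rw [← ofReal_norm, ← ENNReal.ofReal_pow (norm_nonneg _)]
        refine ENNReal.ofReal_le_ofReal ?_
        have h5 := PN_le_norm (f x) n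
        have h6 := ln_nonneg (8 / 3) n fun j => ‖(f x).co (Sum.inr j)‖
        have h7 := ln_nonneg 2 n fun j => ‖(f x).co (Sum.inl j)‖
        unfold PN absf at h5
        simp only [fco_apply]
        gcongr
        linarith
      calc _ ≤ ∫⁻ x, (8 * ENNReal.ofReal ((ln 2 n fun j => ‖hilbertT (fco (Sum.inl j) f) x‖) ^ 2) +
            8 * ENNReal.ofReal ((ln (8 / 3) n fun j => ‖hilbertT (fco (Sum.inr j) f) x‖) ^ 2)) := lintegral_mono h1
        _ = 8 * (∫⁻ x, ENNReal.ofReal ((ln 2 n fun j => ‖hilbertT (fco (Sum.inl j) f) x‖) ^ 2)) +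
            8 * (∫⁻ x, ENNReal.ofReal ((ln (8 / 3) n fun j => ‖hilbertT (fco (Sum.inr j) f) x‖) ^ 2)) := by
          rw [lintegral_add_left ((hm 2 (by norm_num) _).const_mul _), lintegral_const_mul _ (hm 2 (by norm_num) _),
            lintegral_const_mul _ (hm (8 / 3) (by norm_num) _)]
        _ ≤ 8 * (∫⁻ x, ‖f x‖ₑ ^ 2) + 8 * (6 * ∫⁻ x, ‖f x‖ₑ ^ 2) := by
          exact add_le_add (mul_le_mul' le_rfl (h2.trans (lintegral_mono h4)))
            (mul_le_mul' le_rfl (h3.trans (mul_le_mul' le_rfl (lintegral_mono h5))))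
        _ = 56 * ∫⁻ x, ‖f x‖ₑ ^ 2 := by ring
        _ ≤ _ := by gcongr; norm_num
    calc _ ≤ ∫⁻ x, ⨆ n, ENNReal.ofReal ((2 * PN n (absf (hilbertT f x).co)) ^ 2) := lintegral_mono fun x => enorm_le_iSup _
      _ = ⨆ n, ∫⁻ x, ENNReal.ofReal ((2 * PN n (absf (hilbertT f x).co)) ^ 2) := by
        refine lintegral_iSup hmeas ?_
        intro m n hmn x
        refine ENNReal.ofReal_le_ofReal ?_
        have := PN_nonneg m (absf (hilbertT f x).co)
        have := PN_mono_n hmn (absf (hilbertT f x).co)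
        gcongr
      _ ≤ _ := iSup_le hn
  rw [← eLp2, ← eLp2] at key
  have h64 : (64 : ℝ≥0∞) = ((8 : ℝ≥0) : ℝ≥0∞) ^ 2 := by norm_num
  rw [h64, ← mul_pow] at key
  exact (ENNReal.pow_le_pow_left_iff (by norm_num)).1 key

end

end Pool.Agent.Helper604.UMD
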